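import Pool.Agent.EMB.Stmts

set_option autoImplicit false

namespace Pool.Agent.EMB

namespace CLP_

variable {E : Type} [NormedAddCommGroup E] [InnerProductSpace ℝ E] [FiniteDimensional ℝ E]

theorem proj_zero_iff (S : Submodule ℝ E) (y : E) : Sᗮ.starProjection y = 0 ↔ y ∈ S := by
  rw [Submodule.starProjection_apply_eq_zero_iff, Submodule.orthogonal_orthogonal]

theorem decomp (S : Submodule ℝ E) (y : E) : y = Sᗮ.starProjection y + S.starProjection y := by
  have h := Submodule.starProjection_add_starProjection_orthogonal (K := S) y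
  rw [add_comm] at h
  exact h.symm

theorem part1 (Lam : AddSubgroup E) (X : Set E) (R : ℝ) (hX : X ⊆ (Lam : Set E))
    (hR : ∀ x ∈ X, ‖x‖ ≤ R) (hR0 : 0 ≤ R) (y : E) (hy : y ∈ Lam) :
    ∃ y₁ ∈ Lam, y - y₁ ∈ Submodule.span ℝ X ∧
      ‖y₁‖ ≤ ‖(Submodule.span ℝ X)ᗮ.starProjection y‖ + (Module.finrank ℝ E : ℝ) / 2 * R := by
  obtain ⟨b, hbX, hspan, hli⟩ := exists_linearIndependent ℝ X
  have : Finite b := hli.setFinite
  have := Fintype.ofFinite b
  have hcard : Fintype.card b ≤ Module.finrank ℝ E := hli.fintype_card_le_finrank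
  have hmem : (Submodule.span ℝ X).starProjection y ∈ Submodule.span ℝ (Set.range ((↑) : b → E)) := by
    rw [Subtype.range_coe, hspan]
    exact Submodule.starProjection_apply_mem _ _
  obtain ⟨a, ha⟩ := (Submodule.mem_span_range_iff_exists_fun ℝ).mp hmem
  have hsum : (∑ i : b, (round (a i)) • (i : E)) ∈ Submodule.span ℝ X := by
    refine Submodule.sum_mem _ fun i _ => ?_
    rw [← Int.cast_smul_eq_zsmul ℝ]
    exact Submodule.smul_mem _ _ (Submodule.subset_span (hbX i.2))
  refine ⟨y - ∑ i : b, (round (a i)) • (i : E), ?_, ?_, ?_⟩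
  · refine Lam.sub_mem hy (Lam.sum_mem fun i _ => Lam.zsmul_mem (hX (hbX i.2)) _)
  · rw [sub_sub_cancel]; exact hsum
  · have h1 : y - ∑ i : b, (round (a i)) • (i : E) =
        (Submodule.span ℝ X)ᗮ.starProjection y + ∑ i : b, (a i - (round (a i) : ℝ)) • (i : E) := by
      conv_lhs => rw [decomp (Submodule.span ℝ X) y, ← ha]
      rw [add_sub_assoc, ← Finset.sum_sub_distrib]
      congr 1
      refine Finset.sum_congr rfl fun i _ => ?_
      rw [sub_smul, Int.cast_smul_eq_zsmul]
    rw [h1]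
    refine (norm_add_le _ _).trans (add_le_add le_rfl ?_)
    refine (norm_sum_le _ _).trans ?_
    have h2 : ∀ i ∈ (Finset.univ : Finset b), ‖(a i - (round (a i) : ℝ)) • (i : E)‖ ≤ 1 / 2 * R := by
      intro i _
      rw [norm_smul, Real.norm_eq_abs]
      exact mul_le_mul (abs_sub_round _) (hR _ (hbX i.2)) (norm_nonneg _) (by norm_num)
    refine (Finset.sum_le_card_nsmul _ _ _ h2).trans ?_
    rw [nsmul_eq_mul, Finset.card_univ]
    have h3 : (Fintype.card b : ℝ) ≤ (Module.finrank ℝ E : ℝ) := by exact_mod_cast hcard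
    nlinarith

end CLP_

open CLP_ in
theorem clp_proof : Stmt_CLP := by
  intro E _ _ _ Lam X R hfin hX hR hR0
  have p1 := part1 Lam X R hX hR hR0
  refine ⟨p1, ?_, ?_⟩
  · intro R'
    have hf := hfin (R' + (Module.finrank ℝ E : ℝ) / 2 * R)
    refine (hf.image (fun z => (Submodule.span ℝ X)ᗮ.starProjection z)).subset ?_
    rintro y ⟨hy, hyR⟩
    obtain ⟨y0, hy0, rfl⟩ := hy
    obtain ⟨y1, hy1, hd, hn⟩ := p1 y0 hy0
    refine ⟨y1, ⟨hy1, hn.trans (add_le_add hyR le_rfl)⟩, ?_⟩
    have h := (proj_zero_iff (Submodule.span ℝ X) (y0 - y1)).mpr hd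
    rw [map_sub, sub_eq_zero] at h
    exact h.symm
  · set S := Submodule.span ℝ X with hS
    set T := Submodule.span ℝ (Lam : Set E) with hT
    have hST : S ≤ T := Submodule.span_mono hX
    let P : E →ₗ[ℝ] E := (Sᗮ.starProjection : E →L[ℝ] E).toLinearMap
    have hmap : Submodule.span ℝ ((Lam.map
        ((Sᗮ.starProjection : E →L[ℝ] E) : E →+ E) : AddSubgroup E) : Set E) = T.map P := by
      rw [hT, Submodule.map_span]
      rfl
    rw [hmap]
    have h := LinearMap.finrank_range_add_finrank_ker (P.domRestrict T)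
    have hr : LinearMap.range (P.domRestrict T) = T.map P := by
      rw [LinearMap.range_domRestrict]
    have hk : LinearMap.ker (P.domRestrict T) = S.comap T.subtype := by
      ext z
      rw [LinearMap.mem_ker, LinearMap.domRestrict_apply, Submodule.mem_comap, Submodule.subtype_apply]
      exact proj_zero_iff S z
    rw [hr, hk, (Submodule.comapSubtypeEquivOfLe hST).finrank_eq] at h
    exact h

end Pool.Agent.EMB
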