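import Pool.Agent.EMB.Stmts

set_option autoImplicit false

namespace Pool.Agent.EMB

theorem cls_proof : Stmt_CLS := by
  intro E _ _ _ K rr hrr
  by_contra hcon
  push Not at hcon
  have hmono : ∀ k, Submodule.span ℝ (K ∩ Metric.closedBall 0 (rr k)) ≤
      Submodule.span ℝ (K ∩ Metric.closedBall 0 (rr (k + 1))) := fun k =>
    Submodule.span_mono (Set.inter_subset_inter_right _
      (Metric.closedBall_subset_closedBall (hrr (Nat.le_succ k))))
  have key : ∀ k, k ≤ Module.finrank ℝ E + 1 →
      k ≤ Module.finrank ℝ (Submodule.span ℝ (K ∩ Metric.closedBall (0 : E) (rr k))) := by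
    intro k
    induction k with
    | zero => intro _; exact Nat.zero_le _
    | succ k ih =>
      intro hk
      have h1 := ih (by omega)
      have h2 := hcon k (by omega)
      have h3 : Submodule.span ℝ (K ∩ Metric.closedBall 0 (rr k)) <
          Submodule.span ℝ (K ∩ Metric.closedBall 0 (rr (k + 1))) :=
        lt_of_le_of_ne (hmono k) h2
      have h4 := Submodule.finrank_lt_finrank_of_lt h3
      omega
  have h5 := key (Module.finrank ℝ E + 1) le_rfl
  have h6 := Submodule.finrank_le
    (Submodule.span ℝ (K ∩ Metric.closedBall (0 : E) (rr (Module.finrank ℝ E + 1))))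
  omega

end Pool.Agent.EMB
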