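import Mathlib

/-!
# Squad EMB (MP_973cda_nt, Green Problem 2, Sections 3-6): definitions

Integer boxes, chains, generalized arithmetic progressions, the lattices `Λ_i` (scaled by `2^i`).
-/

set_option autoImplicit false

namespace Pool.Agent.EMB

open MeasureTheory

/-- the integer box `∏ [0, M l)` -/
noncomputable def box {I : Type} [Fintype I] [DecidableEq I] (M : I → ℕ) : Finset (I → ℤ) :=
  Fintype.piFinset (fun l => Finset.Ico (0 : ℤ) (M l : ℤ))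

/-- (LK): among any `κ` elements of `U t` which are congruent mod 2 there are two different ones
whose midpoint is in `U (t + 1)`. -/
def Chain {r : ℕ} (κ : ℕ) (U : ℕ → Finset (Fin r → ℤ)) : Prop :=
  ∀ (t : ℕ) (X : Finset (Fin r → ℤ)), X ⊆ U t → κ ≤ X.card →
    (∀ x ∈ X, ∀ y ∈ X, ∀ j, (2 : ℤ) ∣ x j - y j) →
    ∃ x ∈ X, ∃ y ∈ X, x ≠ y ∧ ∃ z ∈ U (t + 1), ∀ j, 2 * z j = x j + y j

/-- proper generalized arithmetic progression of rank `d` in `ℤ^r` -/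
structure Gap (r d : ℕ) where
  c : Fin r → ℤ
  φ : (Fin d → ℤ) →ₗ[ℤ] (Fin r → ℤ)
  M : Fin d → ℕ
  pos : ∀ l, 1 ≤ M l
  proper : ∀ u : Fin d → ℤ, φ u = 0 → (∀ l, |u l| ≤ 8 * (M l : ℤ)) → u = 0

/-- the set of points of a progression -/
noncomputable def Gap.pts {r d : ℕ} (P : Gap r d) : Finset (Fin r → ℤ) :=
  (box P.M).image (fun u => P.c + P.φ u)

/-- the volume of a progression -/
def Gap.size {r d : ℕ} (P : Gap r d) : ℕ := ∏ l, P.M l

/-- every side is thick (a power `B^k` with `k ≥ n + 1`) or thin (`< B^(n+1)`) -/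
def Gap.Scaled {r d : ℕ} (P : Gap r d) (B n : ℕ) : Prop :=
  ∀ l, P.M l < B ^ (n + 1) ∨ ∃ k, n + 1 ≤ k ∧ P.M l = B ^ k

/-- the thick coordinates -/
def Gap.thick {r d : ℕ} (P : Gap r d) (B n : ℕ) : Finset (Fin d) :=
  Finset.univ.filter (fun l => B ^ (n + 1) ≤ P.M l)

/-- the kernel of `φ` restricted to the coordinates in `Th` -/
def kerT {r d : ℕ} (φ : (Fin d → ℤ) →ₗ[ℤ] (Fin r → ℤ)) (Th : Finset (Fin d)) :
    Submodule ℤ (Fin d → ℤ) :=
  LinearMap.ker φ ⊓ { carrier := {u | ∀ l, l ∉ Th → u l = 0}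
                      add_mem' := by
                        intro a b ha hb l hl
                        rw [Pi.add_apply, ha l hl, hb l hl, add_zero]
                      zero_mem' := fun l _ => rfl
                      smul_mem' := by
                        intro c a ha l hl
                        rw [Pi.smul_apply, ha l hl, smul_zero] }

/-- kernel rank of `φ` restricted to the coordinates in `Th` -/
noncomputable def rhoT {r d : ℕ} (φ : (Fin d → ℤ) →ₗ[ℤ] (Fin r → ℤ)) (Th : Finset (Fin d)) : ℕ :=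
  Module.finrank ℤ (kerT φ Th)

/-- every translate of `T` meets `P` in at most `q |P|` points -/
def QB {r d : ℕ} (P : Gap r d) (T : Finset (Fin r → ℤ)) (q : ℝ) : Prop :=
  ∀ x : Fin r → ℤ, ((P.pts.filter (fun p => p - x ∈ T)).card : ℝ) ≤ q * P.size

/-- the number `ι_i` (no thin coordinates) -/
noncomputable def io {I : Type} [Fintype I] [DecidableEq I] {r : ℕ} (φ : (I → ℤ) →ₗ[ℤ] (Fin r → ℤ)) (i : ℕ) : ℕ :=
  ((box (fun _ : I => 2 ^ i)).filter (fun w => ∀ j, (2 ^ i : ℤ) ∣ φ w j)).card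

/-- the points of level `i` (scaled by `2^i`) of the box `∏ [0, S l)` which are in `U` -/
noncomputable def lev {I : Type} [Fintype I] [DecidableEq I] {r : ℕ} (U : Finset (Fin r → ℤ)) (c : Fin r → ℤ)
    (φ : (I → ℤ) →ₗ[ℤ] (Fin r → ℤ)) (S : I → ℕ) (i : ℕ) : Finset (I → ℤ) :=
  (box (fun l => 2 ^ i * S l)).filter (fun w => ∃ z ∈ U, ∀ j, 2 ^ i * z j = 2 ^ i * c j + φ w j)

/-- `w / 2^i ∈ Λ_i` -/
def LatT {r d : ℕ} (φ : (Fin d → ℤ) →ₗ[ℤ] (Fin r → ℤ)) (Th : Finset (Fin d)) (i : ℕ)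
    (w : Fin d → ℤ) : Prop :=
  (∀ l, l ∉ Th → (2 ^ i : ℤ) ∣ w l) ∧ ∀ j, (2 ^ i : ℤ) ∣ φ w j

instance {r d : ℕ} (φ : (Fin d → ℤ) →ₗ[ℤ] (Fin r → ℤ)) (Th : Finset (Fin d)) (i : ℕ) :
    DecidablePred (LatT φ Th i) := fun w => by unfold LatT; infer_instance

/-- the number `ι_i` -/
noncomputable def ioT {r d : ℕ} (φ : (Fin d → ℤ) →ₗ[ℤ] (Fin r → ℤ)) (Th : Finset (Fin d)) (i : ℕ) : ℕ :=
  ((box (fun _ : Fin d => 2 ^ i)).filter (LatT φ Th i)).card

/-- the points of level `i` (scaled by `2^i`) of `P` which are in `U` -/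
noncomputable def levT {r d : ℕ} (U : Finset (Fin r → ℤ)) (P : Gap r d) (Th : Finset (Fin d)) (i : ℕ) :
    Finset (Fin d → ℤ) :=
  (box (fun l => 2 ^ i * P.M l)).filter (fun w => (∀ l, l ∉ Th → (2 ^ i : ℤ) ∣ w l) ∧
    ∃ z ∈ U, ∀ j, 2 ^ i * z j = 2 ^ i * P.c j + P.φ w j)

/-- Gaussian `exp (- ∑ x² / (2 σ²))` -/
noncomputable def gs {I : Type} [Fintype I] (σ : I → ℝ) (x : I → ℝ) : ℝ :=
  Real.exp (-∑ l, x l ^ 2 / (2 * σ l ^ 2))

/-- Gaussian `exp (- ∑ x² / σ²)` -/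
noncomputable def hs {I : Type} [Fintype I] (σ : I → ℝ) (x : I → ℝ) : ℝ :=
  Real.exp (-∑ l, x l ^ 2 / σ l ^ 2)

/-- the loss per step -/
noncomputable def Ck (κ : ℕ) : ℝ := Real.log (40 * (κ : ℝ) ^ 2) + 1

/-- the constant of the conversion lemma -/
noncomputable def ED (D : ℕ) : ℝ := Real.exp (20 * (D : ℝ) ^ 3)

/-- the loss of one round -/
noncomputable def Y4 (D B : ℕ) : ℝ := 60 * (D : ℝ) ^ 3 + 4 * D * Real.log B + 2

/-- `|y l| ≤ λ N l` -/
def InK {I : Type} (N : I → ℝ) (lam : ℝ) (y : I → ℤ) : Prop := ∀ l, |(y l : ℝ)| ≤ lam * N l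

end Pool.Agent.EMB
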