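import Pool.Agent.EMB.Stmts

set_option autoImplicit false

namespace Pool.Agent.EMB

namespace EVS_

theorem io_pos (h3 : Stmt_LTB) (I : Type) [Fintype I] [DecidableEq I] (r : ℕ)
    (φ : (I → ℤ) →ₗ[ℤ] (Fin r → ℤ)) (i : ℕ) : 1 ≤ io φ i := by
  induction i with
  | zero => exact ((h3 I r 0 φ).2.2).ge
  | succ i ih => exact ih.trans (h3 I r i φ).2.1

theorem Ck_nonneg (κ : ℕ) (hκ : 2 ≤ κ) : 0 ≤ Ck κ := by
  unfold Ck
  have h : (2 : ℝ) ≤ κ := by exact_mod_cast hκ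
  have : 0 ≤ Real.log (40 * (κ : ℝ) ^ 2) := Real.log_nonneg (by nlinarith)
  linarith

theorem exp_Ck (κ : ℕ) (hκ : 2 ≤ κ) : Real.exp (-Ck κ) = Real.exp (-1) / (40 * (κ : ℝ) ^ 2) := by
  unfold Ck
  have h : (2 : ℝ) ≤ κ := by exact_mod_cast hκ
  have hp : (0 : ℝ) < 40 * (κ : ℝ) ^ 2 := by positivity
  rw [neg_add, Real.exp_add, Real.exp_neg, Real.exp_log hp]
  field_simp

end EVS_

open EVS_ in
theorem evs_proof (h1 : Stmt_LR) (_h2 : Stmt_LTA) (h3 : Stmt_LTB) : Stmt_EVS := by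
  intro I _ _ _ r κ B n t U c φ k y hκ hn hB hU hk hprop hy h0 hbig Δ
  have hC := Ck_nonneg κ hκ
  have hκR : (2 : ℝ) ≤ κ := by exact_mod_cast hκ
  have hBpos : 0 < B := by
    have : 0 < Fintype.card I := Fintype.card_pos
    have h2 : 0 < 10 ^ 4 * Fintype.card I ^ 3 := by positivity
    omega
  have hBR : (0 : ℝ) < B := by exact_mod_cast hBpos
  have hVp : (0 : ℝ) < ∏ l, (B : ℝ) ^ k l := Finset.prod_pos (fun l _ => by positivity)
  have hnR : (0 : ℝ) < n := by exact_mod_cast hn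
  induction Δ with
  | zero =>
    intro _
    have := (h3 I r 0 φ).2.2
    rw [this]
    simp only [Nat.cast_zero, zero_mul, sub_zero, Nat.cast_one, mul_one, add_zero]
    exact h0
  | succ Δ ih =>
    intro hΔ
    push_cast at hΔ
    have hΔ' : y + Δ * Ck κ ≤ n / 8 := by nlinarith
    have IH := ih hΔ'
    set E : ℕ := (lev (U (t + Δ)) c φ (fun l => B ^ k l) Δ).card with hE
    have hio : (1 : ℝ) ≤ io φ Δ := by exact_mod_cast io_pos h3 I r φ Δ
    have hio0 : (0 : ℝ) < io φ Δ := by linarith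
    set P : ℝ := ∏ l, (B : ℝ) ^ k l with hP
    have hEpos : (0 : ℝ) < E := lt_of_lt_of_le (by positivity) IH
    have hEpos' : 0 < E := by exact_mod_cast hEpos
    have hne : (lev (U (t + Δ)) c φ (fun l => B ^ k l) Δ).Nonempty := Finset.card_pos.mp hEpos'
    have hlow : Real.exp (-((n : ℝ) / 8)) * io φ Δ * P ≤ E := by
      refine le_trans ?_ IH
      have : Real.exp (-((n : ℝ) / 8)) ≤ Real.exp (-y - Δ * Ck κ) :=
        Real.exp_le_exp.mpr (by linarith)
      gcongr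
    have hhyp : 12 * κ ^ 2 * io φ Δ * B ^ (n * Fintype.card I) ≤ E := by
      have h4 : (12 * (κ : ℝ) ^ 2 * io φ Δ * (B : ℝ) ^ (n * Fintype.card I)) ≤ E := by
        refine le_trans ?_ hlow
        have h5 : 12 * (κ : ℝ) ^ 2 * (B : ℝ) ^ (n * Fintype.card I) ≤
            Real.exp (-((n : ℝ) / 8)) * P := by
          rw [Real.exp_neg, inv_mul_eq_div, le_div_iff₀ (Real.exp_pos _)]
          exact hbig
        calc 12 * (κ : ℝ) ^ 2 * io φ Δ * (B : ℝ) ^ (n * Fintype.card I)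
            = io φ Δ * (12 * (κ : ℝ) ^ 2 * (B : ℝ) ^ (n * Fintype.card I)) := by ring
          _ ≤ io φ Δ * (Real.exp (-((n : ℝ) / 8)) * P) := by gcongr
          _ = Real.exp (-((n : ℝ) / 8)) * io φ Δ * P := by ring
      exact_mod_cast h4
    have hLR := h1 I r κ B n Δ (t + Δ) U c φ k hκ hn hB hU hk hprop hne hhyp
    rw [← hE] at hLR
    rw [show t + Δ + 1 = t + (Δ + 1) from rfl] at hLR
    set E' : ℕ := (lev (U (t + (Δ + 1))) c φ (fun l => B ^ k l) (Δ + 1)).card with hE'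
    have hlog : Real.log ((io φ Δ : ℝ) * P / (E : ℝ)) ≤ n / 8 := by
      rw [Real.log_le_iff_le_exp (by positivity)]
      rw [div_le_iff₀ hEpos]
      have := hlow
      rw [Real.exp_neg] at this
      have h6 : (Real.exp ((n : ℝ) / 8))⁻¹ * io φ Δ * P * Real.exp ((n : ℝ) / 8) ≤
          E * Real.exp ((n : ℝ) / 8) := by
        gcongr
      have h7 : (Real.exp ((n : ℝ) / 8))⁻¹ * io φ Δ * P * Real.exp ((n : ℝ) / 8) = io φ Δ * P := by
        have := (Real.exp_pos ((n : ℝ) / 8)).ne'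
        field_simp
      rw [h7] at h6
      linarith
    have hexp : Real.exp (-1) ≤
        Real.exp (-(8 * (Real.log ((io φ Δ : ℝ) * P / (E : ℝ)) / n))) := by
      apply Real.exp_le_exp.mpr
      have : Real.log ((io φ Δ : ℝ) * P / (E : ℝ)) / n ≤ 1 / 8 := by
        rw [div_le_iff₀ hnR]
        linarith
      linarith
    have h8 : (io φ (Δ + 1) : ℝ) * (E : ℝ) * Real.exp (-1) ≤ 40 * (κ : ℝ) ^ 2 * io φ Δ * E' := by
      refine le_trans ?_ hLR
      gcongr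
    have hgoal : Real.exp (-y - ((Δ + 1 : ℕ) : ℝ) * Ck κ) * io φ (Δ + 1) * P * (40 * (κ : ℝ) ^ 2 * io φ Δ)
        ≤ E' * (40 * (κ : ℝ) ^ 2 * io φ Δ) := by
      have h9 : Real.exp (-y - ((Δ + 1 : ℕ) : ℝ) * Ck κ) =
          Real.exp (-y - Δ * Ck κ) * (Real.exp (-1) / (40 * (κ : ℝ) ^ 2)) := by
        rw [← exp_Ck κ hκ, ← Real.exp_add]
        congr 1
        push_cast
        ring
      rw [h9]
      have h10 : Real.exp (-y - Δ * Ck κ) * (Real.exp (-1) / (40 * (κ : ℝ) ^ 2)) * io φ (Δ + 1) * P *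
          (40 * (κ : ℝ) ^ 2 * io φ Δ) =
          io φ (Δ + 1) * (Real.exp (-y - Δ * Ck κ) * io φ Δ * P) * Real.exp (-1) := by
        have : (κ : ℝ) ≠ 0 := by positivity
        field_simp
      rw [h10]
      calc (io φ (Δ + 1) : ℝ) * (Real.exp (-y - Δ * Ck κ) * io φ Δ * P) * Real.exp (-1)
          ≤ io φ (Δ + 1) * E * Real.exp (-1) := by gcongr
        _ ≤ 40 * (κ : ℝ) ^ 2 * io φ Δ * E' := h8
        _ = E' * (40 * (κ : ℝ) ^ 2 * io φ Δ) := by ring
    exact le_of_mul_le_mul_right hgoal (by positivity)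

end Pool.Agent.EMB
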