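import Pool.Agent.EMB.Stmts

/-!
# Squad EMB (MP_973cda_nt), module FIB (helper49): fibres of a proper map
-/

set_option autoImplicit false

namespace Pool.Agent.EMB

namespace FIB_

theorem mem_box {I : Type} [Fintype I] [DecidableEq I] (M : I → ℕ) (u : I → ℤ) :
    u ∈ box M ↔ ∀ l, 0 ≤ u l ∧ u l < (M l : ℤ) := by
  unfold box
  rw [Fintype.mem_piFinset]
  simp only [Finset.mem_Ico]

end FIB_

open FIB_ in
theorem fib_proof : Stmt_FIB := by
  intro I _ _ r i φ S hprop z
  have h2 : (0 : ℤ) < 2 ^ i := by positivity
  set F := (box (fun l => 2 ^ i * S l)).filter (fun w => φ w = z) with hF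
  have hFm : ∀ w ∈ F, (∀ l, 0 ≤ w l ∧ w l < 2 ^ i * (S l : ℤ)) ∧ φ w = z := by
    intro w hw
    rw [hF, Finset.mem_filter, mem_box] at hw
    refine ⟨fun l => ?_, hw.2⟩
    have := hw.1 l
    push_cast at this
    exact this
  rcases F.eq_empty_or_nonempty with h | ⟨w0, h0⟩
  · rw [h, Finset.card_empty]; exact Nat.zero_le _
  · unfold io
    apply Finset.card_le_card_of_injOn (fun w => fun l => (w l - w0 l) % 2 ^ i)
    · intro w hw
      obtain ⟨a1, a2⟩ := hFm w hw
      obtain ⟨b1, b2⟩ := hFm w0 h0
      show (fun l => (w l - w0 l) % 2 ^ i) ∈ ((box (fun _ : I => 2 ^ i)).filter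
        (fun w => ∀ j, (2 ^ i : ℤ) ∣ φ w j) : Set (I → ℤ))
      rw [Finset.mem_coe, Finset.mem_filter, mem_box]
      refine ⟨fun l => ⟨Int.emod_nonneg _ h2.ne', ?_⟩, fun j => ?_⟩
      · have := Int.emod_lt_of_pos (w l - w0 l) h2
        push_cast; exact this
      · have e : (fun l => (w l - w0 l) % 2 ^ i) =
            (w - w0) - (2 ^ i : ℤ) • (fun l => (w l - w0 l) / 2 ^ i) := by
          funext l
          rw [Pi.sub_apply, Pi.sub_apply, Pi.smul_apply, smul_eq_mul]
          have := Int.emod_add_mul_ediv (w l - w0 l) (2 ^ i)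
          linarith
        rw [e, map_sub, map_sub, a2, b2, sub_self, map_smul, zero_sub, Pi.neg_apply,
          Pi.smul_apply, smul_eq_mul]
        exact (dvd_neg).mpr (Dvd.intro _ rfl)
    · intro w hw w' hw' heq
      obtain ⟨a1, a2⟩ := hFm w hw
      obtain ⟨b1, b2⟩ := hFm w' hw'
      have hd : ∀ l, ∃ c, w l - w' l = 2 ^ i * c := by
        intro l
        have h3 : (w l - w0 l) % 2 ^ i = (w' l - w0 l) % 2 ^ i := congrFun heq l
        have h5 : (w l - w0 l - (w' l - w0 l)) % 2 ^ i = 0 := by
          rw [Int.sub_emod, h3, sub_self, Int.zero_emod]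
        obtain ⟨c, hc⟩ := Int.dvd_of_emod_eq_zero h5
        exact ⟨c, by linarith⟩
      choose c hc using hd
      have hc0 : c = 0 := by
        apply hprop c
        · have e : (2 ^ i : ℤ) • φ c = 0 := by
            rw [← map_smul]
            have : (2 ^ i : ℤ) • c = w - w' := by
              funext l
              rw [Pi.smul_apply, smul_eq_mul, Pi.sub_apply, hc l]
            rw [this, map_sub, a2, b2, sub_self]
          funext j
          have := congrFun e j
          rw [Pi.smul_apply, smul_eq_mul, Pi.zero_apply] at this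
          exact (mul_eq_zero.mp this).resolve_left h2.ne'
        · intro l
          have u1 := a1 l
          have u2 := b1 l
          have h6 : 2 ^ i * |c l| < 2 ^ i * (S l : ℤ) := by
            have : 2 ^ i * |c l| = |w l - w' l| := by
              rw [hc l, abs_mul, abs_of_pos h2]
            rw [this, abs_lt]
            constructor <;> linarith
          exact lt_of_mul_lt_mul_left h6 h2.le
      funext l
      have := hc l
      rw [hc0, Pi.zero_apply, mul_zero] at this
      linarith

end Pool.Agent.EMB
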