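import Pool.Agent.EMB.Stmts

set_option autoImplicit false

namespace Pool.Agent.EMB

open MeasureTheory

namespace GID_

lemma gauss1 (σ m : ℝ) (hσ : 0 < σ) :
    Integrable (fun x : ℝ => Real.exp (-((m - x) ^ 2 / σ ^ 2))) ∧
    ∫ x : ℝ, Real.exp (-((m - x) ^ 2 / σ ^ 2)) = √Real.pi * σ := by
  have h0 : (fun x : ℝ => Real.exp (-((m - x) ^ 2 / σ ^ 2)))
      = fun x : ℝ => (fun y : ℝ => Real.exp (-(1 / σ ^ 2) * y ^ 2)) (x - m) := by
    funext x
    show Real.exp _ = Real.exp _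
    congr 1
    ring
  have hb : 0 < 1 / σ ^ 2 := by positivity
  rw [h0]
  constructor
  · exact (integrable_exp_neg_mul_sq hb).comp_sub_right m
  · rw [integral_sub_right_eq_self (fun y : ℝ => Real.exp (-(1 / σ ^ 2) * y ^ 2)) m,
      integral_gaussian, div_div_eq_mul_div, div_one, Real.sqrt_mul Real.pi_pos.le,
      Real.sqrt_sq hσ.le]

lemma prod_form {I : Type} [Fintype I] (σ w w' : I → ℝ) (hσ : ∀ l, 0 < σ l) (c : I → ℝ) :
    gs σ (w - c) * gs σ (w' - c) = hs σ (fun l => (w l - w' l) / 2) *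
      ∏ l, Real.exp (-(((w l + w' l) / 2 - c l) ^ 2 / (σ l) ^ 2)) := by
  unfold gs hs
  rw [← Real.exp_sum, ← Real.exp_add, ← Real.exp_add]
  congr 1
  rw [← Finset.sum_neg_distrib, ← Finset.sum_neg_distrib, ← Finset.sum_neg_distrib,
    ← Finset.sum_add_distrib, ← Finset.sum_add_distrib]
  apply Finset.sum_congr rfl
  intro l _
  have := (hσ l).ne'
  simp only [Pi.sub_apply]
  field_simp
  ring

end GID_

theorem gid_proof : Stmt_GID := by
  intro I _ σ w w' hσ
  have h0 : (fun c : I → ℝ => gs σ (w - c) * gs σ (w' - c)) =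
      fun c : I → ℝ => hs σ (fun l => (w l - w' l) / 2) *
        ∏ l, (fun (l : I) (x : ℝ) => Real.exp (-(((w l + w' l) / 2 - x) ^ 2 / (σ l) ^ 2))) l (c l) := by
    funext c
    exact GID_.prod_form σ w w' hσ c
  rw [h0]
  constructor
  · apply Integrable.const_mul
    exact Integrable.fintype_prod
      (f := fun (l : I) (x : ℝ) => Real.exp (-(((w l + w' l) / 2 - x) ^ 2 / (σ l) ^ 2)))
      (fun l => (GID_.gauss1 (σ l) ((w l + w' l) / 2) (hσ l)).1)
  · rw [integral_const_mul, integral_fintype_prod_volume_eq_prod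
      (fun (l : I) (x : ℝ) => Real.exp (-(((w l + w' l) / 2 - x) ^ 2 / (σ l) ^ 2)))]
    congr 1
    apply Finset.prod_congr rfl
    intro l _
    exact (GID_.gauss1 (σ l) ((w l + w' l) / 2) (hσ l)).2

end Pool.Agent.EMB
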