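import Pool.Agent.EMB.Stmts

set_option autoImplicit false

namespace Pool.Agent.EMB

open MeasureTheory Set

namespace GR1_

/-- rescaled Gaussian -/
noncomputable def g (s σ m : ℝ) (t : ℝ) : ℝ := Real.exp (-((t * s - m) ^ 2 / σ ^ 2))

theorem g_pos (s σ m t : ℝ) : 0 < g s σ m t := Real.exp_pos _

theorem g_le_one (s σ m t : ℝ) : g s σ m t ≤ 1 := by
  unfold g
  rw [Real.exp_le_one_iff]
  have : 0 ≤ (t * s - m) ^ 2 / σ ^ 2 := by positivity
  linarith

theorem g_le (s σ m t u : ℝ) (h : |t * s - m| ≤ |u * s - m|) : g s σ m u ≤ g s σ m t := by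
  unfold g
  apply Real.exp_le_exp.mpr
  have h1 : (t * s - m) ^ 2 ≤ (u * s - m) ^ 2 := sq_le_sq.mpr h
  have h2 : (t * s - m) ^ 2 / σ ^ 2 ≤ (u * s - m) ^ 2 / σ ^ 2 := by
    apply div_le_div_of_nonneg_right h1 (sq_nonneg _)
  linarith

theorem g_cont (s σ m : ℝ) : Continuous (g s σ m) := by
  unfold g
  fun_prop

theorem g_form (s σ m : ℝ) (t : ℝ) : g s σ m t =
    (fun y : ℝ => Real.exp (-(1 / σ ^ 2) * (y - m) ^ 2)) (t * s) := by
  unfold g
  congr 1
  ring

theorem g_int (s σ m : ℝ) (hs : 0 < s) (hσ : 0 < σ) : Integrable (g s σ m) := by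
  have h1 : Integrable (fun y : ℝ => Real.exp (-(1 / σ ^ 2) * y ^ 2)) :=
    integrable_exp_neg_mul_sq (by positivity)
  have h2 : Integrable (fun y : ℝ => Real.exp (-(1 / σ ^ 2) * (y - m) ^ 2)) :=
    h1.comp_sub_right m
  have h3 := h2.comp_mul_right' hs.ne'
  refine h3.congr (Filter.Eventually.of_forall fun t => ?_)
  exact (g_form s σ m t).symm

theorem g_integral (s σ m : ℝ) (hs : 0 < s) (hσ : 0 < σ) :
    s * ∫ t, g s σ m t = √Real.pi * σ := by
  have h1 : (∫ t, g s σ m t) =
      ∫ t, (fun y : ℝ => Real.exp (-(1 / σ ^ 2) * (y - m) ^ 2)) (t * s) := by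
    congr 1
    funext t
    exact g_form s σ m t
  rw [h1, Measure.integral_comp_mul_right
    (fun y : ℝ => Real.exp (-(1 / σ ^ 2) * (y - m) ^ 2)) s,
    abs_of_pos (inv_pos.mpr hs), smul_eq_mul]
  have h2 : (∫ y : ℝ, (fun y : ℝ => Real.exp (-(1 / σ ^ 2) * (y - m) ^ 2)) y) =
      ∫ y : ℝ, Real.exp (-(1 / σ ^ 2) * y ^ 2) :=
    integral_sub_right_eq_self (fun y : ℝ => Real.exp (-(1 / σ ^ 2) * y ^ 2)) m
  rw [h2, integral_gaussian]
  rw [← mul_assoc, mul_inv_cancel₀ hs.ne', one_mul]
  rw [div_div_eq_mul_div, div_one, Real.sqrt_mul Real.pi_pos.le, Real.sqrt_sq hσ.le]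

end GR1_

open GR1_ in
theorem gr1_proof : Stmt_GR1 := by
  intro s σ m hs hσ
  set q0 : ℤ := ⌊m / s⌋ with hq0
  have hm1 : (q0 : ℝ) * s ≤ m := by
    have := Int.floor_le (m / s)
    rw [← hq0] at this
    rwa [le_div_iff₀ hs] at this
  have hm2 : m ≤ ((q0 : ℝ) + 1) * s := by
    have := (Int.lt_floor_add_one (m / s)).le
    rw [← hq0] at this
    rwa [div_le_iff₀ hs] at this
  set G := g s σ m with hG
  refine ⟨fun q => if q < q0 then G (q + 1) else if q = q0 then 1 else G q, ?_, ?_⟩
  · intro q x hx1 hx2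
    have hx : Real.exp (-((x - m) ^ 2 / σ ^ 2)) = G (x / s) := by
      rw [hG]
      unfold g
      rw [div_mul_cancel₀ _ hs.ne']
    rw [hx]
    dsimp only
    split_ifs with h1 h2
    · apply g_le
      have h3 : ((q : ℝ) + 1) ≤ q0 := by exact_mod_cast h1
      have h4 : ((q : ℝ) + 1) * s ≤ m :=
        (mul_le_mul_of_nonneg_right h3 hs.le).trans hm1
      rw [div_mul_cancel₀ _ hs.ne', abs_of_nonpos (by linarith), abs_of_nonpos (by linarith)]
      linarith
    · exact g_le_one _ _ _ _
    · apply g_le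
      have h3 : (q0 : ℝ) + 1 ≤ q := by
        have : q0 + 1 ≤ q := by omega
        exact_mod_cast this
      have h4 : m ≤ (q : ℝ) * s := hm2.trans (mul_le_mul_of_nonneg_right h3 hs.le)
      rw [div_mul_cancel₀ _ hs.ne', abs_of_nonneg (by linarith), abs_of_nonneg (by linarith)]
      linarith
  · intro Q
    set Mx : ℤ → ℝ := fun q => if q < q0 then G (q + 1) else if q = q0 then 1 else G q with hMx
    have hMx0 : ∀ q, 0 ≤ Mx q := by
      intro q
      simp only [hMx]
      split_ifs
      · exact (g_pos _ _ _ _).le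
      · exact zero_le_one
      · exact (g_pos _ _ _ _).le
    obtain ⟨N, hN⟩ : ∃ N : ℕ, ∀ q ∈ Q, |q - q0| ≤ N := by
      refine ⟨∑ q ∈ Q, (q - q0).natAbs, fun q hq => ?_⟩
      have h1 : (q - q0).natAbs ≤ ∑ q ∈ Q, (q - q0).natAbs :=
        Finset.single_le_sum (f := fun q => (q - q0).natAbs) (fun _ _ => Nat.zero_le _) hq
      rw [Int.abs_eq_natAbs]
      exact_mod_cast h1
    -- three pieces
    set A : Finset ℤ := (Finset.range N).image (fun i : ℕ => q0 - 1 - N + (i : ℤ)) with hA
    set B : Finset ℤ := {q0 - 1, q0, q0 + 1} with hB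
    set C : Finset ℤ := (Finset.range N).image (fun i : ℕ => q0 + 2 + (i : ℤ)) with hC
    have hsub : Q ⊆ A ∪ (B ∪ C) := by
      intro q hq
      have h1 := abs_le.mp (hN q hq)
      simp only [hA, hB, hC, Finset.mem_union, Finset.mem_image, Finset.mem_range,
        Finset.mem_insert, Finset.mem_singleton]
      rcases lt_or_ge q (q0 - 1) with h2 | h2
      · left
        refine ⟨(q - (q0 - 1 - N)).toNat, ?_, ?_⟩ <;> omega
      · rcases le_or_gt q (q0 + 1) with h3 | h3
        · right
          left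
          omega
        · right
          right
          refine ⟨(q - (q0 + 2)).toNat, ?_, ?_⟩ <;> omega
    have hun : ∀ X Y : Finset ℤ, ∑ q ∈ X ∪ Y, Mx q ≤ ∑ q ∈ X, Mx q + ∑ q ∈ Y, Mx q := by
      intro X Y
      rw [← Finset.sum_union_inter]
      have : 0 ≤ ∑ q ∈ X ∩ Y, Mx q := Finset.sum_nonneg fun q _ => hMx0 q
      linarith
    have hsum : ∑ q ∈ Q, Mx q ≤ ∑ q ∈ A, Mx q + (∑ q ∈ B, Mx q + ∑ q ∈ C, Mx q) := by
      calc ∑ q ∈ Q, Mx q ≤ ∑ q ∈ A ∪ (B ∪ C), Mx q :=
            Finset.sum_le_sum_of_subset_of_nonneg hsub fun q _ _ => hMx0 q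
        _ ≤ ∑ q ∈ A, Mx q + ∑ q ∈ B ∪ C, Mx q := hun _ _
        _ ≤ _ := add_le_add_right (hun _ _) _
    -- left
    have hmono : MonotoneOn G (Iic (q0 : ℝ)) := by
      intro t ht u hu htu
      apply g_le
      have h1 : u * s ≤ (q0 : ℝ) * s := mul_le_mul_of_nonneg_right hu hs.le
      have h2 : t * s ≤ u * s := mul_le_mul_of_nonneg_right htu hs.le
      rw [abs_of_nonpos (by linarith), abs_of_nonpos (by linarith)]
      linarith
    have hanti : AntitoneOn G (Ici ((q0 : ℝ) + 1)) := by
      intro t ht u hu htu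
      apply g_le
      have h1 : ((q0 : ℝ) + 1) * s ≤ t * s := mul_le_mul_of_nonneg_right ht hs.le
      have h2 : t * s ≤ u * s := mul_le_mul_of_nonneg_right htu hs.le
      rw [abs_of_nonneg (by linarith), abs_of_nonneg (by linarith)]
      linarith
    have hAle : ∑ q ∈ A, Mx q ≤ ∫ t in ((q0 : ℝ) - N)..(q0 : ℝ), G t := by
      rw [hA, Finset.sum_image (by
        intro i _ j _ hij
        simpa using hij)]
      have h1 := MonotoneOn.sum_le_integral (x₀ := (q0 : ℝ) - N) (a := N) (f := G)
        (hmono.mono (by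
          intro t ht
          have := ht.2
          simp only [mem_Iic]
          linarith))
      have h2 : (q0 : ℝ) - N + N = q0 := by ring
      rw [h2] at h1
      refine le_trans (le_of_eq ?_) h1
      refine Finset.sum_congr rfl fun i hi => ?_
      have hi' := Finset.mem_range.mp hi
      have h3 : q0 - 1 - (N : ℤ) + (i : ℤ) < q0 := by omega
      simp only [hMx]
      rw [if_pos h3]
      congr 1
      push_cast
      ring
    have hCle : ∑ q ∈ C, Mx q ≤ ∫ t in ((q0 : ℝ) + 1)..((q0 : ℝ) + 1 + N), G t := by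
      rw [hC, Finset.sum_image (by
        intro i _ j _ hij
        simpa using hij)]
      have h1 := AntitoneOn.sum_le_integral (x₀ := (q0 : ℝ) + 1) (a := N) (f := G)
        (hanti.mono (by
          intro t ht
          exact ht.1))
      refine le_trans (le_of_eq ?_) h1
      refine Finset.sum_congr rfl fun i hi => ?_
      have h3 : ¬ (q0 + 2 + (i : ℤ) < q0) := by omega
      have h4 : ¬ (q0 + 2 + (i : ℤ) = q0) := by omega
      simp only [hMx]
      rw [if_neg h3, if_neg h4]
      congr 1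
      push_cast
      ring
    have hB' : ∑ q ∈ B, Mx q = G q0 + 1 + G (q0 + 1) := by
      rw [hB, Finset.sum_insert (by
        simp only [Finset.mem_insert, Finset.mem_singleton]
        omega), Finset.sum_insert (by
        simp only [Finset.mem_singleton]
        omega), Finset.sum_singleton]
      have h3 : q0 - 1 < q0 := by omega
      have h4 : ¬ (q0 + 1 < q0) := by omega
      have h5 : ¬ (q0 + 1 = q0) := by omega
      simp only [hMx]
      rw [if_pos h3, if_neg h4, if_neg h5, if_neg (lt_irrefl q0)]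
      simp only [if_true]
      push_cast
      rw [show (q0 : ℝ) - 1 + 1 = q0 by ring]
      ring
    have hBle : ∑ q ∈ B, Mx q ≤ (∫ t in (q0 : ℝ)..((q0 : ℝ) + 1), G t) + 2 := by
      rw [hB']
      have h1 : min (G q0) (G (q0 + 1)) ≤ ∫ t in (q0 : ℝ)..((q0 : ℝ) + 1), G t := by
        have h2 : (∫ _t in (q0 : ℝ)..((q0 : ℝ) + 1), min (G q0) (G (q0 + 1))) ≤
            ∫ t in (q0 : ℝ)..((q0 : ℝ) + 1), G t := by
          apply intervalIntegral.integral_mono_on (by linarith)
          · exact intervalIntegrable_const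
          · exact (g_cont s σ m).intervalIntegrable _ _
          · intro t ht
            have ht1 : (q0 : ℝ) * s ≤ t * s := mul_le_mul_of_nonneg_right ht.1 hs.le
            have ht2 : t * s ≤ ((q0 : ℝ) + 1) * s := mul_le_mul_of_nonneg_right ht.2 hs.le
            rcases le_total (t * s) m with h | h
            · refine (min_le_left _ _).trans (g_le _ _ _ _ _ ?_)
              rw [abs_of_nonpos (by linarith), abs_of_nonpos (by linarith)]
              linarith
            · refine (min_le_right _ _).trans (g_le _ _ _ _ _ ?_)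
              rw [abs_of_nonneg (by linarith), abs_of_nonneg (by linarith)]
              linarith
        rw [intervalIntegral.integral_const] at h2
        simpa using h2
      have h3 : G q0 + G (q0 + 1) = min (G q0) (G (q0 + 1)) + max (G q0) (G (q0 + 1)) :=
        (min_add_max _ _).symm
      have h4 : max (G q0) (G (q0 + 1)) ≤ 1 := max_le (g_le_one _ _ _ _) (g_le_one _ _ _ _)
      linarith
    have hGi : Integrable G := g_int s σ m hs hσ
    have hii : ∀ a b : ℝ, IntervalIntegrable G volume a b := fun a b => hGi.intervalIntegrable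
    have hadd : (∫ t in ((q0 : ℝ) - N)..(q0 : ℝ), G t) + ((∫ t in (q0 : ℝ)..((q0 : ℝ) + 1), G t) +
        ∫ t in ((q0 : ℝ) + 1)..((q0 : ℝ) + 1 + N), G t) =
        ∫ t in ((q0 : ℝ) - N)..((q0 : ℝ) + 1 + N), G t := by
      rw [intervalIntegral.integral_add_adjacent_intervals (hii _ _) (hii _ _),
        intervalIntegral.integral_add_adjacent_intervals (hii _ _) (hii _ _)]
    have hle : (∫ t in ((q0 : ℝ) - N)..((q0 : ℝ) + 1 + N), G t) ≤ ∫ t, G t := by
      rw [intervalIntegral.integral_of_le (by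
        have : (0 : ℝ) ≤ N := Nat.cast_nonneg N
        linarith)]
      exact setIntegral_le_integral hGi (Filter.Eventually.of_forall fun t => (g_pos _ _ _ _).le)
    have htot : ∑ q ∈ Q, Mx q ≤ (∫ t, G t) + 2 := by linarith
    calc s * ∑ q ∈ Q, Mx q ≤ s * ((∫ t, G t) + 2) := mul_le_mul_of_nonneg_left htot hs.le
      _ = √Real.pi * σ + 2 * s := by
        rw [mul_add, g_integral s σ m hs hσ]
        ring

end Pool.Agent.EMB
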