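import Pool.Agent.EMB.Stmts

/-!
GRD: grid sum in dimension `D`.
-/

set_option autoImplicit false

namespace Pool.Agent.EMB

open MeasureTheory

namespace GRD_

lemma cell {a b : ℤ} (hb : 0 < b) :
    (((a / b : ℤ) : ℝ)) * (b : ℝ) ≤ (a : ℝ) ∧ (a : ℝ) ≤ (((a / b : ℤ) : ℝ) + 1) * (b : ℝ) := by
  have h1 : a / b * b ≤ a := Int.ediv_mul_le a hb.ne'
  have h2 : a < (a / b + 1) * b := Int.lt_ediv_add_one_mul_self a hb
  constructor
  · exact_mod_cast h1
  · exact_mod_cast h2.le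

lemma const_le {D B : ℕ} (hD : 1 ≤ D) (hB : 10 ^ 4 * D ^ 3 ≤ B) :
    (1 + 2 / (√Real.pi * √(B : ℝ))) ^ D ≤ 11 / 10 := by
  have hD' : (1 : ℝ) ≤ D := by exact_mod_cast hD
  have h1 : 100 * (D : ℝ) ≤ √(B : ℝ) := by
    apply Real.le_sqrt_of_sq_le
    have h2 : (10 ^ 4 * (D : ℝ) ^ 3) ≤ B := by exact_mod_cast hB
    have h3 : (D : ℝ) ^ 2 ≤ (D : ℝ) ^ 3 := by
      have : 0 ≤ (D : ℝ) ^ 2 := by positivity
      nlinarith
    nlinarith
  have h4 : 17 / 10 ≤ √Real.pi := by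
    apply Real.le_sqrt_of_sq_le
    have := Real.pi_gt_three
    norm_num
    linarith
  have h5 : (0 : ℝ) < √Real.pi * √(B : ℝ) := by
    have : (0 : ℝ) < √(B : ℝ) := by linarith
    have : (0 : ℝ) < √Real.pi := by linarith
    positivity
  have h6 : 170 * (D : ℝ) ≤ √Real.pi * √(B : ℝ) := by
    calc 170 * (D : ℝ) = 17 / 10 * (100 * D) := by ring
      _ ≤ √Real.pi * √(B : ℝ) := by gcongr
  have h7 : 2 / (√Real.pi * √(B : ℝ)) ≤ 2 / (170 * D) := by
    apply div_le_div_of_nonneg_left (by norm_num) (by positivity) h6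
  have h8 : 1 + 2 / (√Real.pi * √(B : ℝ)) ≤ Real.exp (2 / (170 * D)) := by
    have := Real.add_one_le_exp (2 / (170 * (D : ℝ)))
    linarith
  have h9 : 0 ≤ 1 + 2 / (√Real.pi * √(B : ℝ)) := by positivity
  calc (1 + 2 / (√Real.pi * √(B : ℝ))) ^ D ≤ (Real.exp (2 / (170 * D))) ^ D :=
        pow_le_pow_left₀ h9 h8 D
    _ = Real.exp (2 / 170) := by
        rw [← Real.exp_nat_mul]
        congr 1
        field_simp
    _ ≤ 11 / 10 := by
        have h10 := Real.one_sub_le_exp_neg (2 / 170)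
        rw [Real.exp_neg] at h10
        have h11 := Real.exp_pos (2 / 170)
        rw [le_inv_comm₀ (by norm_num) h11] at h10
        refine h10.trans ?_
        norm_num

end GRD_

open GRD_ in
theorem grd_proof (h1 : Stmt_GR1) : Stmt_GRD := by
  intro I _ _ _ B s E A m hB hs1 hA
  have hD : 1 ≤ Fintype.card I := Fintype.card_pos
  have hA0 : 0 ≤ A := le_trans (Nat.cast_nonneg _) (hA (fun _ => 0))
  have hB0 : (0 : ℝ) < √(B : ℝ) := by
    apply Real.sqrt_pos.2
    have h2 : 0 < B := by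
      have : 0 < 10 ^ 4 * Fintype.card I ^ 3 := by positivity
      omega
    exact_mod_cast h2
  have hs0 : ∀ l, (0 : ℝ) < s l := fun l => by exact_mod_cast hs1 l
  have hex := fun l => h1 (s l) (√(B : ℝ) * s l) (m l) (hs0 l) (mul_pos hB0 (hs0 l))
  choose Mx hMx1 hMx2 using hex
  have hM0 : ∀ l q, 0 ≤ Mx l q := by
    intro l q
    have h3 := hMx1 l q (q * s l) le_rfl (by nlinarith [hs0 l])
    exact (Real.exp_pos _).le.trans h3
  set f : (I → ℤ) → (I → ℤ) := fun w l => w l / (s l : ℤ) with hf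
  have step1 : ∑ w ∈ E, hs (fun l => √(B : ℝ) * s l) (fun l => (w l : ℝ) - m l) ≤
      ∑ w ∈ E, ∏ l, Mx l (f w l) := by
    refine Finset.sum_le_sum fun w _ => ?_
    unfold Pool.Agent.EMB.hs
    rw [← Finset.sum_neg_distrib, Real.exp_sum]
    refine Finset.prod_le_prod (fun l _ => (Real.exp_pos _).le) (fun l _ => ?_)
    have h4 := cell (a := w l) (b := (s l : ℤ)) (by exact_mod_cast hs1 l)
    refine hMx1 l (w l / (s l : ℤ)) (w l) ?_ ?_
    · exact_mod_cast h4.1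
    · exact_mod_cast h4.2
  have step2 : ∑ w ∈ E, ∏ l, Mx l (f w l) ≤ A * ∑ q ∈ E.image f, ∏ l, Mx l (q l) := by
    rw [Finset.sum_comp (fun q : I → ℤ => ∏ l, Mx l (q l)) f, Finset.mul_sum]
    refine Finset.sum_le_sum fun q _ => ?_
    rw [nsmul_eq_mul]
    refine mul_le_mul_of_nonneg_right ?_ (Finset.prod_nonneg fun l _ => hM0 l _)
    refine le_trans (le_of_eq ?_) (hA q)
    congr 2
    ext w
    rw [Finset.mem_filter, Finset.mem_filter]
    rw [hf, funext_iff]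
  have step3 : ∑ q ∈ E.image f, ∏ l, Mx l (q l) ≤
      ∏ l, ∑ x ∈ E.image (fun w => f w l), Mx l x := by
    rw [Finset.prod_univ_sum]
    refine Finset.sum_le_sum_of_subset_of_nonneg ?_
      (fun q _ _ => Finset.prod_nonneg fun l _ => hM0 l _)
    intro q hq
    rw [Finset.mem_image] at hq
    obtain ⟨w, hw, rfl⟩ := hq
    rw [Fintype.mem_piFinset]
    intro l
    rw [Finset.mem_image]
    exact ⟨w, hw, rfl⟩
  have step4 : (∏ l, (s l : ℝ)) * ∏ l, ∑ x ∈ E.image (fun w => f w l), Mx l x ≤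
      11 / 10 * ∏ l, (√Real.pi * (√(B : ℝ) * s l)) := by
    rw [← Finset.prod_mul_distrib]
    have h5 : ∏ l, ((s l : ℝ) * ∑ x ∈ E.image (fun w => f w l), Mx l x) ≤
        ∏ l, ((1 + 2 / (√Real.pi * √(B : ℝ))) * (√Real.pi * (√(B : ℝ) * s l))) := by
      refine Finset.prod_le_prod (fun l _ => ?_) (fun l _ => ?_)
      · exact mul_nonneg (hs0 l).le (Finset.sum_nonneg fun x _ => hM0 l x)
      · refine (hMx2 l _).trans (le_of_eq ?_)
        have hpi : √Real.pi ≠ 0 := (Real.sqrt_pos.2 Real.pi_pos).ne'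
        have := hB0.ne'
        field_simp
    refine h5.trans ?_
    rw [Finset.prod_mul_distrib, Finset.prod_const, Finset.card_univ]
    have h6 : 0 ≤ ∏ l, (√Real.pi * (√(B : ℝ) * s l)) :=
      Finset.prod_nonneg fun l _ => by positivity
    exact mul_le_mul_of_nonneg_right (const_le hD hB) h6
  have hP0 : 0 ≤ ∏ l, (s l : ℝ) := Finset.prod_nonneg fun l _ => (hs0 l).le
  calc (∏ l, (s l : ℝ)) * ∑ w ∈ E, hs (fun l => √(B : ℝ) * s l) (fun l => (w l : ℝ) - m l) ≤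
      (∏ l, (s l : ℝ)) * (A * ∏ l, ∑ x ∈ E.image (fun w => f w l), Mx l x) := by
        refine mul_le_mul_of_nonneg_left ?_ hP0
        refine (step1.trans step2).trans ?_
        exact mul_le_mul_of_nonneg_left step3 hA0
    _ = A * ((∏ l, (s l : ℝ)) * ∏ l, ∑ x ∈ E.image (fun w => f w l), Mx l x) := by ring
    _ ≤ A * (11 / 10 * ∏ l, (√Real.pi * (√(B : ℝ) * s l))) :=
        mul_le_mul_of_nonneg_left step4 hA0
    _ = 11 / 10 * A * ∏ l, (√Real.pi * (√(B : ℝ) * s l)) := by ring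

end Pool.Agent.EMB
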