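import Pool.Agent.EMB.Stmts

/-!
# Module IOT: `2 ^ (i ρ) ≤ ι_i`
-/

set_option autoImplicit false

namespace Pool.Agent.EMB

namespace IOT_

theorem mem_kerT {r d : ℕ} (φ : (Fin d → ℤ) →ₗ[ℤ] (Fin r → ℤ)) (Th : Finset (Fin d))
    (u : Fin d → ℤ) : u ∈ kerT φ Th ↔ φ u = 0 ∧ ∀ l, l ∉ Th → u l = 0 := by
  unfold kerT
  rw [Submodule.mem_inf, LinearMap.mem_ker]
  exact Iff.rfl

theorem main (r d i : ℕ) (φ : (Fin d → ℤ) →ₗ[ℤ] (Fin r → ℤ)) (Th : Finset (Fin d)) :
    2 ^ (i * rhoT φ Th) ≤ ioT φ Th i := by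
  classical
  let b : Module.Basis (Fin (Module.finrank ℤ (kerT φ Th))) ℤ (kerT φ Th) :=
    Module.finBasis ℤ (kerT φ Th)
  have hN : (0 : ℤ) < 2 ^ i := by positivity
  let s : (Fin (rhoT φ Th) → Fin (2 ^ i)) → kerT φ Th :=
    fun a => ∑ j, ((a j : ℕ) : ℤ) • b j
  let f : (Fin (rhoT φ Th) → Fin (2 ^ i)) → (Fin d → ℤ) :=
    fun a l => ((s a : kerT φ Th) : Fin d → ℤ) l % 2 ^ i
  have hf : ∀ a, ∃ u : Fin d → ℤ, f a = ((s a : kerT φ Th) : Fin d → ℤ) - (2 ^ i : ℤ) • u := by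
    intro a
    refine ⟨fun l => ((s a : kerT φ Th) : Fin d → ℤ) l / 2 ^ i, ?_⟩
    funext l
    have h := Int.mul_ediv_add_emod (((s a : kerT φ Th) : Fin d → ℤ) l) (2 ^ i)
    simp only [Pi.sub_apply, Pi.smul_apply, smul_eq_mul, f]
    linarith
  have hcard : Fintype.card (Fin (rhoT φ Th) → Fin (2 ^ i)) = 2 ^ (i * rhoT φ Th) := by
    rw [Fintype.card_fun, Fintype.card_fin, Fintype.card_fin, ← pow_mul]
  rw [← hcard, ← Finset.card_univ]
  unfold ioT
  refine Finset.card_le_card_of_injOn f ?_ ?_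
  · intro a _
    rw [Finset.mem_coe, Finset.mem_filter]
    constructor
    · unfold box
      rw [Fintype.mem_piFinset]
      intro l
      rw [Finset.mem_Ico]
      refine ⟨Int.emod_nonneg _ hN.ne', ?_⟩
      have h := Int.emod_lt_of_pos (((s a : kerT φ Th) : Fin d → ℤ) l) hN
      push_cast
      exact h
    · have hk := (mem_kerT φ Th _).1 (s a).2
      unfold LatT
      constructor
      · intro l hl
        have h0 : f a l = 0 := by
          show ((s a : kerT φ Th) : Fin d → ℤ) l % 2 ^ i = 0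
          rw [hk.2 l hl]
          exact Int.zero_emod _
        rw [h0]
        exact dvd_zero _
      · intro j
        obtain ⟨u, hu⟩ := hf a
        rw [hu, map_sub, hk.1, map_smul, zero_sub]
        simp only [Pi.neg_apply, Pi.smul_apply, smul_eq_mul]
        exact (dvd_mul_right _ _).neg_right
  · intro a _ a' _ haa
    obtain ⟨u, hu⟩ := hf a
    obtain ⟨u', hu'⟩ := hf a'
    have haa' : f a = f a' := haa
    have h1 : ((s a - s a' : kerT φ Th) : Fin d → ℤ) = (2 ^ i : ℤ) • (u - u') := by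
      have h2 : ((s a : kerT φ Th) : Fin d → ℤ) - (2 ^ i : ℤ) • u =
          ((s a' : kerT φ Th) : Fin d → ℤ) - (2 ^ i : ℤ) • u' := by rw [← hu, ← hu', haa']
      rw [AddSubgroupClass.coe_sub, smul_sub]
      linear_combination h2
    have hv : (u - u') ∈ kerT φ Th := by
      have hk := (mem_kerT φ Th _).1 (s a - s a').2
      rw [mem_kerT]
      constructor
      · have h2 := hk.1
        rw [h1, map_smul] at h2
        exact (smul_eq_zero.1 h2).resolve_left hN.ne'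
      · intro l hl
        have h2 := hk.2 l hl
        rw [h1, Pi.smul_apply, smul_eq_mul] at h2
        exact (mul_eq_zero.1 h2).resolve_left hN.ne'
    have h3 : s a - s a' = (2 ^ i : ℤ) • (⟨u - u', hv⟩ : kerT φ Th) := Subtype.ext h1
    have h4 : ∀ j, (((a j : ℕ) : ℤ)) - ((a' j : ℕ) : ℤ) = 2 ^ i * b.repr ⟨u - u', hv⟩ j := by
      intro j
      have h5 := congrArg (fun x => b.repr x j) h3
      have h6 : ∀ a : Fin (rhoT φ Th) → Fin (2 ^ i), b.repr (s a) j = ((a j : ℕ) : ℤ) := by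
        intro a
        exact b.repr_sum_self (fun j => ((a j : ℕ) : ℤ)) ▸ rfl
      rw [map_sub, map_smul] at h5
      have h5' : b.repr (s a) j - b.repr (s a') j = 2 ^ i * b.repr ⟨u - u', hv⟩ j := h5
      rw [h6, h6] at h5'
      exact h5'
    funext j
    apply Fin.ext
    have h7 := h4 j
    have h8 : ((a j : ℕ) : ℤ) < 2 ^ i := by exact_mod_cast (a j).2
    have h9 : ((a' j : ℕ) : ℤ) < 2 ^ i := by exact_mod_cast (a' j).2
    have h10 : (0 : ℤ) ≤ ((a j : ℕ) : ℤ) := Int.natCast_nonneg _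
    have h11 : (0 : ℤ) ≤ ((a' j : ℕ) : ℤ) := Int.natCast_nonneg _
    have h12 : ((a j : ℕ) : ℤ) - ((a' j : ℕ) : ℤ) = 0 := by
      apply Int.eq_zero_of_abs_lt_dvd (m := 2 ^ i) ⟨_, h7⟩
      rw [abs_lt]
      constructor <;> linarith
    have h13 : ((a j : ℕ) : ℤ) = ((a' j : ℕ) : ℤ) := by linarith
    exact_mod_cast h13

end IOT_

theorem iot_proof : Stmt_IOT := by
  intro r d i φ Th
  exact IOT_.main r d i φ Th

end Pool.Agent.EMB
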