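import Pool.Agent.EMB.Stmts

/-!
# Squad EMB, module LTB: the number of classes mod 2, and monotonicity of `io`
-/

set_option autoImplicit false

namespace Pool.Agent.EMB

namespace LTB_

variable {I : Type} [Fintype I] [DecidableEq I] {r : ℕ}

theorem mem_box' (m : ℕ) (w : I → ℤ) :
    w ∈ box (fun _ : I => m) ↔ ∀ l, 0 ≤ w l ∧ w l < (m : ℤ) := by
  rw [box, Fintype.mem_piFinset]
  simp only [Finset.mem_Ico]

omit [Fintype I] [DecidableEq I] in
theorem phi_emod (φ : (I → ℤ) →ₗ[ℤ] (Fin r → ℤ)) (n : ℤ) (w : I → ℤ) (j : Fin r) :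
    φ w j = φ (fun l => w l % n) j + n * φ (fun l => w l / n) j := by
  have h1 : w = (fun l => w l % n) + n • (fun l => w l / n) := by
    funext l
    have := Int.emod_add_mul_ediv (w l) n
    simp only [Pi.add_apply, Pi.smul_apply, smul_eq_mul]
    linarith
  have h2 := congrArg (fun u => φ u j) h1
  simp only [map_add, map_smul, Pi.add_apply, Pi.smul_apply, smul_eq_mul] at h2
  exact h2

/-- the big set -/
noncomputable def big (φ : (I → ℤ) →ₗ[ℤ] (Fin r → ℤ)) (i : ℕ) : Finset (I → ℤ) :=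
  (box (fun _ : I => 2 ^ (i + 1))).filter (fun w => ∀ j, (2 ^ i : ℤ) ∣ φ w j)

theorem big_card (φ : (I → ℤ) →ₗ[ℤ] (Fin r → ℤ)) (i : ℕ) :
    (big φ i).card ≤ 2 ^ Fintype.card I * io φ i := by
  classical
  have h2i : (0 : ℤ) < 2 ^ i := by positivity
  set S : Finset ((I → ℤ) × (I → ℤ)) :=
    (box (fun _ : I => 2)) ×ˢ
      ((box (fun _ : I => 2 ^ i)).filter (fun w => ∀ j, (2 ^ i : ℤ) ∣ φ w j)) with hS
  have hcS : S.card = 2 ^ Fintype.card I * io φ i := by
    rw [hS, Finset.card_product, io]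
    congr 1
    rw [box, Fintype.card_piFinset]
    simp
  rw [← hcS]
  refine Finset.card_le_card_of_injOn (fun w => (fun l => w l / 2 ^ i, fun l => w l % 2 ^ i))
    ?_ ?_
  · intro w hw
    rw [Finset.mem_coe, big, Finset.mem_filter, mem_box'] at hw
    rw [Finset.mem_coe, hS, Finset.mem_product, Finset.mem_filter, mem_box', mem_box']
    refine ⟨?_, ?_, ?_⟩
    · intro l
      obtain ⟨h1, h2⟩ := hw.1 l
      refine ⟨Int.ediv_nonneg h1 h2i.le, ?_⟩
      refine Int.ediv_lt_of_lt_mul h2i ?_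
      push_cast at h2 ⊢
      rw [pow_succ] at h2
      linarith
    · intro l
      refine ⟨Int.emod_nonneg _ h2i.ne', ?_⟩
      have := Int.emod_lt_of_pos (w l) h2i
      push_cast
      exact this
    · intro j
      have h1 := phi_emod φ (2 ^ i) w j
      have h2 := hw.2 j
      change (2 ^ i : ℤ) ∣ φ (fun l => w l % 2 ^ i) j
      have h3 : φ (fun l => w l % 2 ^ i) j = φ w j - 2 ^ i * φ (fun l => w l / 2 ^ i) j := by
        rw [h1]; ring
      rw [h3]
      exact dvd_sub h2 (dvd_mul_right _ _)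
  · intro w _ w' _ h
    have h1 : (fun l => w l / 2 ^ i) = (fun l => w' l / 2 ^ i) := congrArg Prod.fst h
    have h2 : (fun l => w l % 2 ^ i) = (fun l => w' l % 2 ^ i) := congrArg Prod.snd h
    funext l
    have e1 : w l / 2 ^ i = w' l / 2 ^ i := congrFun h1 l
    have e2 : w l % 2 ^ i = w' l % 2 ^ i := congrFun h2 l
    have a1 := Int.emod_add_mul_ediv (w l) (2 ^ i)
    have a2 := Int.emod_add_mul_ediv (w' l) (2 ^ i)
    rw [← a1, ← a2, e1, e2]

theorem cls_card (φ : (I → ℤ) →ₗ[ℤ] (Fin r → ℤ)) (i : ℕ) (w₀ : I → ℤ)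
    (hw₀ : ∀ j, (2 ^ i : ℤ) ∣ φ w₀ j) :
    io φ (i + 1) ≤ ((big φ i).filter
      (fun w => (fun j => φ w j / 2 ^ i % 2) = (fun j => φ w₀ j / 2 ^ i % 2))).card := by
  classical
  have h2i : (0 : ℤ) < 2 ^ i := by positivity
  have h2i' : (0 : ℤ) < 2 ^ (i + 1) := by positivity
  rw [io]
  refine Finset.card_le_card_of_injOn (fun w => fun l => (w l + w₀ l) % 2 ^ (i + 1)) ?_ ?_
  · intro w hw
    rw [Finset.mem_coe, Finset.mem_filter, mem_box'] at hw
    have key : ∀ j, ∃ m : ℤ, φ (fun l => (w l + w₀ l) % 2 ^ (i + 1)) j =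
        2 ^ i * (φ w₀ j / 2 ^ i + 2 * m) := by
      intro j
      have h1 := phi_emod φ (2 ^ (i + 1)) (w + w₀) j
      rw [map_add, Pi.add_apply] at h1
      obtain ⟨a, ha⟩ := hw.2 j
      have hb := Int.mul_ediv_cancel' (hw₀ j)
      refine ⟨a - φ (fun l => (w + w₀) l / 2 ^ (i + 1)) j, ?_⟩
      have h3 : φ (fun l => (w l + w₀ l) % 2 ^ (i + 1)) j =
          φ w j + φ w₀ j - 2 ^ (i + 1) * φ (fun l => (w + w₀) l / 2 ^ (i + 1)) j := by
        rw [h1]
        simp only [Pi.add_apply]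
        ring
      rw [h3, ha]
      have e : (2 : ℤ) ^ (i + 1) = 2 ^ i * 2 := pow_succ _ _
      rw [e]
      nth_rewrite 1 [← hb]
      ring
    rw [Finset.mem_coe, Finset.mem_filter, big, Finset.mem_filter, mem_box']
    refine ⟨⟨?_, ?_⟩, ?_⟩
    · intro l
      refine ⟨Int.emod_nonneg _ h2i'.ne', ?_⟩
      have := Int.emod_lt_of_pos (w l + w₀ l) h2i'
      push_cast
      exact this
    · intro j
      obtain ⟨m, hm⟩ := key j
      change (2 ^ i : ℤ) ∣ φ (fun l => (w l + w₀ l) % 2 ^ (i + 1)) j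
      rw [hm]
      exact dvd_mul_right _ _
    · funext j
      obtain ⟨m, hm⟩ := key j
      change φ (fun l => (w l + w₀ l) % 2 ^ (i + 1)) j / 2 ^ i % 2 = φ w₀ j / 2 ^ i % 2
      rw [hm, Int.mul_ediv_cancel_left _ h2i.ne']
      omega
  · intro w hw w' hw' h
    rw [Finset.mem_coe, Finset.mem_filter, mem_box'] at hw hw'
    funext l
    have h1 : (w l + w₀ l) % 2 ^ (i + 1) = (w' l + w₀ l) % 2 ^ (i + 1) := congrFun h l
    have h2 := Int.ModEq.add_right_cancel' (w₀ l) (h1 : (w l + w₀ l) ≡ (w' l + w₀ l) [ZMOD 2 ^ (i + 1)])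
    have b1 := hw.1 l
    have b2 := hw'.1 l
    push_cast at b1 b2
    have e1 : w l % 2 ^ (i + 1) = w l := Int.emod_eq_of_lt b1.1 b1.2
    have e2 : w' l % 2 ^ (i + 1) = w' l := Int.emod_eq_of_lt b2.1 b2.2
    have h3 : w l % 2 ^ (i + 1) = w' l % 2 ^ (i + 1) := h2
    rw [e1, e2] at h3
    exact h3

end LTB_

open LTB_ in
theorem ltb_proof : Stmt_LTB := by
  intro I _ _ r i φ
  classical
  refine ⟨?_, ?_, ?_⟩
  · intro E hE
    set C := E.image (fun w => fun j => φ w j / 2 ^ i % 2) with hC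
    set S := (big φ i).filter (fun w => (fun j => φ w j / 2 ^ i % 2) ∈ C) with hS
    have h1 : io φ (i + 1) * C.card ≤ S.card := by
      refine Finset.mul_card_image_le_card_of_maps_to
        (f := fun w => fun j => φ w j / 2 ^ i % 2) ?_ _ ?_
      · intro w hw
        rw [hS, Finset.mem_filter] at hw
        exact hw.2
      · intro c hc
        have hc' := hc
        rw [hC, Finset.mem_image] at hc
        obtain ⟨w₀, hw₀, rfl⟩ := hc
        refine le_trans (cls_card φ i w₀ (hE w₀ hw₀)) (Finset.card_le_card ?_)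
        intro w hw
        rw [Finset.mem_filter] at hw
        rw [Finset.mem_filter, hS, Finset.mem_filter]
        refine ⟨⟨hw.1, ?_⟩, hw.2⟩
        rw [hw.2]
        exact hc'
    calc C.card * io φ (i + 1) = io φ (i + 1) * C.card := mul_comm _ _
      _ ≤ S.card := h1
      _ ≤ (big φ i).card := Finset.card_filter_le _ _
      _ ≤ 2 ^ Fintype.card I * io φ i := big_card φ i
  · rw [io, io]
    refine Finset.card_le_card_of_injOn (fun w => (2 : ℤ) • w) ?_ ?_
    · intro w hw
      rw [Finset.mem_coe, Finset.mem_filter, mem_box'] at hw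
      rw [Finset.mem_coe, Finset.mem_filter, mem_box']
      refine ⟨?_, ?_⟩
      · intro l
        obtain ⟨h1, h2⟩ := hw.1 l
        push_cast at h2 ⊢
        simp only [Pi.smul_apply, smul_eq_mul]
        rw [pow_succ]
        constructor <;> linarith
      · intro j
        change (2 ^ (i + 1) : ℤ) ∣ φ ((2 : ℤ) • w) j
        rw [map_smul, Pi.smul_apply, smul_eq_mul, pow_succ, mul_comm]
        exact mul_dvd_mul_left 2 (hw.2 j)
    · intro w _ w' _ h
      funext l
      have h1 := congrFun h l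
      simp only [Pi.smul_apply, smul_eq_mul] at h1
      linarith
  · rw [io]
    have h1 : (box (fun _ : I => 2 ^ 0)).filter (fun w => ∀ j, (2 ^ 0 : ℤ) ∣ φ w j) =
        box (fun _ : I => 2 ^ 0) := by
      refine Finset.filter_true_of_mem ?_
      intro w _ j
      rw [pow_zero]
      exact one_dvd _
    rw [h1, box, Fintype.card_piFinset]
    simp

end Pool.Agent.EMB
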