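import Pool.Agent.EMB.Stmts

/-!
# EMB, module PSI: the lattice `Λ_i` and the map `φ / 2^i`
-/

set_option autoImplicit false

namespace Pool.Agent.EMB

namespace PSI_

variable {r d : ℕ}

/-- the lattice -/
def Lam (i : ℕ) (φ : (Fin d → ℤ) →ₗ[ℤ] (Fin r → ℤ)) (Th : Finset (Fin d)) :
    AddSubgroup (Fin d → ℤ) where
  carrier := {w | LatT φ Th i w}
  add_mem' := by
    intro a b ha hb
    refine ⟨fun l hl => ?_, fun j => ?_⟩
    · rw [Pi.add_apply]
      exact dvd_add (ha.1 l hl) (hb.1 l hl)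
    · rw [map_add, Pi.add_apply]
      exact dvd_add (ha.2 j) (hb.2 j)
  zero_mem' := by
    refine ⟨fun l _ => ?_, fun j => ?_⟩
    · rw [Pi.zero_apply]
      exact dvd_zero _
    · rw [map_zero, Pi.zero_apply]
      exact dvd_zero _
  neg_mem' := by
    intro a ha
    refine ⟨fun l hl => ?_, fun j => ?_⟩
    · rw [Pi.neg_apply]
      exact (dvd_neg).2 (ha.1 l hl)
    · rw [map_neg, Pi.neg_apply]
      exact (dvd_neg).2 (ha.2 j)

theorem mem_Lam (i : ℕ) (φ : (Fin d → ℤ) →ₗ[ℤ] (Fin r → ℤ)) (Th : Finset (Fin d))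
    (w : Fin d → ℤ) : w ∈ Lam i φ Th ↔ LatT φ Th i w := Iff.rfl

/-- the map `φ / 2^i` -/
def psi (i : ℕ) (φ : (Fin d → ℤ) →ₗ[ℤ] (Fin r → ℤ)) (Th : Finset (Fin d)) :
    Lam i φ Th →+ (Fin r → ℤ) where
  toFun w := fun j => φ (w : Fin d → ℤ) j / 2 ^ i
  map_zero' := by
    funext j
    simp
  map_add' := by
    intro a b
    funext j
    have ha : (2 ^ i : ℤ) ∣ φ (a : Fin d → ℤ) j := a.2.2 j
    rw [AddSubgroup.coe_add, map_add, Pi.add_apply, Pi.add_apply, Int.add_ediv_of_dvd_left ha]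

theorem psi_apply (i : ℕ) (φ : (Fin d → ℤ) →ₗ[ℤ] (Fin r → ℤ)) (Th : Finset (Fin d))
    (w : Lam i φ Th) (j : Fin r) : 2 ^ i * psi i φ Th w j = φ (w : Fin d → ℤ) j :=
  Int.mul_ediv_cancel' (w.2.2 j)

/-- multiplication by `2^i` -/
def mul (i : ℕ) (φ : (Fin d → ℤ) →ₗ[ℤ] (Fin r → ℤ)) (Th : Finset (Fin d)) :
    (Fin d → ℤ) →+ Lam i φ Th where
  toFun u := ⟨(2 ^ i : ℤ) • u, by
    refine ⟨fun l _ => ?_, fun j => ?_⟩
    · rw [Pi.smul_apply, smul_eq_mul]
      exact dvd_mul_right _ _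
    · rw [map_smul, Pi.smul_apply, smul_eq_mul]
      exact dvd_mul_right _ _⟩
  map_zero' := by
    apply Subtype.ext
    exact smul_zero _
  map_add' := by
    intro a b
    apply Subtype.ext
    exact smul_add _ _ _

theorem mul_inj (i : ℕ) (φ : (Fin d → ℤ) →ₗ[ℤ] (Fin r → ℤ)) (Th : Finset (Fin d)) :
    Function.Injective (mul i φ Th) := by
  intro a b hab
  have h1 : (2 ^ i : ℤ) • a = (2 ^ i : ℤ) • b := congrArg Subtype.val hab
  funext l
  have h2 := congrFun h1 l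
  rw [Pi.smul_apply, Pi.smul_apply, smul_eq_mul, smul_eq_mul] at h2
  exact mul_left_cancel₀ (by positivity) h2

theorem rank_Lam (i : ℕ) (φ : (Fin d → ℤ) →ₗ[ℤ] (Fin r → ℤ)) (Th : Finset (Fin d)) :
    Module.finrank ℤ (Lam i φ Th) = d := by
  have hinj : Function.Injective ((Lam i φ Th).subtype.toIntLinearMap) :=
    (Lam i φ Th).subtype_injective
  haveI hfin : Module.Finite ℤ (Lam i φ Th) := Module.Finite.of_injective _ hinj
  have h1 := LinearMap.finrank_le_finrank_of_injective hinj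
  have h2 := LinearMap.finrank_le_finrank_of_injective
    (f := (mul i φ Th).toIntLinearMap) (mul_inj i φ Th)
  rw [Module.finrank_fin_fun] at h1 h2
  exact le_antisymm h1 h2

end PSI_

open PSI_ in
theorem psi_proof : Stmt_PSI := fun _ _ i φ Th =>
  ⟨Lam i φ Th, psi i φ Th, mem_Lam i φ Th, psi_apply i φ Th, rank_Lam i φ Th⟩

end Pool.Agent.EMB
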