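import Pool.Agent.EMB.Stmts

/-!
# EMB, module RA1: short kernel vectors, and points of `Λ_i` in boxes
-/

set_option autoImplicit false

namespace Pool.Agent.EMB

namespace RA1_

lemma mod_eq {d : ℕ} (i : ℕ) (w : Fin d → ℤ) :
    (fun l => w l % (2 ^ i : ℤ)) = w - (2 ^ i : ℤ) • (fun l => w l / (2 ^ i : ℤ)) := by
  funext l
  rw [Pi.sub_apply, Pi.smul_apply, smul_eq_mul, Int.emod_def]

lemma mod_mem {r d : ℕ} (φ : (Fin d → ℤ) →ₗ[ℤ] (Fin r → ℤ)) (Th : Finset (Fin d)) (i : ℕ)
    (w : Fin d → ℤ) (hw : LatT φ Th i w) :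
    (fun l => w l % (2 ^ i : ℤ)) ∈ (box (fun _ : Fin d => 2 ^ i)).filter (LatT φ Th i) := by
  have h2 : (0 : ℤ) < 2 ^ i := by positivity
  rw [Finset.mem_filter]
  refine ⟨?_, ?_⟩
  · unfold box
    rw [Fintype.mem_piFinset]
    intro l
    rw [Finset.mem_Ico]
    refine ⟨Int.emod_nonneg _ h2.ne', ?_⟩
    push_cast
    exact Int.emod_lt_of_pos _ h2
  · unfold LatT at hw ⊢
    refine ⟨?_, ?_⟩
    · intro l hl
      have h := Int.emod_eq_zero_of_dvd (hw.1 l hl)
      show (2 ^ i : ℤ) ∣ w l % (2 ^ i : ℤ)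
      rw [h]
      exact dvd_zero _
    · intro j
      rw [mod_eq, map_sub, map_smul, Pi.sub_apply, Pi.smul_apply, smul_eq_mul]
      exact dvd_sub (hw.2 j) (dvd_mul_right _ _)

end RA1_

open RA1_ in
theorem ra1_proof : Stmt_RA1 := by
  intro r d i P Th X hX
  have h2 : (0 : ℤ) < 2 ^ i := by positivity
  refine ⟨?_, ?_⟩
  · intro hk
    unfold ioT
    apply Finset.card_le_card_of_injOn (fun w => fun l => w l % (2 ^ i : ℤ))
    · intro w hw
      exact mod_mem P.φ Th i w (hX w hw)
    · intro w hw w' hw' heq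
      have hw1 := hk w hw
      have hw2 := hk w' hw'
      have heq' : ∀ l, w l % (2 ^ i : ℤ) = w' l % (2 ^ i : ℤ) := fun l => congrFun heq l
      -- the difference is `2^i u`
      have hd : ∀ l, ∃ u : ℤ, w l - w' l = 2 ^ i * u := by
        intro l
        have h := Int.emod_emod_of_dvd (w l) (dvd_refl (2 ^ i : ℤ))
        exact Int.ModEq.dvd (heq' l).symm
      choose u hu using hd
      have hw_eq : w - w' = (2 ^ i : ℤ) • u := by
        funext l
        rw [Pi.sub_apply, Pi.smul_apply, smul_eq_mul, hu l]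
      have hφ : (2 ^ i : ℤ) • P.φ u = 0 := by
        rw [← map_smul, ← hw_eq, map_sub, hw1.1, hw2.1, sub_zero]
      have hφ0 : P.φ u = 0 := by
        rcases smul_eq_zero.mp hφ with h | h
        · exact absurd h h2.ne'
        · exact h
      have hu0 : u = 0 := by
        apply P.proper u hφ0
        intro l
        have h1 := hw1.2 l
        have h3 := hw2.2 l
        have hM : (0 : ℤ) ≤ (P.M l : ℤ) := Int.natCast_nonneg _
        have h4 : |(2 ^ i : ℤ) * u l| ≤ 2 ^ i * (8 * (P.M l : ℤ)) := by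
          rw [← hu l]
          calc |w l - w' l| ≤ |w l| + |w' l| := abs_sub _ _
            _ ≤ 2 ^ i * (P.M l : ℤ) + 2 ^ i * (P.M l : ℤ) := add_le_add h1 h3
            _ ≤ 2 ^ i * (8 * (P.M l : ℤ)) := by nlinarith [mul_nonneg h2.le hM]
        rw [abs_mul, abs_of_pos h2] at h4
        exact le_of_mul_le_mul_left h4 h2
      have : w - w' = 0 := by rw [hw_eq, hu0, smul_zero]
      exact sub_eq_zero.mp this
  · intro hk
    have hsub : X.card ≤ ((Fintype.piFinset (fun l => Finset.Icc (-(2 * (P.M l : ℤ)))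
        (2 * (P.M l : ℤ)))) ×ˢ ((box (fun _ : Fin d => 2 ^ i)).filter (LatT P.φ Th i))).card := by
      apply Finset.card_le_card_of_injOn
        (fun w => ((fun l => w l / (2 ^ i : ℤ)), (fun l => w l % (2 ^ i : ℤ))))
      · intro w hw
        rw [Finset.mem_coe, Finset.mem_product]
        refine ⟨?_, mod_mem P.φ Th i w (hX w hw)⟩
        rw [Fintype.mem_piFinset]
        intro l
        have h := abs_le.mp (hk w hw l)
        show w l / (2 ^ i : ℤ) ∈ Finset.Icc (-(2 * (P.M l : ℤ))) (2 * (P.M l : ℤ))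
        rw [Finset.mem_Icc]
        refine ⟨?_, ?_⟩
        · rw [Int.le_ediv_iff_mul_le h2]
          nlinarith [h.1]
        · have h5 : w l / (2 ^ i : ℤ) < 2 * (P.M l : ℤ) + 1 := by
            rw [Int.ediv_lt_iff_lt_mul h2]
            nlinarith [h.2]
          linarith
      · intro w _ w' _ heq
        rw [Prod.mk.injEq] at heq
        funext l
        have h1 : w l / (2 ^ i : ℤ) = w' l / (2 ^ i : ℤ) := congrFun heq.1 l
        have h3 : w l % (2 ^ i : ℤ) = w' l % (2 ^ i : ℤ) := congrFun heq.2 l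
        have e1 := Int.mul_ediv_add_emod (w l) (2 ^ i : ℤ)
        have e2 := Int.mul_ediv_add_emod (w' l) (2 ^ i : ℤ)
        rw [← e1, ← e2, h1, h3]
    refine hsub.trans ?_
    rw [Finset.card_product, Fintype.card_piFinset]
    have hprod : ∏ l, (Finset.Icc (-(2 * (P.M l : ℤ))) (2 * (P.M l : ℤ))).card ≤
        5 ^ d * P.size := by
      have : (5 : ℕ) ^ d * P.size = ∏ l : Fin d, (5 * P.M l) := by
        rw [Finset.prod_mul_distrib, Finset.prod_const, Finset.card_univ, Fintype.card_fin]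
        rfl
      rw [this]
      apply Finset.prod_le_prod'
      intro l _
      rw [Int.card_Icc]
      have := P.pos l
      omega
    calc (∏ l, (Finset.Icc (-(2 * (P.M l : ℤ))) (2 * (P.M l : ℤ))).card) *
          ((box (fun _ : Fin d => 2 ^ i)).filter (LatT P.φ Th i)).card
        ≤ (5 ^ d * P.size) * ioT P.φ Th i := Nat.mul_le_mul_right _ hprod
      _ = 5 ^ d * ioT P.φ Th i * P.size := by ring

end Pool.Agent.EMB
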