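import Pool.Agent.EMB.Stmts

/-!
# RA2: exact number of points of the refined lattice in the box (helper76)
-/

set_option autoImplicit false

namespace Pool.Agent.EMB

namespace RA2_

theorem lat_add {r d : ℕ} (φ : (Fin d → ℤ) →ₗ[ℤ] (Fin r → ℤ)) (Th : Finset (Fin d)) (i : ℕ)
    (z q : Fin d → ℤ) : LatT φ Th i (z + (2 ^ i : ℤ) • q) ↔ LatT φ Th i z := by
  have h1 : ∀ l, (2 ^ i : ℤ) ∣ (z + (2 ^ i : ℤ) • q) l ↔ (2 ^ i : ℤ) ∣ z l := by
    intro l
    show (2 ^ i : ℤ) ∣ z l + 2 ^ i * q l ↔ _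
    exact (dvd_add_left (dvd_mul_right _ _))
  have h2 : ∀ j, (2 ^ i : ℤ) ∣ φ (z + (2 ^ i : ℤ) • q) j ↔ (2 ^ i : ℤ) ∣ φ z j := by
    intro j
    rw [map_add, map_smul]
    show (2 ^ i : ℤ) ∣ φ z j + 2 ^ i * φ q j ↔ _
    exact (dvd_add_left (dvd_mul_right _ _))
  unfold LatT
  constructor
  · rintro ⟨ha, hb⟩
    exact ⟨fun l hl => (h1 l).mp (ha l hl), fun j => (h2 j).mp (hb j)⟩
  · rintro ⟨ha, hb⟩
    exact ⟨fun l hl => (h1 l).mpr (ha l hl), fun j => (h2 j).mpr (hb j)⟩

end RA2_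

open RA2_ in
theorem ra2_proof : Stmt_RA2 := by
  intro r d i P Th
  have h2 : (0 : ℤ) < 2 ^ i := by positivity
  have hcard : (box P.M).card = P.size := by
    unfold box Gap.size
    rw [Fintype.card_piFinset]
    refine Finset.prod_congr rfl fun l _ => ?_
    rw [Int.card_Ico]
    omega
  unfold ioT
  rw [← hcard, ← Finset.card_product]
  refine Finset.card_nbij' (fun x => (fun l => x l % 2 ^ i, fun l => x l / 2 ^ i))
    (fun y => y.1 + (2 ^ i : ℤ) • y.2) ?_ ?_ ?_ ?_
  · intro x hx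
    rw [Finset.mem_coe, Finset.mem_filter] at hx
    obtain ⟨hx, hg⟩ := hx
    unfold box at hx
    rw [Fintype.mem_piFinset] at hx
    rw [Finset.mem_coe, Finset.mem_product, Finset.mem_filter]
    refine ⟨⟨?_, ?_⟩, ?_⟩
    · unfold box
      rw [Fintype.mem_piFinset]
      intro l
      rw [Finset.mem_Ico]
      refine ⟨Int.emod_nonneg _ h2.ne', ?_⟩
      push_cast
      exact Int.emod_lt_of_pos _ h2
    · have h3 : (fun l => x l % 2 ^ i) + (2 ^ i : ℤ) • (fun l => x l / 2 ^ i) = x := by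
        funext l
        exact Int.emod_add_mul_ediv _ _
      have h4 := lat_add P.φ Th i (fun l => x l % 2 ^ i) (fun l => x l / 2 ^ i)
      rw [h3] at h4
      exact h4.mp hg
    · unfold box
      rw [Fintype.mem_piFinset]
      intro l
      have h5 := Finset.mem_Ico.mp (hx l)
      push_cast at h5
      rw [Finset.mem_Ico]
      exact ⟨Int.ediv_nonneg h5.1 h2.le,
        (Int.ediv_lt_iff_lt_mul h2).mpr (by linarith [h5.2])⟩
  · rintro ⟨z, q⟩ hy
    rw [Finset.mem_coe, Finset.mem_product, Finset.mem_filter] at hy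
    obtain ⟨⟨hz, hg⟩, hq⟩ := hy
    unfold box at hz hq
    rw [Fintype.mem_piFinset] at hz hq
    rw [Finset.mem_coe, Finset.mem_filter]
    unfold box
    rw [Fintype.mem_piFinset]
    refine ⟨fun l => ?_, (lat_add P.φ Th i z q).mpr hg⟩
    have h5 := Finset.mem_Ico.mp (hz l)
    have h6 := Finset.mem_Ico.mp (hq l)
    push_cast at h5
    rw [Finset.mem_Ico]
    push_cast
    show 0 ≤ z l + 2 ^ i * q l ∧ z l + 2 ^ i * q l < 2 ^ i * (P.M l : ℤ)
    constructor
    · have := mul_nonneg h2.le h6.1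
      linarith [h5.1]
    · have h7 : q l + 1 ≤ P.M l := h6.2
      nlinarith [h5.2, mul_le_mul_of_nonneg_left h7 h2.le]
  · intro x _
    funext l
    exact Int.emod_add_mul_ediv _ _
  · rintro ⟨z, q⟩ hy
    rw [Finset.mem_coe, Finset.mem_product, Finset.mem_filter] at hy
    obtain ⟨⟨hz, -⟩, -⟩ := hy
    unfold box at hz
    rw [Fintype.mem_piFinset] at hz
    apply Prod.ext
    · funext l
      have h5 := Finset.mem_Ico.mp (hz l)
      push_cast at h5
      show (z l + 2 ^ i * q l) % 2 ^ i = z l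
      rw [Int.add_mul_emod_self_left]
      exact Int.emod_eq_of_lt h5.1 h5.2
    · funext l
      have h5 := Finset.mem_Ico.mp (hz l)
      push_cast at h5
      show (z l + 2 ^ i * q l) / 2 ^ i = q l
      rw [Int.add_mul_ediv_left _ _ h2.ne', Int.ediv_eq_zero_of_lt h5.1 h5.2, zero_add]

end Pool.Agent.EMB
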