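import Pool.Agent.EMB.Stmts

/-!
# Squad EMB, module RA3: points of `Λ_i ∩ K(2)` with image in a translate of `T`
-/

set_option autoImplicit false

namespace Pool.Agent.EMB

namespace RA3_

theorem lat_res {r d : ℕ} (φ : (Fin d → ℤ) →ₗ[ℤ] (Fin r → ℤ)) (Th : Finset (Fin d)) (i : ℕ)
    (w : Fin d → ℤ) (hw : LatT φ Th i w) : LatT φ Th i (fun l => w l % 2 ^ i) := by
  constructor
  · intro l hl
    have := hw.1 l hl
    have h0 : w l % 2 ^ i = 0 := Int.emod_eq_zero_of_dvd this
    change (2 ^ i : ℤ) ∣ w l % 2 ^ i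
    rw [h0]
    exact dvd_zero _
  · intro j
    have h1 : (fun l => w l % 2 ^ i) = w - (2 ^ i : ℤ) • (fun l => w l / 2 ^ i) := by
      funext l
      have := Int.emod_add_mul_ediv (w l) (2 ^ i)
      simp only [Pi.sub_apply, Pi.smul_apply, smul_eq_mul]
      linarith
    rw [h1, map_sub, map_smul]
    simp only [Pi.sub_apply, Pi.smul_apply, smul_eq_mul]
    exact dvd_sub (hw.2 j) (dvd_mul_right _ _)

theorem decomp {d : ℕ} (i : ℕ) (M : Fin d → ℕ) (w : Fin d → ℤ) :
    w = (fun l => w l % 2 ^ i) + (2 ^ i : ℤ) • ((fun l => (M l : ℤ) * (w l / 2 ^ i / (M l : ℤ))) +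
      (fun l => w l / 2 ^ i % (M l : ℤ))) := by
  funext l
  have h1 := Int.emod_add_mul_ediv (w l) (2 ^ i)
  have h2 := Int.emod_add_mul_ediv (w l / 2 ^ i) (M l : ℤ)
  simp only [Pi.add_apply, Pi.smul_apply, smul_eq_mul]
  have h3 : (M l : ℤ) * (w l / 2 ^ i / (M l : ℤ)) + w l / 2 ^ i % (M l : ℤ) = w l / 2 ^ i := by
    linarith
  rw [h3]
  exact h1.symm

theorem quo_range (m : ℕ) (hm : 1 ≤ m) (i : ℕ) (w : ℤ) (hw : |w| ≤ 2 * (2 ^ i * (m : ℤ))) :
    -2 ≤ w / 2 ^ i / (m : ℤ) ∧ w / 2 ^ i / (m : ℤ) ≤ 2 := by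
  have h2 : (0 : ℤ) < 2 ^ i := by positivity
  have hm' : (0 : ℤ) < (m : ℤ) := by exact_mod_cast hm
  rw [abs_le] at hw
  constructor
  · rw [Int.le_ediv_iff_mul_le hm', Int.le_ediv_iff_mul_le h2]
    nlinarith [hw.1]
  · have h3 : w / 2 ^ i ≤ 2 * (m : ℤ) := by
      have : w ≤ (2 * (m : ℤ)) * 2 ^ i := by nlinarith [hw.2]
      calc w / 2 ^ i ≤ (2 * (m : ℤ)) * 2 ^ i / 2 ^ i := Int.ediv_le_ediv h2 this
        _ = 2 * (m : ℤ) := Int.mul_ediv_cancel _ h2.ne'
    calc w / 2 ^ i / (m : ℤ) ≤ 2 * (m : ℤ) / (m : ℤ) := Int.ediv_le_ediv hm' h3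
      _ = 2 := Int.mul_ediv_cancel _ hm'.ne'

end RA3_

open RA3_ in
theorem ra3_proof : Stmt_RA3 := by
  intro r d i Q P Th T a X hQ hX
  classical
  set S : Finset ((Fin d → ℤ) × (Fin d → ℤ)) :=
    (Fintype.piFinset (fun _ : Fin d => Finset.Icc (-2 : ℤ) 2)) ×ˢ
      ((box (fun _ : Fin d => 2 ^ i)).filter (LatT P.φ Th i)) with hS
  have hcS : S.card = 5 ^ d * ioT P.φ Th i := by
    rw [hS, Finset.card_product, Fintype.card_piFinset]
    simp [ioT]
  let f : (Fin d → ℤ) → (Fin d → ℤ) × (Fin d → ℤ) :=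
    fun w => (fun l => w l / 2 ^ i / (P.M l : ℤ), fun l => w l % 2 ^ i)
  have h2i : (0 : ℤ) < 2 ^ i := by positivity
  have hf : ∀ w ∈ X, f w ∈ S := by
    intro w hw
    obtain ⟨h1, h2, -⟩ := hX w hw
    rw [hS, Finset.mem_product]
    constructor
    · rw [Fintype.mem_piFinset]
      intro l
      rw [Finset.mem_Icc]
      exact quo_range (P.M l) (P.pos l) i (w l) (h2 l)
    · rw [Finset.mem_filter]
      refine ⟨?_, lat_res P.φ Th i w h1⟩
      rw [box, Fintype.mem_piFinset]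
      intro l
      rw [Finset.mem_Ico]
      refine ⟨Int.emod_nonneg _ h2i.ne', ?_⟩
      have := Int.emod_lt_of_pos (w l) h2i
      push_cast
      exact this
  have hfib : ∀ s ∈ S, (X.filter (fun w => f w = s)).card ≤ Q := by
    intro s hs
    set x' : Fin r → ℤ := P.c - (fun j => P.φ s.2 j / 2 ^ i) -
      P.φ (fun l => (P.M l : ℤ) * s.1 l) + a with hx'
    refine le_trans ?_ (hQ x')
    refine Finset.card_le_card_of_injOn
      (fun w => P.c + P.φ (fun l => w l / 2 ^ i % (P.M l : ℤ))) ?_ ?_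
    · intro w hw
      rw [Finset.mem_coe, Finset.mem_filter] at hw
      obtain ⟨hwX, hws⟩ := hw
      obtain ⟨h1, h2, z, hz, hzT⟩ := hX w hwX
      rw [Finset.mem_coe, Finset.mem_filter]
      constructor
      · rw [Gap.pts, Finset.mem_image]
        refine ⟨fun l => w l / 2 ^ i % (P.M l : ℤ), ?_, rfl⟩
        rw [box, Fintype.mem_piFinset]
        intro l
        rw [Finset.mem_Ico]
        have hm' : (0 : ℤ) < (P.M l : ℤ) := by exact_mod_cast P.pos l
        exact ⟨Int.emod_nonneg _ hm'.ne', Int.emod_lt_of_pos _ hm'⟩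
      · have hkey : P.c + P.φ (fun l => w l / 2 ^ i % (P.M l : ℤ)) - x' = z - a := by
          have hd := congrArg P.φ (decomp i P.M w)
          rw [map_add, map_smul, map_add] at hd
          have hs1 : s.1 = fun l => w l / 2 ^ i / (P.M l : ℤ) := by rw [← hws]
          have hs2 : s.2 = fun l => w l % 2 ^ i := by rw [← hws]
          have hlat := (lat_res P.φ Th i w h1).2
          funext j
          have hdj := congrFun hd j
          simp only [Pi.add_apply, Pi.smul_apply, smul_eq_mul] at hdj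
          rw [← hz j] at hdj
          obtain ⟨m, hm⟩ := hlat j
          rw [hm] at hdj
          rw [hx', hs1, hs2]
          simp only [Pi.add_apply, Pi.sub_apply]
          rw [hm, Int.mul_ediv_cancel_left _ h2i.ne']
          have : (2 : ℤ) ^ i * z j = 2 ^ i * (m + (P.φ (fun l => (P.M l : ℤ) *
              (w l / 2 ^ i / (P.M l : ℤ))) j + P.φ (fun l => w l / 2 ^ i % (P.M l : ℤ)) j)) := by
            rw [hdj]; ring
          have hz' := mul_left_cancel₀ h2i.ne' this
          rw [hz']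
          ring
        rw [hkey]
        exact hzT
    · intro w hw w' hw' heq
      rw [Finset.mem_coe, Finset.mem_filter] at hw hw'
      simp only at heq
      have heq' := add_left_cancel heq
      have h0 : P.φ ((fun l => w l / 2 ^ i % (P.M l : ℤ)) -
          (fun l => w' l / 2 ^ i % (P.M l : ℤ))) = 0 := by
        rw [map_sub, heq', sub_self]
      have h1 := P.proper _ h0 (by
        intro l
        have hm' : (0 : ℤ) < (P.M l : ℤ) := by exact_mod_cast P.pos l
        have a1 := Int.emod_nonneg (w l / 2 ^ i) hm'.ne'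
        have a2 := Int.emod_lt_of_pos (w l / 2 ^ i) hm'
        have a3 := Int.emod_nonneg (w' l / 2 ^ i) hm'.ne'
        have a4 := Int.emod_lt_of_pos (w' l / 2 ^ i) hm'
        simp only [Pi.sub_apply]
        rw [abs_le]
        constructor <;> linarith)
      have h2 : f w = f w' := by rw [hw.2, hw'.2]
      have h3 : (fun l => w l / 2 ^ i / (P.M l : ℤ)) = (fun l => w' l / 2 ^ i / (P.M l : ℤ)) :=
        congrArg Prod.fst h2
      have h4 : (fun l => w l % 2 ^ i) = (fun l => w' l % 2 ^ i) := congrArg Prod.snd h2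
      have h5 : (fun l => w l / 2 ^ i % (P.M l : ℤ)) = (fun l => w' l / 2 ^ i % (P.M l : ℤ)) :=
        sub_eq_zero.mp h1
      rw [decomp i P.M w, decomp i P.M w']
      have h3' : (fun l => (P.M l : ℤ) * (w l / 2 ^ i / (P.M l : ℤ))) =
          (fun l => (P.M l : ℤ) * (w' l / 2 ^ i / (P.M l : ℤ))) := by
        funext l
        rw [congrFun h3 l]
      rw [h3', h4, h5]
  calc X.card ≤ Q * S.card := Finset.card_le_mul_card_image_of_maps_to hf Q hfib
    _ = 5 ^ d * ioT P.φ Th i * Q := by rw [hcS]; ring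

end Pool.Agent.EMB
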