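import Pool.Agent.EMB.Stmts

/-!
# Squad EMB (MP_973cda_nt), module RC1 (helper49): the round before rounding the sides
-/

set_option autoImplicit false

namespace Pool.Agent.EMB

namespace RC1_

section

variable {r D : ℕ} (P : Gap r D) (Th : Finset (Fin D)) (i : ℕ)

/-- `φ w / 2^i` -/
def psi (w : Fin D → ℤ) : Fin r → ℤ := fun j => P.φ w j / 2 ^ i

/-- the short vectors of the kernel -/
noncomputable def Kr : Finset (Fin D → ℤ) :=
  (Fintype.piFinset (fun l => Finset.Icc (-(2 ^ i * (P.M l : ℤ))) (2 ^ i * (P.M l : ℤ)))).filter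
    (fun w => LatT P.φ Th i w ∧ P.φ w = 0)

theorem mem_Kr (w : Fin D → ℤ) : w ∈ Kr P Th i ↔
    (∀ l, |w l| ≤ 2 ^ i * (P.M l : ℤ)) ∧ LatT P.φ Th i w ∧ P.φ w = 0 := by
  unfold Kr
  rw [Finset.mem_filter, Fintype.mem_piFinset]
  constructor
  · rintro ⟨h, h2⟩
    refine ⟨fun l => ?_, h2⟩
    have := Finset.mem_Icc.mp (h l)
    rw [abs_le]; exact this
  · rintro ⟨h, h2⟩
    refine ⟨fun l => ?_, h2⟩
    rw [Finset.mem_Icc]
    exact abs_le.mp (h l)

theorem psi_spec {w : Fin D → ℤ} (hw : LatT P.φ Th i w) (j : Fin r) :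
    2 ^ i * psi P i w j = P.φ w j := by
  unfold psi
  exact Int.mul_ediv_cancel' (hw.2 j)

theorem psi_unique {w : Fin D → ℤ} (v : Fin r → ℤ) (h : ∀ j, 2 ^ i * v j = P.φ w j) :
    psi P i w = v := by
  funext j
  unfold psi
  rw [← h j]
  exact Int.mul_ediv_cancel_left _ (by positivity)

theorem lat_zero : LatT P.φ Th i 0 := by
  refine ⟨fun l _ => by simp, fun j => by simp⟩

theorem lat_add {w k : Fin D → ℤ} (hw : LatT P.φ Th i w) (hk : LatT P.φ Th i k) :
    LatT P.φ Th i (w + k) := by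
  refine ⟨fun l hl => ?_, fun j => ?_⟩
  · rw [Pi.add_apply]; exact dvd_add (hw.1 l hl) (hk.1 l hl)
  · rw [map_add, Pi.add_apply]; exact dvd_add (hw.2 j) (hk.2 j)

theorem lat_sub {w k : Fin D → ℤ} (hw : LatT P.φ Th i w) (hk : LatT P.φ Th i k) :
    LatT P.φ Th i (w - k) := by
  refine ⟨fun l hl => ?_, fun j => ?_⟩
  · rw [Pi.sub_apply]; exact dvd_sub (hw.1 l hl) (hk.1 l hl)
  · rw [map_sub, Pi.sub_apply]; exact dvd_sub (hw.2 j) (hk.2 j)

theorem zero_mem_Kr : (0 : Fin D → ℤ) ∈ Kr P Th i := by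
  rw [mem_Kr]
  refine ⟨fun l => ?_, lat_zero P Th i, map_zero _⟩
  rw [Pi.zero_apply, abs_zero]
  positivity

theorem kap_pos : 0 < (Kr P Th i).card := Finset.card_pos.mpr ⟨0, zero_mem_Kr P Th i⟩

/-- fibres of `psi` on the box have at most `kap` elements -/
theorem fibre (X : Finset (Fin D → ℤ)) (v : Fin r → ℤ)
    (hX : ∀ w ∈ X, LatT P.φ Th i w ∧ (∀ l, 0 ≤ w l ∧ w l < 2 ^ i * (P.M l : ℤ)) ∧
      psi P i w = v) : X.card ≤ (Kr P Th i).card := by
  rcases X.eq_empty_or_nonempty with h | ⟨w0, h0⟩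
  · rw [h, Finset.card_empty]; exact Nat.zero_le _
  · apply Finset.card_le_card_of_injOn (fun w => w - w0)
    · intro w hw
      obtain ⟨a1, a2, a3⟩ := hX w hw
      obtain ⟨b1, b2, b3⟩ := hX w0 h0
      show w - w0 ∈ (Kr P Th i : Set (Fin D → ℤ))
      rw [Finset.mem_coe, mem_Kr]
      refine ⟨fun l => ?_, lat_sub P Th i a1 b1, ?_⟩
      · rw [Pi.sub_apply, abs_le]
        have u1 := a2 l
        have u2 := b2 l
        constructor <;> linarith
      · rw [map_sub, sub_eq_zero]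
        funext j
        rw [← psi_spec P Th i a1 j, ← psi_spec P Th i b1 j, a3, b3]
    · intro a _ b _ hab
      exact sub_left_injective hab

end

section

variable {r D d : ℕ} (P : Gap r D) (Th : Finset (Fin D)) (i : ℕ)
  (φ' : (Fin d → ℤ) →ₗ[ℤ] (Fin r → ℤ)) (Lf : (Fin d → ℤ) → (Fin D → ℤ))

/-- lifts plus kernel vectors -/
noncomputable def XX (Y : Finset (Fin d → ℤ)) : Finset (Fin D → ℤ) :=
  (Y ×ˢ Kr P Th i).image (fun p => Lf p.1 + p.2)

theorem psi_lift {u : Fin d → ℤ} {k : Fin D → ℤ} (h1 : LatT P.φ Th i (Lf u))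
    (h2 : psi P i (Lf u) = φ' u) (hk : k ∈ Kr P Th i) (j : Fin r) :
    2 ^ i * φ' u j = P.φ (Lf u + k) j := by
  rw [mem_Kr] at hk
  rw [map_add, hk.2.2, add_zero, ← psi_spec P Th i h1 j, h2]

theorem XX_card (Y : Finset (Fin d → ℤ))
    (hinj : ∀ u ∈ Y, ∀ u' ∈ Y, φ' u = φ' u' → u = u')
    (hL : ∀ u ∈ Y, LatT P.φ Th i (Lf u) ∧ (∀ l, |Lf u l| ≤ 2 ^ i * (P.M l : ℤ)) ∧
      psi P i (Lf u) = φ' u) :
    (XX P Th i Lf Y).card = Y.card * (Kr P Th i).card := by
  unfold XX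
  rw [Finset.card_image_of_injOn, Finset.card_product]
  rintro ⟨u, k⟩ h ⟨u', k'⟩ h' heq
  rw [Finset.mem_coe, Finset.mem_product] at h h'
  obtain ⟨hu, hk⟩ := h
  obtain ⟨hu', hk'⟩ := h'
  simp only at hu hk hu' hk' heq
  have e1 : φ' u = φ' u' := by
    funext j
    have p1 := psi_lift P Th i φ' Lf (hL u hu).1 (hL u hu).2.2 hk j
    have p2 := psi_lift P Th i φ' Lf (hL u' hu').1 (hL u' hu').2.2 hk' j
    rw [heq, ← p2] at p1
    exact mul_left_cancel₀ (by positivity) p1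
  have e2 := hinj u hu u' hu' e1
  rw [e2] at heq
  have e3 : k = k' := add_left_cancel heq
  rw [e2, e3]

theorem XX_mem (Y : Finset (Fin d → ℤ))
    (hL : ∀ u ∈ Y, LatT P.φ Th i (Lf u) ∧ (∀ l, |Lf u l| ≤ 2 ^ i * (P.M l : ℤ)) ∧
      psi P i (Lf u) = φ' u) :
    ∀ w ∈ XX P Th i Lf Y, LatT P.φ Th i w ∧ (∀ l, |w l| ≤ 2 * (2 ^ i * (P.M l : ℤ))) ∧
      ∃ u ∈ Y, ∀ j, 2 ^ i * φ' u j = P.φ w j := by
  intro w hw
  unfold XX at hw
  rw [Finset.mem_image] at hw
  obtain ⟨⟨u, k⟩, hp, rfl⟩ := hw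
  rw [Finset.mem_product] at hp
  obtain ⟨hu, hk⟩ := hp
  simp only at hu hk ⊢
  have hk' := (mem_Kr P Th i k).mp hk
  obtain ⟨l1, l2, l3⟩ := hL u hu
  refine ⟨lat_add P Th i l1 hk'.2.1, fun l => ?_, u, hu, fun j =>
    psi_lift P Th i φ' Lf l1 l3 hk j⟩
  rw [Pi.add_apply]
  have := abs_add_le (Lf u l) (k l)
  have := l2 l
  have := hk'.1 l
  linarith

end

theorem mem_box {I : Type} [Fintype I] [DecidableEq I] (M : I → ℕ) (u : I → ℤ) :
    u ∈ box M ↔ ∀ l, 0 ≤ u l ∧ u l < (M l : ℤ) := by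
  unfold box
  rw [Fintype.mem_piFinset]
  simp only [Finset.mem_Ico]

theorem card_box {I : Type} [Fintype I] [DecidableEq I] (M : I → ℕ) :
    (box M).card = ∏ l, M l := by
  unfold box
  rw [Fintype.card_piFinset]
  simp

theorem size_pos {r d : ℕ} (P : Gap r d) : 0 < P.size := by
  unfold Gap.size
  exact Finset.prod_pos (fun l _ => P.pos l)

/-- final arithmetic -/
theorem numer (D : ℕ) (io sz sz' kap ED θ q : ℝ) (hio : 0 < io) (hsz : 0 < sz) (hsz' : 0 < sz')
    (hkap : 0 < kap) (hED : 0 < ED) (hθ : 0 < θ) (hq : 0 < q) (nW nU : ℝ)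
    (hW : θ * io * sz ≤ nW) (hU : nW ≤ ED * (kap * nU))
    (ha : sz' * kap ≤ 5 ^ D * io * sz) (hkio : kap ≤ io)
    (hc : io * sz ≤ ED * (kap * sz')) (q' : ℝ) (hq' : q' = 5 ^ D * io * q * sz / (kap * sz')) :
    0 < q' ∧ θ / (5 ^ D * ED) * sz' ≤ nU ∧ sz / ED ≤ sz' ∧ q' ≤ 10 ^ D * ED * q ∧
      (io * sz ≤ ED * sz' → io * sz / (q * (10 ^ D * ED ^ 2)) ≤ sz' / q') := by
  have h5 : (0 : ℝ) < 5 ^ D := by positivity
  have h510 : (5 : ℝ) ^ D ≤ 10 ^ D := pow_le_pow_left₀ (by norm_num) (by norm_num) D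
  have hq'pos : 0 < q' := by rw [hq']; positivity
  refine ⟨hq'pos, ?_, ?_, ?_, ?_⟩
  · rw [div_mul_eq_mul_div, div_le_iff₀ (by positivity)]
    -- θ sz' ≤ nU 5^D ED
    have h1 : θ * (sz' * kap) ≤ θ * (5 ^ D * io * sz) := mul_le_mul_of_nonneg_left ha hθ.le
    have h2 : θ * (5 ^ D * io * sz) ≤ 5 ^ D * (ED * (kap * nU)) := by
      calc θ * (5 ^ D * io * sz) = 5 ^ D * (θ * io * sz) := by ring
        _ ≤ 5 ^ D * (ED * (kap * nU)) := mul_le_mul_of_nonneg_left (hW.trans hU) h5.le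
    have h3 : (θ * sz') * kap ≤ (nU * (5 ^ D * ED)) * kap := by
      calc (θ * sz') * kap = θ * (sz' * kap) := by ring
        _ ≤ 5 ^ D * (ED * (kap * nU)) := h1.trans h2
        _ = _ := by ring
    exact le_of_mul_le_mul_right h3 hkap
  · rw [div_le_iff₀ hED]
    have h1 : io * sz ≤ io * (sz' * ED) := by
      calc io * sz ≤ ED * (kap * sz') := hc
        _ = kap * (sz' * ED) := by ring
        _ ≤ io * (sz' * ED) := mul_le_mul_of_nonneg_right hkio (by positivity)
    exact le_of_mul_le_mul_left h1 hio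
  · rw [hq', div_le_iff₀ (by positivity)]
    calc 5 ^ D * io * q * sz = 5 ^ D * q * (io * sz) := by ring
      _ ≤ 5 ^ D * q * (ED * (kap * sz')) := mul_le_mul_of_nonneg_left hc (by positivity)
      _ ≤ 10 ^ D * q * (ED * (kap * sz')) := by
          apply mul_le_mul_of_nonneg_right _ (by positivity)
          exact mul_le_mul_of_nonneg_right h510 hq.le
      _ = _ := by ring
  · intro hd
    rw [div_le_div_iff₀ (by positivity) hq'pos]
    -- io sz q' ≤ sz' (q (10^D ED^2))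
    have hkey : io * sz * (io * sz) ≤ ED ^ 2 * (kap * sz') * sz' := by
      calc io * sz * (io * sz) ≤ (ED * (kap * sz')) * (ED * sz') :=
            mul_le_mul hc hd (by positivity) (by positivity)
        _ = _ := by ring
    rw [hq', mul_div_assoc', div_le_iff₀ (by positivity)]
    calc io * sz * (5 ^ D * io * q * sz) = 5 ^ D * q * (io * sz * (io * sz)) := by ring
      _ ≤ 5 ^ D * q * (ED ^ 2 * (kap * sz') * sz') :=
          mul_le_mul_of_nonneg_left hkey (by positivity)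
      _ ≤ 10 ^ D * q * (ED ^ 2 * (kap * sz') * sz') := by
          apply mul_le_mul_of_nonneg_right _ (by positivity)
          exact mul_le_mul_of_nonneg_right h510 hq.le
      _ = _ := by ring

end RC1_

open RC1_ in
theorem rc1_proof (hCL : Stmt_CL) (hPSI : Stmt_PSI) (hRA1 : Stmt_RA1) (hRA2 : Stmt_RA2)
    (hRA3 : Stmt_RA3) : Stmt_RC1 := by
  classical
  intro r D i U P Th T q θ hD hq hQB hθ hW
  have : Nonempty (Fin D) := ⟨⟨0, hD⟩⟩
  obtain ⟨Lam, ψ, hLam, hψ, hrk⟩ := hPSI r D i P.φ Th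
  have hNpos : ∀ l, (0 : ℝ) < (2 : ℝ) ^ i * P.M l := fun l => by
    have := P.pos l
    positivity
  obtain ⟨d, g, M', hd, hM', hlift, hprop, ⟨C, hC, hcov⟩, hdich⟩ :=
    hCL (Fin D) r Lam (fun l => (2 : ℝ) ^ i * P.M l) ψ hNpos
  rw [Fintype.card_fin] at hC hdich
  rw [hrk] at hd hdich
  -- translation to `psi`
  have hInK : ∀ y : Fin D → ℤ, InK (fun l => (2 : ℝ) ^ i * P.M l) 1 y ↔
      ∀ l, |y l| ≤ 2 ^ i * (P.M l : ℤ) := by
    intro y
    unfold InK
    constructor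
    · intro h l
      have h1 := h l
      rw [one_mul] at h1
      have h2 : ((|y l| : ℤ) : ℝ) ≤ ((2 ^ i * (P.M l : ℤ) : ℤ) : ℝ) := by
        push_cast; exact h1
      exact_mod_cast h2
    · intro h l
      rw [one_mul]
      have h2 : ((|y l| : ℤ) : ℝ) ≤ ((2 ^ i * (P.M l : ℤ) : ℤ) : ℝ) := by
        exact_mod_cast h l
      push_cast at h2; exact h2
  have hpsi : ∀ y : Lam, ψ y = psi P i (y : Fin D → ℤ) := fun y =>
    (psi_unique P i (ψ y) (fun j => hψ y j)).symm
  let φ' : (Fin d → ℤ) →ₗ[ℤ] (Fin r → ℤ) := Fintype.linearCombination ℤ g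
  have hφ' : ∀ u, φ' u = ∑ l, u l • g l := fun u => Fintype.linearCombination_apply ℤ g u
  have lift1 : ∀ u : Fin d → ℤ, ∃ y : Fin D → ℤ, (∀ l, |u l| ≤ 8 * (M' l : ℤ)) →
      LatT P.φ Th i y ∧ (∀ l, |y l| ≤ 2 ^ i * (P.M l : ℤ)) ∧ psi P i y = φ' u := by
    intro u
    by_cases hu : ∀ l, |u l| ≤ 8 * (M' l : ℤ)
    · obtain ⟨y, hy1, hy2⟩ := hlift u hu
      refine ⟨y, fun _ => ⟨(hLam _).mp y.2, (hInK _).mp hy1, ?_⟩⟩
      rw [← hpsi y, hy2, hφ']
    · exact ⟨0, fun h => absurd h hu⟩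
  choose Lf hLf using lift1
  have cov1 : ∀ y : Fin D → ℤ, LatT P.φ Th i y → (∀ l, |y l| ≤ 2 ^ i * (P.M l : ℤ)) →
      ∃ f ∈ C, ∃ u ∈ box M', psi P i y = f + φ' u := by
    intro y hy1 hy2
    obtain ⟨f, hf, u, hu1, hu2⟩ := hcov ⟨y, (hLam y).mpr hy1⟩ ((hInK y).mpr hy2)
    refine ⟨f, hf, u, (mem_box M' u).mpr hu1, ?_⟩
    rw [hpsi] at hu2
    rw [hφ']; exact hu2
  have habs : ∀ u ∈ box M', ∀ l, |u l| ≤ 8 * (M' l : ℤ) := by
    intro u hu l
    have := (mem_box M' u).mp hu l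
    rw [abs_of_nonneg this.1]
    have : (0 : ℤ) ≤ M' l := Int.natCast_nonneg _
    linarith
  have hinj : ∀ u ∈ box M', ∀ u' ∈ box M', φ' u = φ' u' → u = u' := by
    intro u hu u' hu' h
    rw [← sub_eq_zero]
    apply hprop (u - u')
    · intro l
      have a1 := (mem_box M' u).mp hu l
      have a2 := (mem_box M' u').mp hu' l
      rw [Pi.sub_apply, abs_le]
      have : (0 : ℤ) ≤ M' l := Int.natCast_nonneg _
      constructor <;> linarith
    · rw [← hφ', map_sub, h, sub_self]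
  -- the constants
  set kap := (Kr P Th i).card with hkapdef
  have hkpos : 0 < kap := kap_pos P Th i
  have hkio : kap ≤ ioT P.φ Th i := by
    refine (hRA1 r D i P Th (Kr P Th i) (fun w hw => ((mem_Kr P Th i w).mp hw).2.1)).1 ?_
    intro w hw
    have := (mem_Kr P Th i w).mp hw
    exact ⟨this.2.2, this.1⟩
  have hszpos := size_pos P
  -- pigeonhole
  set W := levT U P Th i with hWdef
  have hWmem : ∀ w ∈ W, LatT P.φ Th i w ∧ (∀ l, 0 ≤ w l ∧ w l < 2 ^ i * (P.M l : ℤ)) ∧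
      P.c + psi P i w ∈ U := by
    intro w hw
    rw [hWdef] at hw
    unfold levT at hw
    rw [Finset.mem_filter, mem_box] at hw
    obtain ⟨h1, h2, z, hz, h3⟩ := hw
    have hlat : LatT P.φ Th i w := by
      refine ⟨h2, fun j => ⟨z j - P.c j, ?_⟩⟩
      rw [mul_sub, h3 j]; ring
    refine ⟨hlat, fun l => ?_, ?_⟩
    · have := h1 l
      push_cast at this
      exact this
    · have : P.c + psi P i w = z := by
        funext j
        rw [Pi.add_apply]
        have e := psi_spec P Th i hlat j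
        have e2 : (2 : ℤ) ^ i * (P.c j + psi P i w j) = 2 ^ i * z j := by
          rw [mul_add, e, h3 j]
        exact mul_left_cancel₀ (by positivity) e2
      rw [this]; exact hz
  have hboxabs : ∀ w : Fin D → ℤ, (∀ l, 0 ≤ w l ∧ w l < 2 ^ i * (P.M l : ℤ)) →
      ∀ l, |w l| ≤ 2 ^ i * (P.M l : ℤ) := by
    intro w hw l
    rw [abs_of_nonneg (hw l).1]
    exact (hw l).2.le
  have hW0 : (0 : ℝ) < W.card := by
    have h1 : (0 : ℝ) < ioT P.φ Th i := by
      have : 0 < ioT P.φ Th i := lt_of_lt_of_le hkpos hkio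
      exact_mod_cast this
    have h2 : (0 : ℝ) < P.size := by exact_mod_cast hszpos
    exact lt_of_lt_of_le (by positivity) hW
  have hWne : W.Nonempty := by
    rw [← Finset.card_pos]; exact_mod_cast hW0
  have hch : ∀ w : Fin D → ℤ, ∃ f : Fin r → ℤ, w ∈ W → f ∈ C ∧ ∃ u ∈ box M',
      psi P i w = f + φ' u := by
    intro w
    by_cases hw : w ∈ W
    · obtain ⟨a1, a2, -⟩ := hWmem w hw
      obtain ⟨f, hf, u, hu, e⟩ := cov1 w a1 (hboxabs w a2)
      exact ⟨f, fun _ => ⟨hf, u, hu, e⟩⟩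
    · exact ⟨0, fun h => absurd h hw⟩
  choose ff hff using hch
  have hCne : C.Nonempty := by
    obtain ⟨w, hw⟩ := hWne
    exact ⟨ff w, (hff w hw).1⟩
  obtain ⟨f, hfC, hfbig⟩ : ∃ f ∈ C, W.card ≤ C.card * (W.filter (fun w => ff w = f)).card := by
    by_contra hcon
    push Not at hcon
    have h1 := Finset.card_eq_sum_card_fiberwise (f := ff) (s := W) (t := C)
      (fun w hw => (hff w hw).1)
    have h2 : C.card * W.card < C.card * W.card := by
      calc C.card * W.card = C.card * ∑ f ∈ C, (W.filter (fun w => ff w = f)).card := by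
            rw [← h1]
        _ = ∑ f ∈ C, C.card * (W.filter (fun w => ff w = f)).card := by rw [Finset.mul_sum]
        _ < ∑ _f ∈ C, W.card := Finset.sum_lt_sum_of_nonempty hCne (fun f hf => hcon f hf)
        _ = C.card * W.card := by rw [Finset.sum_const, smul_eq_mul]
    exact lt_irrefl _ h2
  let P' : Gap r d :=
    { c := P.c + f
      φ := φ'
      M := M'
      pos := hM'
      proper := fun u h1 h2 => hprop u h2 (by rw [← hφ']; exact h1) }
  have hsz' : P'.size = (box M').card := by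
    rw [card_box]
    rfl
  have hsz'pos : 0 < P'.size := size_pos P'
  -- U ∩ P'
  have hUP : (W.filter (fun w => ff w = f)).card ≤ kap * (U ∩ P'.pts).card := by
    apply Finset.card_le_mul_card_image_of_maps_to (f := fun w => P.c + psi P i w)
    · intro w hw
      rw [Finset.mem_filter] at hw
      obtain ⟨a1, a2, a3⟩ := hWmem w hw.1
      obtain ⟨-, u, hu, e⟩ := hff w hw.1
      rw [hw.2] at e
      rw [Finset.mem_inter]
      refine ⟨a3, ?_⟩
      unfold Gap.pts
      rw [Finset.mem_image]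
      refine ⟨u, hu, ?_⟩
      show P.c + f + φ' u = P.c + psi P i w
      rw [e, add_assoc]
    · intro b _
      apply fibre P Th i _ (b - P.c)
      intro w hw
      rw [Finset.mem_filter, Finset.mem_filter] at hw
      obtain ⟨a1, a2, -⟩ := hWmem w hw.1.1
      refine ⟨a1, a2, ?_⟩
      rw [← hw.2]
      abel
  -- (a)
  have ha : P'.size * kap ≤ 5 ^ D * ioT P.φ Th i * P.size := by
    have hLY : ∀ u ∈ box M', LatT P.φ Th i (Lf u) ∧ (∀ l, |Lf u l| ≤ 2 ^ i * (P.M l : ℤ)) ∧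
        psi P i (Lf u) = φ' u := fun u hu => hLf u (habs u hu)
    have hc := XX_card P Th i φ' Lf (box M') hinj hLY
    rw [hsz', ← hc]
    have hm := XX_mem P Th i φ' Lf (box M') hLY
    exact (hRA1 r D i P Th _ (fun w hw => (hm w hw).1)).2 (fun w hw => (hm w hw).2.1)
  -- covering count
  have hG := hRA2 r D i P Th
  set G := (box (fun l => 2 ^ i * P.M l)).filter (LatT P.φ Th i) with hGdef
  have hGmem : ∀ w ∈ G, LatT P.φ Th i w ∧ (∀ l, 0 ≤ w l ∧ w l < 2 ^ i * (P.M l : ℤ)) := by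
    intro w hw
    rw [hGdef, Finset.mem_filter, mem_box] at hw
    refine ⟨hw.2, fun l => ?_⟩
    have := hw.1 l
    push_cast at this
    exact this
  have hc : ioT P.φ Th i * P.size ≤ kap * (C.card * P'.size) := by
    rw [← hG, hsz']
    have : kap * (C.card * (box M').card) =
        kap * ((C ×ˢ box M').card) := by rw [Finset.card_product]
    rw [this]
    have himg : ((C ×ˢ box M').image (fun p => p.1 + φ' p.2)).card ≤ (C ×ˢ box M').card :=
      Finset.card_image_le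
    refine le_trans ?_ (Nat.mul_le_mul_left kap himg)
    apply Finset.card_le_mul_card_image_of_maps_to (f := fun w => psi P i w)
    · intro w hw
      obtain ⟨a1, a2⟩ := hGmem w hw
      obtain ⟨f1, hf1, u, hu, e⟩ := cov1 w a1 (hboxabs w a2)
      rw [Finset.mem_image]
      exact ⟨(f1, u), Finset.mem_product.mpr ⟨hf1, hu⟩, e.symm⟩
    · intro b _
      apply fibre P Th i _ b
      intro w hw
      rw [Finset.mem_filter] at hw
      obtain ⟨a1, a2⟩ := hGmem w hw.1
      exact ⟨a1, a2, hw.2⟩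
  -- real numbers
  have hEDpos : 0 < ED D := Real.exp_pos _
  have rio : (0 : ℝ) < ioT P.φ Th i := by
    have : 0 < ioT P.φ Th i := lt_of_lt_of_le hkpos hkio
    exact_mod_cast this
  have rsz : (0 : ℝ) < P.size := by exact_mod_cast hszpos
  have rsz' : (0 : ℝ) < P'.size := by exact_mod_cast hsz'pos
  have rkap : (0 : ℝ) < kap := by exact_mod_cast hkpos
  have rU : (W.card : ℝ) ≤ ED D * (kap * ((U ∩ P'.pts).card : ℝ)) := by
    have h1 : (W.card : ℝ) ≤ C.card * (kap * ((U ∩ P'.pts).card : ℝ)) := by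
      have := le_trans hfbig (Nat.mul_le_mul_left C.card hUP)
      exact_mod_cast this
    exact le_trans h1 (mul_le_mul_of_nonneg_right hC (by positivity))
  have ra : (P'.size : ℝ) * kap ≤ 5 ^ D * ioT P.φ Th i * P.size := by exact_mod_cast ha
  have rkio : (kap : ℝ) ≤ ioT P.φ Th i := by exact_mod_cast hkio
  have rc : (ioT P.φ Th i : ℝ) * P.size ≤ ED D * (kap * P'.size) := by
    have h1 : (ioT P.φ Th i : ℝ) * P.size ≤ kap * (C.card * P'.size) := by exact_mod_cast hc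
    calc (ioT P.φ Th i : ℝ) * P.size ≤ kap * (C.card * P'.size) := h1
      _ = C.card * (kap * P'.size) := by ring
      _ ≤ ED D * (kap * P'.size) := mul_le_mul_of_nonneg_right hC (by positivity)
  set q' : ℝ := 5 ^ D * ioT P.φ Th i * q * P.size / (kap * P'.size) with hq'def
  obtain ⟨n1, n2, n3, n4, n5⟩ := numer D (ioT P.φ Th i) P.size P'.size kap (ED D) θ q rio rsz
    rsz' rkap hEDpos hθ hq W.card ((U ∩ P'.pts).card) hW rU ra rkio rc q' hq'def
  refine ⟨d, P', q', hd, n1, ?_, n2, n3, n4, ?_⟩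
  · -- QB
    intro x
    set Q := ⌊q * P.size⌋₊ with hQdef
    have hQ : ∀ x : Fin r → ℤ, (P.pts.filter (fun p => p - x ∈ T)).card ≤ Q := by
      intro x
      exact Nat.le_floor (hQB x)
    set Y := (box M').filter (fun u => P.c + f + φ' u - x ∈ T) with hYdef
    have hYsub : ∀ u ∈ Y, u ∈ box M' := fun u hu => (Finset.mem_filter.mp hu).1
    have hLY : ∀ u ∈ Y, LatT P.φ Th i (Lf u) ∧ (∀ l, |Lf u l| ≤ 2 ^ i * (P.M l : ℤ)) ∧
        psi P i (Lf u) = φ' u := fun u hu => hLf u (habs u (hYsub u hu))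
    have hcard := XX_card P Th i φ' Lf Y
      (fun u hu u' hu' => hinj u (hYsub u hu) u' (hYsub u' hu')) hLY
    have hm := XX_mem P Th i φ' Lf Y hLY
    have h3 := hRA3 r D i Q P Th T (x - P.c - f) (XX P Th i Lf Y) hQ (by
      intro w hw
      obtain ⟨b1, b2, u, hu, b3⟩ := hm w hw
      refine ⟨b1, b2, φ' u, b3, ?_⟩
      have hu2 := (Finset.mem_filter.mp hu).2
      have : φ' u - (x - P.c - f) = P.c + f + φ' u - x := by abel
      rw [this]; exact hu2)
    rw [hcard] at h3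
    have h4 : (P'.pts.filter (fun p => p - x ∈ T)).card ≤ Y.card := by
      have : P'.pts.filter (fun p => p - x ∈ T) ⊆ Y.image (fun u => P.c + f + φ' u) := by
        intro p hp
        rw [Finset.mem_filter] at hp
        obtain ⟨hp1, hp2⟩ := hp
        unfold Gap.pts at hp1
        rw [Finset.mem_image] at hp1
        obtain ⟨u, hu, rfl⟩ := hp1
        rw [Finset.mem_image]
        exact ⟨u, Finset.mem_filter.mpr ⟨hu, hp2⟩, rfl⟩
      exact le_trans (Finset.card_le_card this) Finset.card_image_le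
    have h5 : ((P'.pts.filter (fun p => p - x ∈ T)).card : ℝ) * kap ≤
        5 ^ D * ioT P.φ Th i * (q * P.size) := by
      have h6 : ((P'.pts.filter (fun p => p - x ∈ T)).card : ℝ) * kap ≤ (Y.card : ℝ) * kap := by
        apply mul_le_mul_of_nonneg_right _ rkap.le
        exact_mod_cast h4
      have h7 : (Y.card : ℝ) * kap ≤ 5 ^ D * ioT P.φ Th i * Q := by exact_mod_cast h3
      have h8 : (Q : ℝ) ≤ q * P.size := Nat.floor_le (by positivity)
      exact h6.trans (h7.trans (mul_le_mul_of_nonneg_left h8 (by positivity)))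
    have h9 : q' * P'.size = 5 ^ D * ioT P.φ Th i * (q * P.size) / kap := by
      rw [hq'def]
      field_simp
    rw [h9, le_div_iff₀ rkap]
    exact h5
  · intro hdD
    apply n5
    rcases hdich with h | h
    · omega
    · have h1 := h G (fun y hy => ⟨(hLam y).mpr (hGmem y hy).1,
        (hInK y).mpr (hboxabs y (hGmem y hy).2)⟩)
      rw [hG] at h1
      have h2 : ((ioT P.φ Th i * P.size : ℕ) : ℝ) = (ioT P.φ Th i : ℝ) * P.size := by
        push_cast; ring
      rw [h2] at h1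
      have h3 : (P'.size : ℝ) = ∏ l, (M' l : ℝ) := by
        show ((∏ l, M' l : ℕ) : ℝ) = _
        push_cast; rfl
      rw [h3]; exact h1

end Pool.Agent.EMB
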