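import Pool.Agent.EMB.Stmts

/-!
# Squad EMB, module RC2: rounding the sides to powers of B
-/

set_option autoImplicit false

namespace Pool.Agent.EMB

namespace RC2_

theorem interval (S M : ℕ) (hS : 1 ≤ S) (hSM : S ≤ M) :
    ∃ A : Finset ℤ, A.card * S ≤ 2 * M ∧ (∀ a ∈ A, 0 ≤ a ∧ a + S ≤ M) ∧
      ∀ x : ℤ, 0 ≤ x → x < M → ∃ a ∈ A, a ≤ x ∧ x < a + S := by
  refine ⟨(Finset.range (M / S + 1)).image (fun j : ℕ => min ((j : ℤ) * S) ((M : ℤ) - S)), ?_, ?_, ?_⟩
  · have h1 : ((Finset.range (M / S + 1)).image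
        (fun j : ℕ => min ((j : ℤ) * S) ((M : ℤ) - S))).card ≤ M / S + 1 := by
      refine Finset.card_image_le.trans ?_
      rw [Finset.card_range]
    have h2 : (M / S + 1) * S ≤ 2 * M := by
      have := Nat.div_mul_le_self M S
      rw [add_mul, one_mul]; omega
    exact (Nat.mul_le_mul_right S h1).trans h2
  · intro a ha
    rw [Finset.mem_image] at ha
    obtain ⟨j, -, rfl⟩ := ha
    have h0 : (0 : ℤ) ≤ (j : ℤ) * S := by positivity
    have h1 : (S : ℤ) ≤ M := by exact_mod_cast hSM
    constructor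
    · exact le_min h0 (by linarith)
    · have := min_le_right ((j : ℤ) * S) ((M : ℤ) - S)
      linarith
  · intro x hx0 hxM
    obtain ⟨m, rfl⟩ := Int.eq_ofNat_of_zero_le hx0
    have hm : m < M := by exact_mod_cast hxM
    have hS0 : 0 < S := hS
    refine ⟨min (((m / S : ℕ) : ℤ) * S) ((M : ℤ) - S), ?_, ?_, ?_⟩
    · rw [Finset.mem_image]
      refine ⟨m / S, ?_, rfl⟩
      rw [Finset.mem_range]
      have := Nat.div_le_div_right (c := S) hm.le
      omega
    · have h1 := min_le_left (((m / S : ℕ) : ℤ) * S) ((M : ℤ) - S)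
      have h2 : ((m / S : ℕ) : ℤ) * S ≤ m := by exact_mod_cast Nat.div_mul_le_self m S
      linarith
    · rcases min_choice (((m / S : ℕ) : ℤ) * S) ((M : ℤ) - S) with h | h
      · rw [h]
        have h3 : m < m / S * S + S := by
          have := Nat.lt_div_mul_add (a := m) hS0
          exact this
        exact_mod_cast h3
      · rw [h]
        have : (m : ℤ) < M := by exact_mod_cast hm
        linarith

end RC2_

theorem rc2_proof : Stmt_RC2 := by
  intro r d B n U P T q hB hq hQB
  classical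
  set S : Fin d → ℕ := fun l => if P.M l < B ^ (n + 1) then P.M l else B ^ (Nat.log B (P.M l)) with hSdef
  have hS1 : ∀ l, 1 ≤ S l := by
    intro l
    simp only [hSdef]
    split_ifs with h
    · exact P.pos l
    · exact Nat.one_le_pow _ _ (by omega)
  have hSM : ∀ l, S l ≤ P.M l := by
    intro l
    simp only [hSdef]
    split_ifs with h
    · exact le_rfl
    · exact Nat.pow_log_le_self B (by have := P.pos l; omega)
  have hMS : ∀ l, P.M l ≤ B * S l := by
    intro l
    simp only [hSdef]
    split_ifs with h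
    · exact Nat.le_mul_of_pos_left _ (by omega)
    · have := Nat.lt_pow_succ_log_self (b := B) (by omega) (P.M l)
      rw [Nat.succ_eq_add_one, pow_succ] at this
      rw [mul_comm]; exact this.le
  choose A hA1 hA2 hA3 using fun l => RC2_.interval (S l) (P.M l) (hS1 l) (hSM l)
  let Q : (Fin d → ℤ) → Gap r d := fun a =>
    { c := P.c + P.φ a
      φ := P.φ
      M := S
      pos := hS1
      proper := fun u hu hb => P.proper u hu (fun l => (hb l).trans (by
        have : (S l : ℤ) ≤ P.M l := by exact_mod_cast hSM l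
        linarith)) }
  let F : Finset (Fin d → ℤ) := Fintype.piFinset A
  have hF : F.Nonempty := by
    have : ∀ l, ∃ a, a ∈ A l := by
      intro l
      obtain ⟨a, ha, -⟩ := hA3 l 0 le_rfl (by have := P.pos l; exact_mod_cast this)
      exact ⟨a, ha⟩
    choose a ha using this
    exact ⟨a, Fintype.mem_piFinset.mpr ha⟩
  obtain ⟨a, haF, hamax⟩ := Finset.exists_max_image F (fun a => (U ∩ (Q a).pts).card) hF
  have hcover : U ∩ P.pts ⊆ F.biUnion (fun a => U ∩ (Q a).pts) := by
    intro x hx
    rw [Finset.mem_inter] at hx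
    obtain ⟨hxU, hxP⟩ := hx
    rw [Gap.pts, Finset.mem_image] at hxP
    obtain ⟨u, hu, hux⟩ := hxP
    rw [box, Fintype.mem_piFinset] at hu
    have hu' : ∀ l, 0 ≤ u l ∧ u l < P.M l := fun l => by
      have := hu l
      rwa [Finset.mem_Ico] at this
    choose b hb1 hb2 hb3 using fun l => hA3 l (u l) (hu' l).1 (hu' l).2
    rw [Finset.mem_biUnion]
    refine ⟨b, Fintype.mem_piFinset.mpr hb1, ?_⟩
    rw [Finset.mem_inter]
    refine ⟨hxU, ?_⟩
    rw [Gap.pts, Finset.mem_image]
    refine ⟨u - b, ?_, ?_⟩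
    · rw [box, Fintype.mem_piFinset]
      intro l
      rw [Finset.mem_Ico, Pi.sub_apply]
      have h1 := hb2 l
      have h2 := hb3 l
      constructor
      · linarith
      · change u l - b l < (S l : ℤ)
        linarith
    · change P.c + P.φ b + P.φ (u - b) = x
      rw [map_sub, ← hux]
      abel
  have hcard : (U ∩ P.pts).card ≤ F.card * (U ∩ (Q a).pts).card := by
    refine (Finset.card_le_card hcover).trans (Finset.card_biUnion_le.trans ?_)
    refine (Finset.sum_le_card_nsmul F _ _ (fun b hb => hamax b hb)).trans ?_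
    rw [smul_eq_mul]
  have hFS : F.card * ∏ l, S l ≤ 2 ^ d * ∏ l, P.M l := by
    have h1 : F.card = ∏ l, (A l).card := Fintype.card_piFinset A
    rw [h1, ← Finset.prod_mul_distrib]
    have h2 : (2 : ℕ) ^ d = ∏ _l : Fin d, 2 := by simp
    rw [h2, ← Finset.prod_mul_distrib]
    exact Finset.prod_le_prod' (fun l _ => hA1 l)
  have hsub : (Q a).pts ⊆ P.pts := by
    intro x hx
    rw [Gap.pts, Finset.mem_image] at hx ⊢
    obtain ⟨u, hu, hux⟩ := hx
    rw [box, Fintype.mem_piFinset] at hu
    refine ⟨a + u, ?_, ?_⟩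
    · rw [box, Fintype.mem_piFinset]
      intro l
      have h1 := hu l
      rw [Finset.mem_Ico] at h1 ⊢
      have h2 := hA2 l (a l) (Fintype.mem_piFinset.mp haF l)
      rw [Pi.add_apply]
      have h3 : u l < (S l : ℤ) := h1.2
      constructor
      · linarith [h1.1, h2.1]
      · linarith [h2.2]
    · rw [← hux]
      change P.c + P.φ (a + u) = P.c + P.φ a + P.φ u
      rw [map_add]; abel
  have hsize : (P.size : ℝ) ≤ (B : ℝ) ^ d * (Q a).size := by
    have h1 : P.size ≤ B ^ d * (Q a).size := by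
      change ∏ l, P.M l ≤ B ^ d * ∏ l, S l
      have h2 : B ^ d = ∏ _l : Fin d, B := by simp
      rw [h2, ← Finset.prod_mul_distrib]
      exact Finset.prod_le_prod' (fun l _ => hMS l)
    exact_mod_cast h1
  refine ⟨Q a, ?_, hsub, ?_, hsize, ?_⟩
  · intro l
    change S l < B ^ (n + 1) ∨ ∃ k, n + 1 ≤ k ∧ S l = B ^ k
    by_cases h : P.M l < B ^ (n + 1)
    · left
      simp only [hSdef, if_pos h]; exact h
    · right
      refine ⟨Nat.log B (P.M l), ?_, ?_⟩
      · exact Nat.le_log_of_pow_le (by omega) (not_lt.mp h)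
      · simp only [hSdef, if_neg h]
  · have h1 : (U ∩ P.pts).card * (Q a).size ≤ 2 ^ d * P.size * (U ∩ (Q a).pts).card := by
      change (U ∩ P.pts).card * ∏ l, S l ≤ 2 ^ d * (∏ l, P.M l) * (U ∩ (Q a).pts).card
      calc (U ∩ P.pts).card * ∏ l, S l ≤ F.card * (U ∩ (Q a).pts).card * ∏ l, S l :=
            Nat.mul_le_mul_right _ hcard
        _ = F.card * (∏ l, S l) * (U ∩ (Q a).pts).card := by ring
        _ ≤ _ := Nat.mul_le_mul_right _ hFS
    exact_mod_cast h1
  · intro x
    have h1 := hQB x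
    have h2 : (((Q a).pts.filter (fun p => p - x ∈ T)).card : ℝ) ≤
        ((P.pts.filter (fun p => p - x ∈ T)).card : ℝ) := by
      exact_mod_cast Finset.card_le_card (Finset.filter_subset_filter _ hsub)
    calc (((Q a).pts.filter (fun p => p - x ∈ T)).card : ℝ) ≤ q * P.size := h2.trans h1
      _ ≤ q * ((B : ℝ) ^ d * (Q a).size) := mul_le_mul_of_nonneg_left hsize hq.le
      _ = (B : ℝ) ^ d * q * (Q a).size := by ring

end Pool.Agent.EMB
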