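import Pool.Agent.EMB.Stmts

/-!
# Squad EMB, module RND: the Round Lemma
-/

set_option autoImplicit false

namespace Pool.Agent.EMB

theorem rnd_proof (h1 : Stmt_EV) (h2 : Stmt_IOT) (h3 : Stmt_RC1) (h4 : Stmt_RC2) : Stmt_RND := by
  intro r D κ B n t Δ U P T y q hκ hD hn hB hch hsc hy hq hd hyn hsz hQB
  have hev := h1 r D κ B n t Δ U P y hκ hD hn hB hch hsc hy hd hyn hsz
  set Th := P.thick B n with hTh
  obtain ⟨d, P', q', hdD, hq', hQB', hU', hsz', hq'q, heq⟩ :=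
    h3 r D Δ (U (t + Δ)) P Th T q (Real.exp (-y - 1 - Δ * Ck κ)) hD hq hQB (Real.exp_pos _) hev
  have hB2 : 2 ≤ B := by
    have : 1 ≤ D ^ 3 := Nat.one_le_pow _ _ hD
    omega
  obtain ⟨P'', hsc'', -, hU'', hsz'', hQB''⟩ := h4 r d B n (U (t + Δ)) P' T q' hB2 hq' hQB'
  have hBr : (1 : ℝ) < B := by exact_mod_cast (by omega : 1 < B)
  have hBpos : (0 : ℝ) < B := by linarith
  have hL0 : 0 ≤ Real.log B := Real.log_nonneg hBr.le
  have hBd : (B : ℝ) ^ d ≤ (B : ℝ) ^ D := pow_le_pow_right₀ hBr.le hdD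
  have hBD : (B : ℝ) ^ D = Real.exp (D * Real.log B) := by
    rw [mul_comm, Real.exp_mul, Real.exp_log hBpos, Real.rpow_natCast]
  have hED : 0 < ED D := Real.exp_pos _
  have h10 : (10 : ℝ) ^ D ≤ Real.exp (3 * D) := by
    have h : (10 : ℝ) ≤ Real.exp 3 := by
      have h27 : (2.7 : ℝ) ≤ Real.exp 1 := by
        have := Real.exp_one_gt_d9; linarith
      have : Real.exp 3 = Real.exp 1 ^ 3 := by
        rw [← Real.exp_nat_mul]; norm_num
      rw [this]
      calc (10 : ℝ) ≤ 2.7 ^ 3 := by norm_num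
        _ ≤ _ := pow_le_pow_left₀ (by norm_num) h27 3
    calc (10 : ℝ) ^ D ≤ Real.exp 3 ^ D := pow_le_pow_left₀ (by norm_num) h D
      _ = Real.exp (3 * D) := by rw [← Real.exp_nat_mul]; ring_nf
  have hD1 : (1 : ℝ) ≤ D := by exact_mod_cast hD
  have hD3 : (D : ℝ) ≤ (D : ℝ) ^ 3 := by
    have : (1 : ℝ) ≤ (D : ℝ) ^ 2 := one_le_pow₀ hD1
    nlinarith
  -- main exponential estimates
  have hDL : 0 ≤ (D : ℝ) * Real.log B := by positivity
  have e1 : 10 ^ D * ED D * Real.exp 1 ≤ Real.exp (Y4 D B) := by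
    calc 10 ^ D * ED D * Real.exp 1 ≤ Real.exp (3 * D) * ED D * Real.exp 1 := by
          gcongr
      _ = Real.exp (3 * D + 20 * (D : ℝ) ^ 3 + 1) := by
          rw [ED, ← Real.exp_add, ← Real.exp_add]
      _ ≤ Real.exp (Y4 D B) := by
          apply Real.exp_le_exp.mpr
          rw [Y4]; nlinarith
  have e2 : ED D * (B : ℝ) ^ D ≤ Real.exp (Y4 D B) := by
    rw [hBD, ED, ← Real.exp_add]
    apply Real.exp_le_exp.mpr
    rw [Y4]; nlinarith
  have e3 : (B : ℝ) ^ D * (10 ^ D * ED D) ≤ Real.exp (Y4 D B) := by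
    calc (B : ℝ) ^ D * (10 ^ D * ED D) ≤ (B : ℝ) ^ D * (Real.exp (3 * D) * ED D) := by gcongr
      _ = Real.exp (D * Real.log B + (3 * D + 20 * (D : ℝ) ^ 3)) := by
          rw [hBD, ED, ← Real.exp_add, ← Real.exp_add]
      _ ≤ Real.exp (Y4 D B) := by
          apply Real.exp_le_exp.mpr
          rw [Y4]; nlinarith
  have e4 : 10 ^ D * ED D ^ 2 * ((B : ℝ) ^ D * (B : ℝ) ^ D) ≤ Real.exp (Y4 D B) := by
    calc 10 ^ D * ED D ^ 2 * ((B : ℝ) ^ D * (B : ℝ) ^ D) ≤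
          Real.exp (3 * D) * ED D ^ 2 * ((B : ℝ) ^ D * (B : ℝ) ^ D) := by gcongr
      _ = Real.exp (3 * D + (20 * (D : ℝ) ^ 3 + 20 * (D : ℝ) ^ 3) +
            (D * Real.log B + D * Real.log B)) := by
          rw [hBD, ED, sq, ← Real.exp_add, ← Real.exp_add, ← Real.exp_add, ← Real.exp_add]
      _ ≤ Real.exp (Y4 D B) := by
          apply Real.exp_le_exp.mpr
          rw [Y4]; nlinarith
  have hP'pos : (0 : ℝ) < P'.size := by
    have : 0 < P'.size := Finset.prod_pos (fun l _ => by have := P'.pos l; omega)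
    exact_mod_cast this
  have hP''pos : (0 : ℝ) < P''.size := by
    have : 0 < P''.size := Finset.prod_pos (fun l _ => by have := P''.pos l; omega)
    exact_mod_cast this
  have hPpos : (0 : ℝ) < P.size := by
    have : 0 < P.size := Finset.prod_pos (fun l _ => by have := P.pos l; omega)
    exact_mod_cast this
  have hBdpos : (0 : ℝ) < (B : ℝ) ^ d := by positivity
  have hYpos := Real.exp_pos (Y4 D B)
  refine ⟨d, P'', (B : ℝ) ^ d * q', hdD, hsc'', by positivity, hQB'', ?_, ?_, ?_, ?_⟩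
  · -- density
    set N'' : ℝ := ((U (t + Δ) ∩ P''.pts).card : ℝ) with hN''
    set θ := Real.exp (-y - 1 - Δ * Ck κ) with hθ
    have hθpos : 0 < θ := Real.exp_pos _
    have hN''0 : 0 ≤ N'' := Nat.cast_nonneg _
    have a1 : θ / (5 ^ D * ED D) * P'.size * P''.size ≤ 2 ^ d * P'.size * N'' :=
      (mul_le_mul_of_nonneg_right hU' hP''pos.le).trans hU''
    have a2 : θ / (5 ^ D * ED D) * P''.size ≤ 2 ^ d * N'' := by
      have : P'.size * (θ / (5 ^ D * ED D) * P''.size) ≤ P'.size * (2 ^ d * N'') := by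
        calc P'.size * (θ / (5 ^ D * ED D) * P''.size) =
              θ / (5 ^ D * ED D) * P'.size * P''.size := by ring
          _ ≤ 2 ^ d * P'.size * N'' := a1
          _ = P'.size * (2 ^ d * N'') := by ring
      exact le_of_mul_le_mul_left this hP'pos
    have h2d : (2 : ℝ) ^ d ≤ 2 ^ D := pow_le_pow_right₀ (by norm_num) hdD
    have a3 : θ / (5 ^ D * ED D) * P''.size ≤ 2 ^ D * N'' :=
      a2.trans (mul_le_mul_of_nonneg_right h2d hN''0)
    have a4 : θ * P''.size ≤ 10 ^ D * ED D * N'' := by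
      have h5 : (0 : ℝ) < 5 ^ D * ED D := by positivity
      have : θ / (5 ^ D * ED D) * P''.size = θ * P''.size / (5 ^ D * ED D) := by ring
      rw [this, div_le_iff₀ h5] at a3
      calc θ * P''.size ≤ 2 ^ D * N'' * (5 ^ D * ED D) := a3
        _ = (2 ^ D * 5 ^ D) * ED D * N'' := by ring
        _ = 10 ^ D * ED D * N'' := by rw [← mul_pow]; norm_num
    have a5 : Real.exp (-y - Δ * Ck κ - Y4 D B) = θ * Real.exp 1 / Real.exp (Y4 D B) := by
      rw [hθ, ← Real.exp_add, ← Real.exp_sub]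
      ring_nf
    rw [a5, div_mul_eq_mul_div, div_le_iff₀ hYpos]
    calc θ * Real.exp 1 * P''.size = Real.exp 1 * (θ * P''.size) := by ring
      _ ≤ Real.exp 1 * (10 ^ D * ED D * N'') := by gcongr
      _ = N'' * (10 ^ D * ED D * Real.exp 1) := by ring
      _ ≤ N'' * Real.exp (Y4 D B) := by gcongr
  · -- size
    rw [Real.exp_neg, inv_mul_le_iff₀ hYpos]
    have b1 : (P.size : ℝ) ≤ ED D * P'.size := by
      rw [div_le_iff₀ hED] at hsz'
      linarith
    calc (P.size : ℝ) ≤ ED D * P'.size := b1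
      _ ≤ ED D * ((B : ℝ) ^ d * P''.size) := by gcongr
      _ ≤ ED D * ((B : ℝ) ^ D * P''.size) := by gcongr
      _ = ED D * (B : ℝ) ^ D * P''.size := by ring
      _ ≤ Real.exp (Y4 D B) * P''.size := by gcongr
  · calc (B : ℝ) ^ d * q' ≤ (B : ℝ) ^ D * (10 ^ D * ED D * q) := by gcongr
      _ = (B : ℝ) ^ D * (10 ^ D * ED D) * q := by ring
      _ ≤ Real.exp (Y4 D B) * q := by gcongr
  · intro hdD'
    have c1 := heq hdD'
    have c2 := h2 r D Δ P.φ Th
    have c2' : (2 : ℝ) ^ (Δ * rhoT P.φ Th) ≤ (ioT P.φ Th Δ : ℝ) := by exact_mod_cast c2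
    have c3 : (ioT P.φ Th Δ : ℝ) * P.size / q ≤ P'.size / q' * (10 ^ D * ED D ^ 2) := by
      have h5 : (0 : ℝ) < 10 ^ D * ED D ^ 2 := by positivity
      rw [← div_le_iff₀ h5, div_div]
      exact c1
    have c4 : (P'.size : ℝ) / q' ≤ (B : ℝ) ^ D * (B : ℝ) ^ D * (P''.size / ((B : ℝ) ^ d * q')) := by
      rw [div_le_iff₀ hq']
      have : (B : ℝ) ^ D * (B : ℝ) ^ D * (P''.size / ((B : ℝ) ^ d * q')) * q' =
          (B : ℝ) ^ D * ((B : ℝ) ^ D / (B : ℝ) ^ d) * P''.size := by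
        field_simp
      rw [this]
      have h6 : 1 ≤ (B : ℝ) ^ D / (B : ℝ) ^ d := by
        rw [le_div_iff₀ hBdpos, one_mul]; exact hBd
      calc (P'.size : ℝ) ≤ (B : ℝ) ^ d * P''.size := hsz''
        _ ≤ (B : ℝ) ^ D * P''.size := by gcongr
        _ = (B : ℝ) ^ D * 1 * P''.size := by ring
        _ ≤ (B : ℝ) ^ D * ((B : ℝ) ^ D / (B : ℝ) ^ d) * P''.size := by gcongr
    have hX : 0 ≤ (P''.size : ℝ) / ((B : ℝ) ^ d * q') := by positivity
    rw [Real.exp_neg]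
    have c5 : 2 ^ (Δ * rhoT P.φ Th) * (P.size / q : ℝ) ≤
        Real.exp (Y4 D B) * (P''.size / ((B : ℝ) ^ d * q')) := by
      calc 2 ^ (Δ * rhoT P.φ Th) * (P.size / q : ℝ) ≤ (ioT P.φ Th Δ : ℝ) * (P.size / q) := by
            gcongr
        _ = (ioT P.φ Th Δ : ℝ) * P.size / q := by ring
        _ ≤ P'.size / q' * (10 ^ D * ED D ^ 2) := c3
        _ ≤ ((B : ℝ) ^ D * (B : ℝ) ^ D * (P''.size / ((B : ℝ) ^ d * q'))) * (10 ^ D * ED D ^ 2) := by
            gcongr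
        _ = 10 ^ D * ED D ^ 2 * ((B : ℝ) ^ D * (B : ℝ) ^ D) * (P''.size / ((B : ℝ) ^ d * q')) := by
            ring
        _ ≤ _ := by gcongr
    calc 2 ^ (Δ * rhoT P.φ Th) * (Real.exp (Y4 D B))⁻¹ * (P.size / q : ℝ) =
          (Real.exp (Y4 D B))⁻¹ * (2 ^ (Δ * rhoT P.φ Th) * (P.size / q : ℝ)) := by ring
      _ ≤ (Real.exp (Y4 D B))⁻¹ * (Real.exp (Y4 D B) * (P''.size / ((B : ℝ) ^ d * q'))) := by
          gcongr
      _ = P''.size / ((B : ℝ) ^ d * q') := by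
          rw [← mul_assoc, inv_mul_cancel₀ hYpos.ne', one_mul]

end Pool.Agent.EMB
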