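import Pool.Agent.EMB.Stmts

set_option autoImplicit false

namespace Pool.Agent.EMB

open Finset

namespace SCA_

lemma log_le_half {s : ℝ} (hs : 0 < s) : Real.log s ≤ s / 2 := by
  have h1 : Real.log (s / 2) ≤ s / 2 - 1 := Real.log_le_sub_one_of_pos (by positivity)
  have h2 : Real.log s = Real.log (s / 2) + Real.log 2 := by
    rw [← Real.log_mul (by positivity) (by norm_num)]
    congr 1
    ring
  have h3 : Real.log 2 ≤ 1 := by
    have := Real.log_two_lt_d9
    linarith
  linarith

/-- `g t = log t + 1/(2t) ≥ 0` -/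
lemma g_nonneg {t : ℝ} (ht : 0 < t) : 0 ≤ Real.log t + 1 / (2 * t) := by
  have h := log_le_half (s := 1 / t) (by positivity)
  rw [Real.log_div one_ne_zero ht.ne', Real.log_one] at h
  have h2 : 1 / t / 2 = 1 / (2 * t) := by field_simp
  linarith

variable {α β : Type} [DecidableEq α] [DecidableEq β]

/-- size of the cell of level `j` containing `x` -/
noncomputable def p (E : Finset α) (f : ℕ → α → β) (j : ℕ) (x : α) : ℝ :=
  ((E.filter (fun y => f j y = f j x)).card : ℝ)

lemma p_pos {E : Finset α} {f : ℕ → α → β} {j : ℕ} {x : α} (hx : x ∈ E) : 0 < p E f j x := by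
  unfold p
  have : 0 < (E.filter (fun y => f j y = f j x)).card :=
    card_pos.mpr ⟨x, mem_filter.mpr ⟨hx, rfl⟩⟩
  exact_mod_cast this

lemma cells_le {E : Finset α} {f : ℕ → α → β} {b n : ℕ}
    (h0 : ∀ x ∈ E, ∀ y ∈ E, f 0 x = f 0 y)
    (hb : ∀ j, j < n → ∀ q, ((E.filter (fun y => f j y = q)).image (f (j + 1))).card ≤ b) :
    ∀ j, j ≤ n → (E.image (f j)).card ≤ b ^ j := by
  intro j
  induction j with
  | zero =>
    intro _
    rw [pow_zero]
    refine card_le_one.mpr ?_
    intro a ha c hc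
    obtain ⟨x, hx, rfl⟩ := mem_image.mp ha
    obtain ⟨y, hy, rfl⟩ := mem_image.mp hc
    exact h0 x hx y hy
  | succ j ih =>
    intro hj
    have hsub : E.image (f (j + 1)) ⊆
        (E.image (f j)).biUnion (fun q => (E.filter (fun y => f j y = q)).image (f (j + 1))) := by
      intro a ha
      obtain ⟨x, hx, rfl⟩ := mem_image.mp ha
      refine mem_biUnion.mpr ⟨f j x, mem_image_of_mem _ hx, ?_⟩
      exact mem_image_of_mem _ (mem_filter.mpr ⟨hx, rfl⟩)
    calc (E.image (f (j + 1))).card ≤ _ := card_le_card hsub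
      _ ≤ ∑ q ∈ E.image (f j), ((E.filter (fun y => f j y = q)).image (f (j + 1))).card :=
          card_biUnion_le
      _ ≤ ∑ _q ∈ E.image (f j), b := sum_le_sum (fun q _ => hb j (by omega) q)
      _ = (E.image (f j)).card * b := by rw [sum_const, smul_eq_mul]
      _ ≤ b ^ j * b := Nat.mul_le_mul_right _ (ih (by omega))
      _ = b ^ (j + 1) := by rw [pow_succ]

/-- sum of the reciprocals of the sizes of the children is the number of children -/
lemma sum_recip {E : Finset α} {f : ℕ → α → β} {j : ℕ}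
    (hnest : ∀ x ∈ E, ∀ y ∈ E, f (j + 1) x = f (j + 1) y → f j x = f j y) (q : β) :
    ∑ x ∈ E.filter (fun y => f j y = q), 1 / p E f (j + 1) x =
      (((E.filter (fun y => f j y = q)).image (f (j + 1))).card : ℝ) := by
  classical
  set Eq := E.filter (fun y => f j y = q) with hEq
  rw [← sum_fiberwise_of_maps_to (s := Eq) (t := Eq.image (f (j + 1))) (g := f (j + 1))
    (fun x hx => mem_image_of_mem _ hx)]
  rw [card_eq_sum_ones, Nat.cast_sum]
  refine sum_congr rfl ?_
  intro c hc
  obtain ⟨x0, hx0, hx0c⟩ := mem_image.mp hc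
  have hx0E : x0 ∈ E := (mem_filter.mp hx0).1
  have hx0q : f j x0 = q := (mem_filter.mp hx0).2
  have hfilt : Eq.filter (fun x => f (j + 1) x = c) = E.filter (fun y => f (j + 1) y = c) := by
    ext y
    constructor
    · intro hy
      have h1 := mem_filter.mp hy
      exact mem_filter.mpr ⟨(mem_filter.mp h1.1).1, h1.2⟩
    · intro hy
      have h1 := mem_filter.mp hy
      refine mem_filter.mpr ⟨mem_filter.mpr ⟨h1.1, ?_⟩, h1.2⟩
      rw [hnest y h1.1 x0 hx0E (by rw [h1.2, hx0c])]
      exact hx0q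
  rw [hfilt]
  have hval : ∀ x ∈ E.filter (fun y => f (j + 1) y = c),
      1 / p E f (j + 1) x = 1 / ((E.filter (fun y => f (j + 1) y = c)).card : ℝ) := by
    intro x hx
    have h1 := mem_filter.mp hx
    unfold p
    rw [h1.2]
  rw [sum_congr rfl hval, sum_const, nsmul_eq_mul]
  have hpos : 0 < (E.filter (fun y => f (j + 1) y = c)).card :=
    card_pos.mpr ⟨x0, mem_filter.mpr ⟨hx0E, hx0c⟩⟩
  have hpos' : (0 : ℝ) < ((E.filter (fun y => f (j + 1) y = c)).card : ℝ) := by exact_mod_cast hpos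
  rw [Nat.cast_one]
  field_simp

end SCA_

open SCA_ in
theorem sca_proof : Stmt_SCA := by
  classical
  intro α β _ _ E f b n V hE hn hb h0 hnest hch hvol
  have hEpos : (0 : ℝ) < (E.card : ℝ) := by exact_mod_cast card_pos.mpr hE
  have hbR : (1 : ℝ) ≤ (b : ℝ) := by exact_mod_cast hb
  have hb0 : (0 : ℝ) < (b : ℝ) := by linarith
  have hnR : (1 : ℝ) ≤ (n : ℝ) := by exact_mod_cast hn
  have hn0 : (0 : ℝ) < (n : ℝ) := by linarith
  -- V > 0
  have hVpos : 0 < V := by
    obtain ⟨x, hx⟩ := hE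
    have h1 := hvol (f n x)
    have h2 : 0 < p E f n x := p_pos hx
    have h3 : 0 < (b : ℝ) ^ n := by positivity
    have h4 : 0 < p E f n x * (b : ℝ) ^ n := mul_pos h2 h3
    unfold p at h4
    linarith
  set η : ℝ := Real.log (V / E.card) / n with hη
  -- the total
  have htot : ∑ j ∈ range n, ∑ x ∈ E, Real.log ((b : ℝ) * p E f (j + 1) x / p E f j x) ≤
      ∑ _j ∈ range n, (E.card : ℝ) * η := by
    rw [sum_comm]
    have h1 : ∀ x ∈ E, ∑ j ∈ range n, Real.log ((b : ℝ) * p E f (j + 1) x / p E f j x) ≤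
        n * η := by
      intro x hx
      have h2 : ∀ j ∈ range n, Real.log ((b : ℝ) * p E f (j + 1) x / p E f j x) =
          Real.log b + (Real.log (p E f (j + 1) x) - Real.log (p E f j x)) := by
        intro j _
        have hp1 : 0 < p E f (j + 1) x := p_pos hx
        have hp0 : 0 < p E f j x := p_pos hx
        rw [Real.log_div (by positivity) hp0.ne', Real.log_mul hb0.ne' hp1.ne']
        ring
      rw [sum_congr rfl h2, sum_add_distrib, sum_range_sub (fun j => Real.log (p E f j x)),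
        sum_const, card_range, nsmul_eq_mul]
      have hp0 : p E f 0 x = (E.card : ℝ) := by
        unfold p
        rw [filter_true_of_mem (fun y hy => h0 y hy x hx)]
      have hpn : Real.log (p E f n x) ≤ Real.log V - n * Real.log b := by
        have h3 : p E f n x * (b : ℝ) ^ n ≤ V := hvol (f n x)
        have h4 : 0 < p E f n x := p_pos hx
        have h5 : Real.log (p E f n x * (b : ℝ) ^ n) ≤ Real.log V :=
          Real.log_le_log (by positivity) h3
        rw [Real.log_mul h4.ne' (by positivity), Real.log_pow] at h5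
        linarith
      have h6 : n * η = Real.log V - Real.log E.card := by
        rw [hη, mul_div_cancel₀ _ hn0.ne', Real.log_div hVpos.ne' hEpos.ne']
      rw [h6, hp0]
      linarith
    calc ∑ x ∈ E, ∑ j ∈ range n, Real.log ((b : ℝ) * p E f (j + 1) x / p E f j x) ≤
        ∑ _x ∈ E, (n : ℝ) * η := sum_le_sum h1
      _ = ∑ _j ∈ range n, (E.card : ℝ) * η := by
        rw [sum_const, sum_const, card_range, nsmul_eq_mul, nsmul_eq_mul]
        ring
  obtain ⟨j, hjmem, hj⟩ := exists_le_of_sum_le (nonempty_range_iff.mpr (by omega)) htot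
  have hjn : j < n := mem_range.mp hjmem
  refine ⟨j, hjn, ?_⟩
  -- cells
  set C : β → Finset α := fun q => E.filter (fun y => f j y = q) with hC
  set K : β → ℝ := fun q => ∑ x ∈ C q, Real.log ((b : ℝ) * p E f (j + 1) x / p E f j x) with hK
  have hpC : ∀ q, ∀ x ∈ C q, p E f j x = ((C q).card : ℝ) := by
    intro q x hx
    have h1 := mem_filter.mp hx
    unfold p
    rw [h1.2]
  have hrec : ∀ q, ∑ x ∈ C q, 1 / p E f (j + 1) x ≤ (b : ℝ) := by
    intro q
    rw [sum_recip (hnest j hjn) q]
    exact_mod_cast hch j hjn q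
  have hxE : ∀ q, ∀ x ∈ C q, x ∈ E := fun q x hx => (mem_filter.mp hx).1
  -- the sum of 1/t
  have hinv : ∀ q, ∑ x ∈ C q, 1 / ((b : ℝ) * p E f (j + 1) x / p E f j x) ≤ ((C q).card : ℝ) := by
    intro q
    have h1 : ∀ x ∈ C q, 1 / ((b : ℝ) * p E f (j + 1) x / p E f j x) =
        ((C q).card : ℝ) / b * (1 / p E f (j + 1) x) := by
      intro x hx
      have hp1 : 0 < p E f (j + 1) x := p_pos (hxE q x hx)
      have hp0 : 0 < p E f j x := p_pos (hxE q x hx)
      rw [hpC q x hx] at hp0 ⊢
      field_simp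
    rw [sum_congr rfl h1, ← mul_sum]
    calc ((C q).card : ℝ) / b * ∑ x ∈ C q, 1 / p E f (j + 1) x ≤ ((C q).card : ℝ) / b * b :=
        mul_le_mul_of_nonneg_left (hrec q) (by positivity)
      _ = ((C q).card : ℝ) := by field_simp
  have htpos : ∀ q, ∀ x ∈ C q, 0 < (b : ℝ) * p E f (j + 1) x / p E f j x := by
    intro q x hx
    have hp1 : 0 < p E f (j + 1) x := p_pos (hxE q x hx)
    have hp0 : 0 < p E f j x := p_pos (hxE q x hx)
    positivity
  have hKnn : ∀ q, 0 ≤ K q := by
    intro q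
    have h1 : ∑ x ∈ C q, (1 - 1 / ((b : ℝ) * p E f (j + 1) x / p E f j x)) ≤ K q := by
      refine sum_le_sum ?_
      intro x hx
      have h2 := Real.one_sub_inv_le_log_of_pos (htpos q x hx)
      rw [one_div]
      exact h2
    rw [sum_sub_distrib, sum_const, nsmul_eq_mul, mul_one] at h1
    linarith [hinv q]
  set Q := E.image (f j) with hQ
  have hsumK : ∑ q ∈ Q, K q = ∑ x ∈ E, Real.log ((b : ℝ) * p E f (j + 1) x / p E f j x) := by
    rw [hK]
    exact sum_fiberwise_of_maps_to (s := E) (t := Q) (g := f j)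
      (fun x hx => mem_image_of_mem _ hx) _
  have hsumC : ∑ q ∈ Q, ((C q).card : ℝ) = (E.card : ℝ) := by
    have h1 := card_eq_sum_card_fiberwise (s := E) (t := Q) (f := f j)
      (fun x hx => mem_image_of_mem _ hx)
    rw [h1, Nat.cast_sum]
  have hηnn : 0 ≤ η := by
    have h1 : 0 ≤ ∑ q ∈ Q, K q := sum_nonneg (fun q _ => hKnn q)
    rw [hsumK] at h1
    have h2 : 0 ≤ (E.card : ℝ) * η := le_trans h1 hj
    exact nonneg_of_mul_nonneg_right h2 hEpos
  set bad1 := Q.filter (fun q => 4 * η * ((C q).card : ℝ) < K q) with hbad1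
  set bad2 := Q.filter (fun q => 4 * (b : ℝ) ^ j * ((C q).card : ℝ) < (E.card : ℝ)) with hbad2
  have hB1 : ∑ q ∈ bad1, ((C q).card : ℝ) ≤ (E.card : ℝ) / 4 := by
    rcases hηnn.eq_or_lt with h | h
    · -- eta = 0
      have hempty : bad1 = ∅ := by
        rw [hbad1]
        refine filter_eq_empty_iff.mpr ?_
        intro q hq
        rw [← h]
        have h1 : ∑ q ∈ Q, K q ≤ 0 := by
          rw [hsumK]
          refine le_trans hj ?_
          rw [← h, mul_zero]
        have h2 : K q ≤ ∑ q ∈ Q, K q := single_le_sum (f := K) (fun i _ => hKnn i) hq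
        have h3 : 4 * (0 : ℝ) * ((C q).card : ℝ) = 0 := by ring
        rw [h3]
        exact not_lt.mpr (le_trans h2 h1)
      rw [hempty, sum_empty]
      positivity
    · have h1 : ∑ q ∈ bad1, 4 * η * ((C q).card : ℝ) ≤ ∑ q ∈ bad1, K q :=
        sum_le_sum (fun q hq => (mem_filter.mp hq).2.le)
      have h2 : ∑ q ∈ bad1, K q ≤ ∑ q ∈ Q, K q :=
        sum_le_sum_of_subset_of_nonneg (filter_subset _ _) (fun q _ _ => hKnn q)
      rw [← mul_sum] at h1
      rw [hsumK] at h2
      have h3 : 4 * η * ∑ q ∈ bad1, ((C q).card : ℝ) ≤ 4 * η * ((E.card : ℝ) / 4) := by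
        calc 4 * η * ∑ q ∈ bad1, ((C q).card : ℝ) ≤ _ := h1
          _ ≤ _ := h2
          _ ≤ (E.card : ℝ) * η := hj
          _ = 4 * η * ((E.card : ℝ) / 4) := by ring
      exact le_of_mul_le_mul_left h3 (by positivity)
  have hcells : ((Q.card : ℕ) : ℝ) ≤ (b : ℝ) ^ j := by
    have h1 := cells_le h0 hch j (by omega)
    exact_mod_cast h1
  have hB2 : ∑ q ∈ bad2, ((C q).card : ℝ) ≤ (E.card : ℝ) / 4 := by
    have hbj : (0 : ℝ) < (b : ℝ) ^ j := by positivity
    have h1 : ∑ q ∈ bad2, ((C q).card : ℝ) ≤ ∑ _q ∈ bad2, (E.card : ℝ) / (4 * (b : ℝ) ^ j) := by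
      refine sum_le_sum ?_
      intro q hq
      have h2 := (mem_filter.mp hq).2
      rw [le_div_iff₀ (by positivity)]
      linarith
    rw [sum_const, nsmul_eq_mul] at h1
    have h2 : (bad2.card : ℝ) ≤ (Q.card : ℝ) := by
      exact_mod_cast card_le_card (filter_subset _ _)
    calc ∑ q ∈ bad2, ((C q).card : ℝ) ≤ (bad2.card : ℝ) * ((E.card : ℝ) / (4 * (b : ℝ) ^ j)) := h1
      _ ≤ (b : ℝ) ^ j * ((E.card : ℝ) / (4 * (b : ℝ) ^ j)) :=
          mul_le_mul_of_nonneg_right (le_trans h2 hcells) (by positivity)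
      _ = (E.card : ℝ) / 4 := by field_simp
  set G := (Q \ bad1) \ bad2 with hG
  refine ⟨G, ?_, ?_⟩
  · -- half of the points
    have h1 : (E.filter (fun x => f j x ∈ G)).card = ∑ q ∈ G, (C q).card := by
      rw [card_eq_sum_card_fiberwise (s := E.filter (fun x => f j x ∈ G)) (t := G) (f := f j)
        (fun x hx => (mem_filter.mp hx).2)]
      refine sum_congr rfl ?_
      intro q hq
      congr 1
      ext x
      constructor
      · intro hx
        have h2 := mem_filter.mp hx
        exact mem_filter.mpr ⟨(mem_filter.mp h2.1).1, h2.2⟩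
      · intro hx
        have h2 := mem_filter.mp hx
        refine mem_filter.mpr ⟨mem_filter.mpr ⟨h2.1, ?_⟩, h2.2⟩
        rw [h2.2]
        exact hq
    rw [h1, Nat.cast_sum]
    have h2 : ∑ q ∈ Q, ((C q).card : ℝ) ≤
        ∑ q ∈ G, ((C q).card : ℝ) + ∑ q ∈ bad2, ((C q).card : ℝ) +
          ∑ q ∈ bad1, ((C q).card : ℝ) := by
      have h3 : ∑ q ∈ Q \ bad1, ((C q).card : ℝ) + ∑ q ∈ bad1, ((C q).card : ℝ) =
          ∑ q ∈ Q, ((C q).card : ℝ) := sum_sdiff (filter_subset _ _)
      have h4 : Q \ bad1 ⊆ G ∪ bad2 := by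
        intro q hq
        rw [mem_union, hG, mem_sdiff]
        by_cases h : q ∈ bad2
        · exact Or.inr h
        · exact Or.inl ⟨hq, h⟩
      have h5 : ∑ q ∈ Q \ bad1, ((C q).card : ℝ) ≤ ∑ q ∈ G ∪ bad2, ((C q).card : ℝ) :=
        sum_le_sum_of_subset_of_nonneg h4 (fun q _ _ => by positivity)
      have h6 : ∑ q ∈ G ∪ bad2, ((C q).card : ℝ) ≤
          ∑ q ∈ G, ((C q).card : ℝ) + ∑ q ∈ bad2, ((C q).card : ℝ) := by
        have h7 := sum_union_inter (s₁ := G) (s₂ := bad2) (f := fun q => ((C q).card : ℝ))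
        have h8 : 0 ≤ ∑ q ∈ G ∩ bad2, ((C q).card : ℝ) := sum_nonneg (fun q _ => by positivity)
        linarith
      linarith
    rw [hsumC] at h2
    linarith
  · intro q hq
    have hq1 : q ∈ Q \ bad1 := (mem_sdiff.mp hq).1
    have hq2 : q ∉ bad2 := (mem_sdiff.mp hq).2
    have hqQ : q ∈ Q := (mem_sdiff.mp hq1).1
    have hq3 : q ∉ bad1 := (mem_sdiff.mp hq1).2
    have hKq : K q ≤ 4 * η * ((C q).card : ℝ) := by
      by_contra hcon
      exact hq3 (mem_filter.mpr ⟨hqQ, not_le.mp hcon⟩)
    have hCq : (E.card : ℝ) ≤ 4 * (b : ℝ) ^ j * ((C q).card : ℝ) := by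
      by_contra hcon
      exact hq2 (mem_filter.mpr ⟨hqQ, not_le.mp hcon⟩)
    refine ⟨hCq, ?_⟩
    have hcpos : (0 : ℝ) < ((C q).card : ℝ) := by
      obtain ⟨x, hx, hxq⟩ := mem_image.mp hqQ
      have : 0 < (C q).card := card_pos.mpr ⟨x, mem_filter.mpr ⟨hx, hxq⟩⟩
      exact_mod_cast this
    set t : α → ℝ := fun x => (b : ℝ) * p E f (j + 1) x / p E f j x with ht
    set E' := (C q).filter (fun x => Real.log (t x) ≤ 8 * η + 1) with hE'
    refine ⟨E', filter_subset _ _, ?_, ?_⟩
    · set Bd := (C q).filter (fun x => ¬ Real.log (t x) ≤ 8 * η + 1) with hBd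
      have hsplit : E'.card + Bd.card = (C q).card := card_filter_add_card_filter_not _
      have h1 : (Bd.card : ℝ) * (8 * η + 1) ≤ ∑ x ∈ C q, (Real.log (t x) + 1 / (2 * t x)) := by
        have h2 : ∑ x ∈ Bd, (8 * η + 1) ≤ ∑ x ∈ Bd, (Real.log (t x) + 1 / (2 * t x)) := by
          refine sum_le_sum ?_
          intro x hx
          have h3 := mem_filter.mp hx
          have h4 : 0 < t x := htpos q x h3.1
          have h5 : 0 < 1 / (2 * t x) := by positivity
          have h6 := not_le.mp h3.2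
          linarith
        rw [sum_const, nsmul_eq_mul] at h2
        refine le_trans h2 ?_
        refine sum_le_sum_of_subset_of_nonneg (filter_subset _ _) ?_
        intro x hx _
        exact g_nonneg (htpos q x hx)
      have h2 : ∑ x ∈ C q, (Real.log (t x) + 1 / (2 * t x)) ≤
          4 * η * ((C q).card : ℝ) + ((C q).card : ℝ) / 2 := by
        rw [sum_add_distrib]
        have h3 : ∑ x ∈ C q, 1 / (2 * t x) = (∑ x ∈ C q, 1 / t x) / 2 := by
          rw [sum_div]
          refine sum_congr rfl ?_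
          intro x hx
          have h4 : 0 < t x := htpos q x hx
          field_simp
        rw [h3]
        have h4 : ∑ x ∈ C q, 1 / t x ≤ ((C q).card : ℝ) := hinv q
        have h5 : ∑ x ∈ C q, Real.log (t x) = K q := rfl
        rw [h5]
        linarith
      have h3 : (Bd.card : ℝ) * (8 * η + 1) ≤ ((C q).card : ℝ) / 2 * (8 * η + 1) := by
        calc (Bd.card : ℝ) * (8 * η + 1) ≤ _ := h1
          _ ≤ _ := h2
          _ = ((C q).card : ℝ) / 2 * (8 * η + 1) := by ring
      have h4 : (Bd.card : ℝ) ≤ ((C q).card : ℝ) / 2 :=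
        le_of_mul_le_mul_right h3 (by positivity)
      have h5 : ((E'.card : ℕ) : ℝ) + (Bd.card : ℝ) = ((C q).card : ℝ) := by exact_mod_cast hsplit
      have h6 : ((C q).card : ℝ) ≤ 2 * (E'.card : ℝ) := by linarith
      exact_mod_cast h6
    · intro q'
      rcases (E'.filter (fun y => f (j + 1) y = q')).eq_empty_or_nonempty with hemp | ⟨x, hx⟩
      · rw [hemp, card_empty, Nat.cast_zero, mul_zero]
        positivity
      · have h1 := mem_filter.mp hx
        have h2 := mem_filter.mp h1.1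
        have hxC : x ∈ C q := h2.1
        have h3 : ((E'.filter (fun y => f (j + 1) y = q')).card : ℝ) ≤ p E f (j + 1) x := by
          unfold p
          rw [h1.2]
          have h4 : E'.filter (fun y => f (j + 1) y = q') ⊆
              E.filter (fun y => f (j + 1) y = q') := by
            intro y hy
            have h5 := mem_filter.mp hy
            exact mem_filter.mpr ⟨hxE q y (mem_filter.mp h5.1).1, h5.2⟩
          exact_mod_cast card_le_card h4
        have h4 : t x ≤ Real.exp (8 * η + 1) := by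
          have h5 : 0 < t x := htpos q x hxC
          calc t x = Real.exp (Real.log (t x)) := (Real.exp_log h5).symm
            _ ≤ _ := Real.exp_le_exp.mpr h2.2
        have h5 : (b : ℝ) * p E f (j + 1) x = t x * ((C q).card : ℝ) := by
          have h6 : t x = (b : ℝ) * p E f (j + 1) x / p E f j x := rfl
          rw [h6, hpC q x hxC, div_mul_cancel₀ _ hcpos.ne']
        calc (b : ℝ) * ((E'.filter (fun y => f (j + 1) y = q')).card : ℝ) ≤
            (b : ℝ) * p E f (j + 1) x := mul_le_mul_of_nonneg_left h3 hb0.le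
          _ = t x * ((C q).card : ℝ) := h5
          _ ≤ Real.exp (8 * η + 1) * ((C q).card : ℝ) :=
              mul_le_mul_of_nonneg_right h4 hcpos.le

end Pool.Agent.EMB
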