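import Pool.Agent.EMB.Defs

/-!
# Squad EMB (MP_973cda_nt, Green Problem 2, Sections 3-6): all statements
-/

set_option autoImplicit false

namespace Pool.Agent.EMB

open MeasureTheory

/-! ## Section 3: Lemma R -/

/-- SCA: entropy over the scales. `f j x` is the cell of level `j` of `x`; every cell of level `j`
has at most `b` children; `V` is the total volume (every cell of level `n` is at most full). -/
def Stmt_SCA : Prop :=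
  ∀ (α β : Type) [DecidableEq α] [DecidableEq β] (E : Finset α) (f : ℕ → α → β) (b n : ℕ) (V : ℝ),
    E.Nonempty → 1 ≤ n → 1 ≤ b →
    (∀ x ∈ E, ∀ y ∈ E, f 0 x = f 0 y) →
    (∀ j, j < n → ∀ x ∈ E, ∀ y ∈ E, f (j + 1) x = f (j + 1) y → f j x = f j y) →
    (∀ j, j < n → ∀ q, ((E.filter (fun y => f j y = q)).image (f (j + 1))).card ≤ b) →
    (∀ q, ((E.filter (fun y => f n y = q)).card : ℝ) * (b : ℝ) ^ n ≤ V) →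
    ∃ j, j < n ∧ ∃ G : Finset β,
      (E.card : ℝ) ≤ 2 * ((E.filter (fun x => f j x ∈ G)).card : ℝ) ∧
      ∀ q ∈ G, (E.card : ℝ) ≤ 4 * (b : ℝ) ^ j * ((E.filter (fun y => f j y = q)).card : ℝ) ∧
        ∃ E' : Finset α, E' ⊆ E.filter (fun y => f j y = q) ∧
          (E.filter (fun y => f j y = q)).card ≤ 2 * E'.card ∧
          ∀ q', (b : ℝ) * ((E'.filter (fun y => f (j + 1) y = q')).card : ℝ) ≤
            Real.exp (8 * (Real.log (V / E.card) / n) + 1) *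
              ((E.filter (fun y => f j y = q)).card : ℝ)

/-- TUR: weighted Turán inequality -/
def Stmt_TUR : Prop :=
  ∀ (α : Type) [DecidableEq α] (C : Finset α) (κ : ℕ) (rel : α → α → Prop) [DecidableRel rel]
    (g : α → ℝ), 2 ≤ κ → (∀ x ∈ C, 0 ≤ g x) → (∀ x y, rel x y → rel y x) →
    (∀ X : Finset α, X ⊆ C → κ ≤ X.card → ∃ x ∈ X, ∃ y ∈ X, x ≠ y ∧ rel x y) →
    (∑ x ∈ C, g x) ^ 2 ≤ ((κ : ℝ) - 1) *
      ∑ p ∈ (C ×ˢ C).filter (fun p => p.1 = p.2 ∨ rel p.1 p.2), g p.1 * g p.2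

/-- GID: the Gaussian midpoint identity, integrated over the centre -/
def Stmt_GID : Prop :=
  ∀ (I : Type) [Fintype I] (σ w w' : I → ℝ), (∀ l, 0 < σ l) →
    Integrable (fun c : I → ℝ => gs σ (w - c) * gs σ (w' - c)) ∧
    ∫ c : I → ℝ, gs σ (w - c) * gs σ (w' - c) =
      hs σ (fun l => (w l - w' l) / 2) * ∏ l, (√Real.pi * σ l)

/-- TAI: one-dimensional Gaussian tail -/
def Stmt_TAI : Prop :=
  ∀ (D B : ℕ) (S p w : ℝ), 1 ≤ D → 10 ^ 4 * D ^ 3 ≤ B → 0 < S → p ≤ w → w ≤ p + S →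
    (1 - Real.exp (-(8 * (D : ℝ)))) * (√(2 * Real.pi) * (S / √B)) ≤
      ∫ c in (p - S / (25 * D))..(p + S + S / (25 * D)),
        Real.exp (-((w - c) ^ 2 / (2 * (S / √B) ^ 2)))

/-- GLB: lower bound for the second moment. Uses GID, TAI -/
def Stmt_GLB : Prop :=
  ∀ (I α : Type) [Fintype I] [Nonempty I] (B : ℕ) (S p : I → ℝ) (E : Finset α) (w : α → I → ℝ),
    10 ^ 4 * Fintype.card I ^ 3 ≤ B → (∀ l, 0 < S l) →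
    (∀ a ∈ E, ∀ l, p l ≤ w a l ∧ w a l ≤ p l + S l) →
    (9 / 10 * (E.card : ℝ) * ∏ l, (√(2 * Real.pi) * (S l / √B))) ^ 2 ≤
      11 / 10 * (∏ l, S l) * ∫ c : I → ℝ, (∑ a ∈ E, gs (fun l => S l / √B) (w a - c)) ^ 2

/-- GR1: one-dimensional grid sum -/
def Stmt_GR1 : Prop :=
  ∀ (s σ m : ℝ), 0 < s → 0 < σ → ∃ Mx : ℤ → ℝ,
    (∀ (q : ℤ) (x : ℝ), q * s ≤ x → x ≤ (q + 1) * s →
      Real.exp (-((x - m) ^ 2 / σ ^ 2)) ≤ Mx q) ∧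
    ∀ Q : Finset ℤ, s * ∑ q ∈ Q, Mx q ≤ √Real.pi * σ + 2 * s

/-- GRD: grid sum in dimension `D`. Uses GR1 -/
def Stmt_GRD : Prop :=
  ∀ (I : Type) [Fintype I] [DecidableEq I] [Nonempty I] (B : ℕ) (s : I → ℕ)
    (E : Finset (I → ℤ)) (A : ℝ) (m : I → ℝ),
    10 ^ 4 * Fintype.card I ^ 3 ≤ B → (∀ l, 1 ≤ s l) →
    (∀ q : I → ℤ, ((E.filter (fun w => ∀ l, w l / (s l : ℤ) = q l)).card : ℝ) ≤ A) →
    (∏ l, (s l : ℝ)) * ∑ w ∈ E, hs (fun l => √B * s l) (fun l => (w l : ℝ) - m l) ≤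
      11 / 10 * A * ∏ l, (√Real.pi * (√B * s l))

/-- CEL: the inequality in one cell. Uses TUR, GID, GLB, GRD -/
def Stmt_CEL : Prop :=
  ∀ (I γ δ : Type) [Fintype I] [DecidableEq I] [Nonempty I] [DecidableEq γ] [DecidableEq δ]
    (κ B F Nc : ℕ) (s : I → ℕ) (p : I → ℤ) (E Mid : Finset (I → ℤ)) (cls : (I → ℤ) → γ)
    (im : (I → ℤ) → δ) (A : ℝ),
    2 ≤ κ → 10 ^ 4 * Fintype.card I ^ 3 ≤ B → (∀ l, 1 ≤ s l) → E.Nonempty →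
    (∀ w ∈ E, ∀ l, p l ≤ w l ∧ w l < p l + B * s l) →
    (E.image cls).card ≤ Nc →
    (∀ X : Finset (I → ℤ), X ⊆ E → κ ≤ X.card → (∀ x ∈ X, ∀ y ∈ X, cls x = cls y) →
      ∃ x ∈ X, ∃ y ∈ X, x ≠ y ∧ (im x = im y ∨ x + y ∈ Mid)) →
    (∀ x ∈ E, (E.filter (fun y => im y = im x)).card ≤ F) →
    (∀ q : I → ℤ, ((E.filter (fun w => ∀ l, w l / (s l : ℤ) = q l)).card : ℝ) ≤ A) →
    7 / 5 * 2 ^ Fintype.card I * (E.card : ℝ) ^ 2 /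
        ((κ : ℝ) ^ 2 * Nc * (B : ℝ) ^ Fintype.card I) ≤
      11 / 10 * A * Mid.card + E.card * F / √(Real.pi * B) ^ Fintype.card I

/-- LTA: lattice points of level `i` in boxes -/
def Stmt_LTA : Prop :=
  ∀ (I : Type) [Fintype I] [DecidableEq I] (r i : ℕ) (φ : (I → ℤ) →ₗ[ℤ] (Fin r → ℤ)) (m : I → ℕ)
    (p : I → ℤ) (E : Finset (I → ℤ)),
    (∀ w ∈ E, ∀ l, p l ≤ w l ∧ w l < p l + 2 ^ i * m l) →
    (∀ w ∈ E, ∀ j, (2 ^ i : ℤ) ∣ φ w j) → E.card ≤ io φ i * ∏ l, m l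

/-- LTB: the number of classes mod 2, and monotonicity of `io` -/
def Stmt_LTB : Prop :=
  ∀ (I : Type) [Fintype I] [DecidableEq I] (r i : ℕ) (φ : (I → ℤ) →ₗ[ℤ] (Fin r → ℤ)),
    (∀ E : Finset (I → ℤ), (∀ w ∈ E, ∀ j, (2 ^ i : ℤ) ∣ φ w j) →
      (E.image (fun w => fun j => φ w j / 2 ^ i % 2)).card * io φ (i + 1) ≤
        2 ^ Fintype.card I * io φ i) ∧
    io φ i ≤ io φ (i + 1) ∧ io φ 0 = 1

/-- FIB: fibres of a proper map -/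
def Stmt_FIB : Prop :=
  ∀ (I : Type) [Fintype I] [DecidableEq I] (r i : ℕ) (φ : (I → ℤ) →ₗ[ℤ] (Fin r → ℤ)) (S : I → ℕ),
    (∀ u : I → ℤ, φ u = 0 → (∀ l, |u l| < (S l : ℤ)) → u = 0) →
    ∀ z : Fin r → ℤ, ((box (fun l => 2 ^ i * S l)).filter (fun w => φ w = z)).card ≤ io φ i

/-- LR: LEMMA R. Uses SCA, CEL, LTA, LTB, FIB -/
def Stmt_LR : Prop :=
  ∀ (I : Type) [Fintype I] [DecidableEq I] [Nonempty I] (r κ B n i t : ℕ)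
    (U : ℕ → Finset (Fin r → ℤ)) (c : Fin r → ℤ) (φ : (I → ℤ) →ₗ[ℤ] (Fin r → ℤ)) (k : I → ℕ),
    2 ≤ κ → 1 ≤ n → 10 ^ 4 * Fintype.card I ^ 3 ≤ B → Chain κ U → (∀ l, n + 1 ≤ k l) →
    (∀ u : I → ℤ, φ u = 0 → (∀ l, |u l| < ((B ^ k l : ℕ) : ℤ)) → u = 0) →
    (lev (U t) c φ (fun l => B ^ k l) i).Nonempty →
    12 * κ ^ 2 * io φ i * B ^ (n * Fintype.card I) ≤
      (lev (U t) c φ (fun l => B ^ k l) i).card →
    (io φ (i + 1) : ℝ) * ((lev (U t) c φ (fun l => B ^ k l) i).card : ℝ) *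
        Real.exp (-(8 * (Real.log ((io φ i : ℝ) * (∏ l, (B : ℝ) ^ k l) /
          ((lev (U t) c φ (fun l => B ^ k l) i).card : ℝ)) / n))) ≤
      40 * (κ : ℝ) ^ 2 * io φ i *
        ((lev (U (t + 1)) c φ (fun l => B ^ k l) (i + 1)).card : ℝ)

/-! ## Section 4: evolution -/

/-- EVS: evolution without thin coordinates. Uses LR, LTA, LTB -/
def Stmt_EVS : Prop :=
  ∀ (I : Type) [Fintype I] [DecidableEq I] [Nonempty I] (r κ B n t : ℕ)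
    (U : ℕ → Finset (Fin r → ℤ)) (c : Fin r → ℤ) (φ : (I → ℤ) →ₗ[ℤ] (Fin r → ℤ)) (k : I → ℕ)
    (y : ℝ),
    2 ≤ κ → 1 ≤ n → 10 ^ 4 * Fintype.card I ^ 3 ≤ B → Chain κ U → (∀ l, n + 1 ≤ k l) →
    (∀ u : I → ℤ, φ u = 0 → (∀ l, |u l| < ((B ^ k l : ℕ) : ℤ)) → u = 0) →
    0 ≤ y →
    Real.exp (-y) * (∏ l, (B : ℝ) ^ k l) ≤ ((lev (U t) c φ (fun l => B ^ k l) 0).card : ℝ) →
    12 * (κ : ℝ) ^ 2 * (B : ℝ) ^ (n * Fintype.card I) * Real.exp (n / 8) ≤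
      ∏ l, (B : ℝ) ^ k l →
    ∀ Δ : ℕ, y + Δ * Ck κ ≤ n / 8 →
      Real.exp (-y - Δ * Ck κ) * io φ Δ * (∏ l, (B : ℝ) ^ k l) ≤
        ((lev (U (t + Δ)) c φ (fun l => B ^ k l) Δ).card : ℝ)

/-- EV: EVOLUTION LEMMA. Uses EVS -/
def Stmt_EV : Prop :=
  ∀ (r D κ B n t Δ : ℕ) (U : ℕ → Finset (Fin r → ℤ)) (P : Gap r D) (y : ℝ),
    2 ≤ κ → 1 ≤ D → 1 ≤ n → 10 ^ 4 * D ^ 3 ≤ B → Chain κ U → P.Scaled B n → 0 ≤ y →
    Real.exp (-y) * P.size ≤ ((U t ∩ P.pts).card : ℝ) →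
    2 * y + 2 + Δ * Ck κ ≤ n / 8 →
    100 * (κ : ℝ) ^ 2 * (B : ℝ) ^ (2 * (n + 1) * D) * Real.exp n ≤ P.size →
    Real.exp (-y - 1 - Δ * Ck κ) * ioT P.φ (P.thick B n) Δ * P.size ≤
      ((levT (U (t + Δ)) P (P.thick B n) Δ).card : ℝ)

/-- IOT: `ι_i ≥ 2^(i ρ)` -/
def Stmt_IOT : Prop :=
  ∀ (r d i : ℕ) (φ : (Fin d → ℤ) →ₗ[ℤ] (Fin r → ℤ)) (Th : Finset (Fin d)),
    2 ^ (i * rhoT φ Th) ≤ ioT φ Th i

/-! ## Section 5: geometry of numbers -/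

/-- CLB: a quasi-orthogonal basis of a discrete group -/
def Stmt_CLB : Prop :=
  ∀ (E : Type) [NormedAddCommGroup E] [InnerProductSpace ℝ E] [FiniteDimensional ℝ E] (d : ℕ)
    (Lam : AddSubgroup E), (∀ R : ℝ, {y : E | y ∈ Lam ∧ ‖y‖ ≤ R}.Finite) →
    Module.finrank ℝ (Submodule.span ℝ (Lam : Set E)) = d →
    ∃ b : Fin d → E, (∀ l, b l ∈ Lam ∧ b l ≠ 0) ∧
      (∀ y ∈ Lam, ∃ v : Fin d → ℤ, y = ∑ l, v l • b l) ∧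
      ∀ (v : Fin d → ℤ) (l : Fin d),
        |(v l : ℝ)| * ‖b l‖ ≤ (2 * (d : ℝ)) ^ d * ‖∑ l, v l • b l‖

/-- CLP: projection of a discrete group orthogonally to some of its short vectors -/
def Stmt_CLP : Prop :=
  ∀ (E : Type) [NormedAddCommGroup E] [InnerProductSpace ℝ E] [FiniteDimensional ℝ E]
    (Lam : AddSubgroup E) (X : Set E) (R : ℝ),
    (∀ R : ℝ, {y : E | y ∈ Lam ∧ ‖y‖ ≤ R}.Finite) → X ⊆ (Lam : Set E) → (∀ x ∈ X, ‖x‖ ≤ R) →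
    0 ≤ R →
    (∀ y ∈ Lam, ∃ y₁ ∈ Lam, y - y₁ ∈ Submodule.span ℝ X ∧
      ‖y₁‖ ≤ ‖(Submodule.span ℝ X)ᗮ.starProjection y‖ + (Module.finrank ℝ E : ℝ) / 2 * R) ∧
    (∀ R' : ℝ, {y : E | y ∈ Lam.map (((Submodule.span ℝ X)ᗮ.starProjection : E →L[ℝ] E) :
      E →+ E) ∧ ‖y‖ ≤ R'}.Finite) ∧
    Module.finrank ℝ (Submodule.span ℝ ((Lam.map
        (((Submodule.span ℝ X)ᗮ.starProjection : E →L[ℝ] E) : E →+ E) : AddSubgroup E) : Set E)) +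
      Module.finrank ℝ (Submodule.span ℝ X) =
      Module.finrank ℝ (Submodule.span ℝ (Lam : Set E))

/-- CLS: stabilisation of the spans -/
def Stmt_CLS : Prop :=
  ∀ (E : Type) [NormedAddCommGroup E] [InnerProductSpace ℝ E] [FiniteDimensional ℝ E]
    (K : Set E) (rr : ℕ → ℝ), Monotone rr →
    ∃ k, k ≤ Module.finrank ℝ E ∧
      Submodule.span ℝ (K ∩ Metric.closedBall 0 (rr k)) =
        Submodule.span ℝ (K ∩ Metric.closedBall 0 (rr (k + 1)))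

/-- CL: CONVERSION LEMMA. Uses CLB, CLP, CLS -/
def Stmt_CL : Prop :=
  ∀ (I : Type) [Fintype I] [DecidableEq I] [Nonempty I] (r : ℕ) (Lam : AddSubgroup (I → ℤ))
    (N : I → ℝ) (φ : Lam →+ (Fin r → ℤ)), (∀ l, 0 < N l) →
    ∃ (d : ℕ) (g : Fin d → Fin r → ℤ) (M : Fin d → ℕ),
      d ≤ Module.finrank ℤ Lam ∧ (∀ l, 1 ≤ M l) ∧
      (∀ u : Fin d → ℤ, (∀ l, |u l| ≤ 8 * (M l : ℤ)) →
        ∃ y : Lam, InK N 1 (y : I → ℤ) ∧ φ y = ∑ l, u l • g l) ∧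
      (∀ u : Fin d → ℤ, (∀ l, |u l| ≤ 8 * (M l : ℤ)) → ∑ l, u l • g l = 0 → u = 0) ∧
      (∃ C : Finset (Fin r → ℤ), (C.card : ℝ) ≤ ED (Fintype.card I) ∧
        ∀ y : Lam, InK N 1 (y : I → ℤ) → ∃ f ∈ C, ∃ u : Fin d → ℤ,
          (∀ l, 0 ≤ u l ∧ u l < (M l : ℤ)) ∧ φ y = f + ∑ l, u l • g l) ∧
      (d < Module.finrank ℤ Lam ∨
        ∀ X : Finset (I → ℤ), (∀ y ∈ X, y ∈ Lam ∧ InK N 1 y) →
          (X.card : ℝ) ≤ ED (Fintype.card I) * ∏ l, (M l : ℝ))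

/-! ## Section 6: one round -/

/-- PSI: the lattice `Λ_i` (scaled by `2^i`) and the map `φ / 2^i` -/
def Stmt_PSI : Prop :=
  ∀ (r d i : ℕ) (φ : (Fin d → ℤ) →ₗ[ℤ] (Fin r → ℤ)) (Th : Finset (Fin d)),
    ∃ (Lam : AddSubgroup (Fin d → ℤ)) (ψ : Lam →+ (Fin r → ℤ)),
      (∀ w, w ∈ Lam ↔ LatT φ Th i w) ∧ (∀ (w : Lam) (j : Fin r), 2 ^ i * ψ w j = φ w j) ∧
      Module.finrank ℤ Lam = d

/-- RA1: short kernel vectors, and points of `Λ_i` in boxes -/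
def Stmt_RA1 : Prop :=
  ∀ (r d i : ℕ) (P : Gap r d) (Th : Finset (Fin d)) (X : Finset (Fin d → ℤ)),
    (∀ w ∈ X, LatT P.φ Th i w) →
    ((∀ w ∈ X, P.φ w = 0 ∧ ∀ l, |w l| ≤ 2 ^ i * (P.M l : ℤ)) → X.card ≤ ioT P.φ Th i) ∧
    ((∀ w ∈ X, ∀ l, |w l| ≤ 2 * (2 ^ i * (P.M l : ℤ))) →
      X.card ≤ 5 ^ d * ioT P.φ Th i * P.size)

/-- RA2: exact number of points of `Λ_i` in the box of `P` -/
def Stmt_RA2 : Prop :=
  ∀ (r d i : ℕ) (P : Gap r d) (Th : Finset (Fin d)),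
    ((box (fun l => 2 ^ i * P.M l)).filter (LatT P.φ Th i)).card = ioT P.φ Th i * P.size

/-- RA3: points of `Λ_i ∩ K(2)` with image in a translate of `T` -/
def Stmt_RA3 : Prop :=
  ∀ (r d i Q : ℕ) (P : Gap r d) (Th : Finset (Fin d)) (T : Finset (Fin r → ℤ))
    (a : Fin r → ℤ) (X : Finset (Fin d → ℤ)),
    (∀ x : Fin r → ℤ, (P.pts.filter (fun p => p - x ∈ T)).card ≤ Q) →
    (∀ w ∈ X, LatT P.φ Th i w ∧ (∀ l, |w l| ≤ 2 * (2 ^ i * (P.M l : ℤ))) ∧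
      ∃ z : Fin r → ℤ, (∀ j, 2 ^ i * z j = P.φ w j) ∧ z - a ∈ T) →
    X.card ≤ 5 ^ d * ioT P.φ Th i * Q

/-- RC1: the round before rounding the sides. Uses CL, PSI, RA1, RA2, RA3 -/
def Stmt_RC1 : Prop :=
  ∀ (r D i : ℕ) (U : Finset (Fin r → ℤ)) (P : Gap r D) (Th : Finset (Fin D))
    (T : Finset (Fin r → ℤ)) (q θ : ℝ), 1 ≤ D → 0 < q → QB P T q → 0 < θ →
    θ * ioT P.φ Th i * P.size ≤ ((levT U P Th i).card : ℝ) →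
    ∃ (d : ℕ) (P' : Gap r d) (q' : ℝ), d ≤ D ∧ 0 < q' ∧ QB P' T q' ∧
      θ / (5 ^ D * ED D) * P'.size ≤ ((U ∩ P'.pts).card : ℝ) ∧
      (P.size : ℝ) / ED D ≤ P'.size ∧ q' ≤ 10 ^ D * ED D * q ∧
      (d = D → (ioT P.φ Th i : ℝ) * P.size / (q * (10 ^ D * ED D ^ 2)) ≤ P'.size / q')

/-- RC2: rounding the sides to powers of `B` -/
def Stmt_RC2 : Prop :=
  ∀ (r d B n : ℕ) (U : Finset (Fin r → ℤ)) (P : Gap r d) (T : Finset (Fin r → ℤ)) (q : ℝ),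
    2 ≤ B → 0 < q → QB P T q →
    ∃ P' : Gap r d, P'.Scaled B n ∧ P'.pts ⊆ P.pts ∧
      ((U ∩ P.pts).card : ℝ) * P'.size ≤ 2 ^ d * P.size * ((U ∩ P'.pts).card : ℝ) ∧
      (P.size : ℝ) ≤ (B : ℝ) ^ d * P'.size ∧ QB P' T ((B : ℝ) ^ d * q)

/-- RND: ROUND LEMMA. Uses EV, IOT, RC1, RC2 -/
def Stmt_RND : Prop :=
  ∀ (r D κ B n t Δ : ℕ) (U : ℕ → Finset (Fin r → ℤ)) (P : Gap r D) (T : Finset (Fin r → ℤ))
    (y q : ℝ),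
    2 ≤ κ → 1 ≤ D → 1 ≤ n → 10 ^ 4 * D ^ 3 ≤ B → Chain κ U → P.Scaled B n → 0 ≤ y → 0 < q →
    Real.exp (-y) * P.size ≤ ((U t ∩ P.pts).card : ℝ) →
    2 * y + 2 + Δ * Ck κ ≤ n / 8 →
    100 * (κ : ℝ) ^ 2 * (B : ℝ) ^ (2 * (n + 1) * D) * Real.exp n ≤ P.size →
    QB P T q →
    ∃ (d : ℕ) (P' : Gap r d) (q' : ℝ), d ≤ D ∧ P'.Scaled B n ∧ 0 < q' ∧ QB P' T q' ∧
      Real.exp (-y - Δ * Ck κ - Y4 D B) * P'.size ≤ ((U (t + Δ) ∩ P'.pts).card : ℝ) ∧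
      Real.exp (-Y4 D B) * P.size ≤ P'.size ∧ q' ≤ Real.exp (Y4 D B) * q ∧
      (d = D → 2 ^ (Δ * rhoT P.φ (P.thick B n)) * Real.exp (-Y4 D B) * (P.size / q) ≤
        P'.size / q')

end Pool.Agent.EMB
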