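import Pool.Agent.EMB.Stmts

set_option autoImplicit false

namespace Pool.Agent.EMB

namespace TUR_

theorem key {α : Type} [DecidableEq α] (rel : α → α → Prop) [DecidableRel rel] (g : α → ℝ)
    (hsym : ∀ x y, rel x y → rel y x) : ∀ (k : ℕ) (C : Finset α), (∀ x ∈ C, 0 ≤ g x) →
    (∀ X : Finset α, X ⊆ C → k + 2 ≤ X.card → ∃ x ∈ X, ∃ y ∈ X, x ≠ y ∧ rel x y) →
    (∑ x ∈ C, g x) ^ 2 ≤ ((k : ℝ) + 1) *
      ∑ y ∈ C, g y * ∑ z ∈ C.filter (fun z => y = z ∨ rel y z), g z := by
  intro k
  induction k with
  | zero =>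
    intro C hg hX
    have h1 : ∀ y ∈ C, C.filter (fun z => y = z ∨ rel y z) = C := by
      intro y hy
      apply Finset.filter_true_of_mem
      intro z hz
      by_cases h : y = z
      · exact Or.inl h
      · right
        obtain ⟨a, ha, b, hb, hab, hr⟩ := hX {y, z} (by
          intro w hw
          rw [Finset.mem_insert, Finset.mem_singleton] at hw
          rcases hw with rfl | rfl
          · exact hy
          · exact hz) (by rw [Finset.card_pair h])
        rw [Finset.mem_insert, Finset.mem_singleton] at ha hb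
        rcases ha with rfl | rfl <;> rcases hb with rfl | rfl
        · exact absurd rfl hab
        · exact hr
        · exact hsym _ _ hr
        · exact absurd rfl hab
    have h2 : ∑ y ∈ C, g y * ∑ z ∈ C.filter (fun z => y = z ∨ rel y z), g z =
        ∑ y ∈ C, g y * ∑ z ∈ C, g z := by
      apply Finset.sum_congr rfl
      intro y hy
      rw [h1 y hy]
    rw [h2, ← Finset.sum_mul, sq]
    simp
  | succ k ih =>
    intro C hg hX
    rcases C.eq_empty_or_nonempty with rfl | hne
    · simp
    obtain ⟨x0, hx0, hmin⟩ := Finset.exists_min_image C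
      (fun x => ∑ z ∈ C.filter (fun z => x = z ∨ rel x z), g z) hne
    set R := C.filter (fun z => x0 = z ∨ rel x0 z) with hR
    set ρ := ∑ z ∈ R, g z with hρ
    set N := C.filter (fun z => ¬ (x0 = z ∨ rel x0 z)) with hN
    have hRC : R ⊆ C := Finset.filter_subset _ _
    have hNC : N ⊆ C := Finset.filter_subset _ _
    have hsplit : ∀ F : α → ℝ, ∑ z ∈ C, F z = ∑ z ∈ R, F z + ∑ z ∈ N, F z := by
      intro F
      rw [hR, hN, Finset.sum_filter_add_sum_filter_not]
    have hNind := ih N (fun x hx => hg x (hNC hx)) (by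
      intro X hXN hcard
      have hx0X : x0 ∉ X := by
        intro h
        have := hXN h
        rw [hN, Finset.mem_filter] at this
        exact this.2 (Or.inl rfl)
      obtain ⟨a, ha, b, hb, hab, hr⟩ := hX (insert x0 X) (by
        intro w hw
        rw [Finset.mem_insert] at hw
        rcases hw with rfl | hw
        · exact hx0
        · exact hNC (hXN hw)) (by
          rw [Finset.card_insert_of_notMem hx0X]; omega)
      rw [Finset.mem_insert] at ha hb
      have hcon : ∀ y ∈ X, ¬ rel x0 y := by
        intro y hy h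
        have := hXN hy
        rw [hN, Finset.mem_filter] at this
        exact this.2 (Or.inr h)
      rcases ha with rfl | ha
      · rcases hb with rfl | hb
        · exact absurd rfl hab
        · exact absurd hr (hcon b hb)
      · rcases hb with rfl | hb
        · exact absurd (hsym _ _ hr) (hcon a ha)
        · exact ⟨a, ha, b, hb, hab, hr⟩)
    set SN := ∑ y ∈ N, g y * ∑ z ∈ N.filter (fun z => y = z ∨ rel y z), g z with hSN
    set W := ∑ x ∈ C, g x with hW
    have hWN : ∑ x ∈ N, g x = W - ρ := by
      have := hsplit g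
      rw [← hW, ← hρ] at this
      linarith
    have hlow : ρ * ρ + SN ≤
        ∑ y ∈ C, g y * ∑ z ∈ C.filter (fun z => y = z ∨ rel y z), g z := by
      rw [hsplit (fun y => g y * ∑ z ∈ C.filter (fun z => y = z ∨ rel y z), g z)]
      apply add_le_add
      · calc ρ * ρ = ∑ y ∈ R, g y * ρ := by rw [← Finset.sum_mul]
          _ ≤ _ := by
            apply Finset.sum_le_sum
            intro y hy
            exact mul_le_mul_of_nonneg_left (hmin y (hRC hy)) (hg y (hRC hy))
      · apply Finset.sum_le_sum
        intro y hy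
        apply mul_le_mul_of_nonneg_left _ (hg y (hNC hy))
        apply Finset.sum_le_sum_of_subset_of_nonneg
        · exact Finset.filter_subset_filter _ hNC
        · intro z hz _
          exact hg z (Finset.filter_subset _ _ hz)
    have hk : (0 : ℝ) < (k : ℝ) + 1 := by positivity
    rw [hWN] at hNind
    push_cast
    have h2 : W ^ 2 ≤ ((k : ℝ) + 1 + 1) * (ρ * ρ + SN) := by
      have h3 : ((k : ℝ) + 1) * W ^ 2 ≤ ((k : ℝ) + 1) * (((k : ℝ) + 1 + 1) * (ρ * ρ + SN)) := by
        nlinarith [sq_nonneg (((k : ℝ) + 1) * ρ - (W - ρ)), hNind]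
      exact le_of_mul_le_mul_left h3 hk
    refine h2.trans ?_
    exact mul_le_mul_of_nonneg_left hlow (by positivity)

end TUR_

theorem tur_proof : Stmt_TUR := by
  intro α _ C κ rel _ g hκ hg hsym hX
  obtain ⟨k, rfl⟩ : ∃ k, κ = k + 2 := ⟨κ - 2, by omega⟩
  have h := TUR_.key rel g hsym k C hg hX
  have h2 : ∑ p ∈ (C ×ˢ C).filter (fun p => p.1 = p.2 ∨ rel p.1 p.2), g p.1 * g p.2 =
      ∑ y ∈ C, g y * ∑ z ∈ C.filter (fun z => y = z ∨ rel y z), g z := by
    rw [Finset.sum_filter, Finset.sum_product]
    apply Finset.sum_congr rfl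
    intro y _
    rw [Finset.mul_sum, Finset.sum_filter]
  rw [h2]
  push_cast
  have h3 : (k : ℝ) + 2 - 1 = (k : ℝ) + 1 := by ring
  rw [h3]
  exact h

end Pool.Agent.EMB
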